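import Pool.Agent.KUR.Defs

set_option autoImplicit false

open Finset

namespace Pool.Agent.KUR

theorem sum_fib {ι : Type} [Fintype ι] {k : ℕ} (π : ι → Fin k) (g : Fin k → ℕ) :
    ∑ i, fib π i * g i = ∑ e, g (π e) := by
  classical
  rw [← Finset.sum_fiberwise (s := (univ : Finset ι)) (g := π) (f := fun e => g (π e))]
  refine Finset.sum_congr rfl fun i _ => ?_
  rw [Finset.sum_congr rfl (g := fun _ => g i)]
  · simp [fib]
  · intro e he
    rw [(Finset.mem_filter.1 he).2]

/-- Making the choices class by class. -/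
theorem avg_aux {ι : Type} [Fintype ι] {k : ℕ} (π : ι → Fin k) (W : ι → ι → ℕ)
    (hs : ∀ e f, W e f = W f e) (h0 : ∀ e f, π e = π f → W e f = 0) (T : Finset (Fin k)) :
    ∃ ρ : ι → ι, (∀ e, π (ρ e) = π e) ∧ (∀ e f, π e = π f → π e ∈ T → ρ e = ρ f) ∧
      ∑ e, ∑ f, W (ρ e) (ρ f) ≤ ∑ e, ∑ f, W e f := by
  classical
  induction T using Finset.induction_on with
  | empty => exact ⟨id, fun _ => rfl, by simp, le_rfl⟩
  | insert i T hi ih =>
    obtain ⟨ρ, h1, h2, h3⟩ := ih
    by_cases hne : (univ.filter fun e : ι => π e = i).Nonempty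
    · obtain ⟨e0, he0, hmin⟩ := Finset.exists_min_image _ (fun e => ∑ f, W (ρ e) (ρ f)) hne
      have he0' : π e0 = i := (Finset.mem_filter.1 he0).2
      refine ⟨fun e => if π e = i then ρ e0 else ρ e, ?_, ?_, ?_⟩
      · intro e
        by_cases h : π e = i
        · simp only [h, if_true]
          rw [h1, he0']
        · simp only [h, if_false]
          exact h1 e
      · intro e f hef hT
        by_cases h : π e = i
        · have h' : π f = i := hef ▸ h
          simp only [h, h', if_true]
        · have h' : ¬ π f = i := hef ▸ h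
          simp only [h, h', if_false]
          exact h2 e f hef ((Finset.mem_insert.1 hT).resolve_left h)
      · refine le_trans ?_ h3
        -- split according to the class i
        have key : ∀ (σ : ι → ι), (∀ e, π (σ e) = π e) → ∑ e, ∑ f, W (σ e) (σ f) =
            (∑ e ∈ univ.filter fun e : ι => ¬ π e = i, ∑ f ∈ univ.filter fun f : ι => ¬ π f = i,
              W (σ e) (σ f)) +
            2 * ∑ e ∈ univ.filter fun e : ι => π e = i,
              ∑ f ∈ univ.filter fun f : ι => ¬ π f = i, W (σ e) (σ f) := by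
          intro σ hσ
          have hin : ∀ e, ∑ f, W (σ e) (σ f) = (∑ f ∈ univ.filter fun f : ι => π f = i,
              W (σ e) (σ f)) + ∑ f ∈ univ.filter fun f : ι => ¬ π f = i, W (σ e) (σ f) := fun e =>
            (Finset.sum_filter_add_sum_filter_not _ _ _).symm
          rw [Finset.sum_congr rfl fun e _ => hin e, Finset.sum_add_distrib]
          have hz : ∑ e ∈ univ.filter fun e : ι => π e = i, ∑ f ∈ univ.filter fun f : ι => π f = i,
              W (σ e) (σ f) = 0 := by
            refine Finset.sum_eq_zero fun e he => Finset.sum_eq_zero fun f hf => h0 _ _ ?_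
            rw [hσ, hσ, (Finset.mem_filter.1 he).2, (Finset.mem_filter.1 hf).2]
          rw [← Finset.sum_filter_add_sum_filter_not (univ : Finset ι) (fun e : ι => π e = i)
            (fun e => ∑ f ∈ univ.filter fun f : ι => π f = i, W (σ e) (σ f)),
            ← Finset.sum_filter_add_sum_filter_not (univ : Finset ι) (fun e : ι => π e = i)
            (fun e => ∑ f ∈ univ.filter fun f : ι => ¬ π f = i, W (σ e) (σ f)), hz]
          have hc : ∑ e ∈ univ.filter fun e : ι => ¬ π e = i,
              ∑ f ∈ univ.filter fun f : ι => π f = i, W (σ e) (σ f) =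
              ∑ e ∈ univ.filter fun e : ι => π e = i,
              ∑ f ∈ univ.filter fun f : ι => ¬ π f = i, W (σ e) (σ f) := by
            rw [Finset.sum_comm]
            exact Finset.sum_congr rfl fun e _ => Finset.sum_congr rfl fun f _ => hs _ _
          rw [hc]
          ring
        rw [key ρ h1, key _ (by
          intro e
          by_cases h : π e = i
          · simp only [h, if_true]
            rw [h1, he0']
          · simp only [h, if_false]
            exact h1 e)]
        refine Nat.add_le_add (le_of_eq ?_) (Nat.mul_le_mul_left 2 ?_)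
        · refine Finset.sum_congr rfl fun e he => Finset.sum_congr rfl fun f hf => ?_
          rw [if_neg (Finset.mem_filter.1 he).2, if_neg (Finset.mem_filter.1 hf).2]
        · refine Finset.sum_le_sum fun e he => ?_
          have h4 : ∀ e', π e' = i → ∑ f, W (ρ e') (ρ f) =
              ∑ f ∈ univ.filter fun f : ι => ¬ π f = i, W (ρ e') (ρ f) := by
            intro e' he'
            rw [← Finset.sum_filter_add_sum_filter_not (univ : Finset ι) (fun f : ι => π f = i)
              (fun f => W (ρ e') (ρ f))]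
            rw [Finset.sum_eq_zero (s := univ.filter fun f : ι => π f = i), zero_add]
            intro f hf
            refine h0 _ _ ?_
            rw [h1, h1, he', (Finset.mem_filter.1 hf).2]
          have h5 : ∑ f, W (ρ e0) (ρ f) ≤ ∑ f, W (ρ e) (ρ f) := hmin e he
          rw [h4 e0 he0', h4 e (Finset.mem_filter.1 he).2] at h5
          refine le_trans (le_of_eq ?_) h5
          refine Finset.sum_congr rfl fun f hf => ?_
          rw [if_pos (Finset.mem_filter.1 he).2, if_neg (Finset.mem_filter.1 hf).2]
    · refine ⟨ρ, h1, ?_, h3⟩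
      intro e f hef hT
      refine h2 e f hef ((Finset.mem_insert.1 hT).resolve_left fun h => hne ⟨e, ?_⟩)
      exact Finset.mem_filter.2 ⟨Finset.mem_univ _, h⟩

theorem Xof_comm {V ι : Type} [LinearOrder V] (s t : ι → V) (κ : V → ι → ZMod 2) (i j : ι)
    (h1 : s i ≠ s j) (h2 : s i ≠ t j) (h3 : t i ≠ s j) (h4 : t i ≠ t j) :
    Xof s t κ i j = Xof s t κ j i := by
  have key : ∀ a b : V, a ≠ b → (if b < a then (1 : ZMod 2) else 0) =
      (if a < b then 1 else 0) + 1 := by
    intro a b hab
    rcases lt_or_gt_of_ne hab with h | h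
    · rw [if_neg (not_lt.2 h.le), if_pos h]; decide
    · rw [if_pos h, if_neg (not_lt.2 h.le)]; decide
  unfold Xof X0
  rw [key _ _ h1, key _ _ h2, key _ _ h3, key _ _ h4]
  have h4 : (4 : ZMod 2) = 0 := by decide
  linear_combination h4

/-- One copy of every edge can be chosen so that the weighted number of odd pairs does not
increase. -/
theorem average {n k : ℕ} (s t : Fin k → Fin n) {ι : Type} [Fintype ι] [DecidableEq ι]
    (π : ι → Fin k) (κ : Fin n → ι → ZMod 2) :
    ∃ κ' : Fin n → Fin k → ZMod 2, 2 * Cost s t κ' (fib π) ≤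
      ∑ e, ∑ f, if Indep s t (π e) (π f) ∧ Xof (fun e => s (π e)) (fun e => t (π e)) κ e f ≠ 0
        then 1 else 0 := by
  classical
  set W : ι → ι → ℕ := fun e f => if Indep s t (π e) (π f) ∧
    Xof (fun e => s (π e)) (fun e => t (π e)) κ e f ≠ 0 then 1 else 0 with hW
  have hs : ∀ e f, W e f = W f e := by
    intro e f
    simp only [hW]
    by_cases h : Indep s t (π e) (π f)
    · have h' : Indep s t (π f) (π e) := ⟨h.1.symm, h.2.2.1.symm, h.2.1.symm, h.2.2.2.symm⟩
      rw [Xof_comm (fun e => s (π e)) (fun e => t (π e)) κ e f h.1 h.2.1 h.2.2.1 h.2.2.2]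
      simp only [h, h']
    · have h' : ¬ Indep s t (π f) (π e) := fun h' =>
        h ⟨h'.1.symm, h'.2.2.1.symm, h'.2.1.symm, h'.2.2.2.symm⟩
      simp only [h, h', false_and]
  have h0 : ∀ e f, π e = π f → W e f = 0 := by
    intro e f hef
    simp only [hW]
    rw [if_neg]
    rintro ⟨h, -⟩
    exact h.1 (by rw [hef])
  obtain ⟨ρ, h1, h2, h3⟩ := avg_aux π W hs h0 univ
  have hex : ∀ i : Fin k, ∃ c : Fin n → ZMod 2, ∀ e, π e = i → ∀ v, c v = κ v (ρ e) := by
    intro i
    by_cases h : ∃ e, π e = i
    · obtain ⟨e, he⟩ := h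
      refine ⟨fun v => κ v (ρ e), fun e' he' v => ?_⟩
      simp only
      rw [h2 e e' (by rw [he, he']) (Finset.mem_univ _)]
    · exact ⟨fun _ => 0, fun e he => absurd ⟨e, he⟩ h⟩
  choose c hc using hex
  refine ⟨fun v i => c i v, ?_⟩
  refine le_trans ?_ h3
  have hX : ∀ e f, Xof s t (fun v i => c i v) (π e) (π f) =
      Xof (fun e => s (π e)) (fun e => t (π e)) κ (ρ e) (ρ f) := by
    intro e f
    unfold Xof X0
    simp only [h1]
    rw [hc _ e rfl, hc _ e rfl, hc _ f rfl, hc _ f rfl]
  have hC : Cost s t (fun v i => c i v) (fib π) = ∑ e, ∑ f,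
      if π e < π f then W (ρ e) (ρ f) else 0 := by
    have e1 : Cost s t (fun v i => c i v) (fib π) = ∑ i, fib π i * ∑ j, fib π j *
        (if i < j ∧ Indep s t i j ∧ Xof s t (fun v i => c i v) i j ≠ 0 then 1 else 0) := by
      unfold Cost
      refine Finset.sum_congr rfl fun i _ => ?_
      rw [Finset.mul_sum]
      refine Finset.sum_congr rfl fun j _ => ?_
      split_ifs <;> simp
    rw [e1, sum_fib π (fun i => ∑ j, fib π j *
      (if i < j ∧ Indep s t i j ∧ Xof s t (fun v i => c i v) i j ≠ 0 then 1 else 0))]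
    refine Finset.sum_congr rfl fun e _ => ?_
    rw [sum_fib π (fun j => if π e < j ∧ Indep s t (π e) j ∧
      Xof s t (fun v i => c i v) (π e) j ≠ 0 then 1 else 0)]
    refine Finset.sum_congr rfl fun f _ => ?_
    simp only [hW, h1, hX]
    by_cases h : π e < π f
    · simp only [h, true_and, if_true]
    · simp only [h, false_and, if_false]
  rw [hC, two_mul]
  have hsymm : ∑ e, ∑ f, (if π e < π f then W (ρ e) (ρ f) else 0) =
      ∑ e, ∑ f, if π f < π e then W (ρ e) (ρ f) else 0 := by
    rw [Finset.sum_comm]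
    refine Finset.sum_congr rfl fun e _ => Finset.sum_congr rfl fun f _ => ?_
    rw [hs]
  nth_rewrite 2 [hsymm]
  rw [← Finset.sum_add_distrib]
  refine Finset.sum_le_sum fun e _ => ?_
  rw [← Finset.sum_add_distrib]
  refine Finset.sum_le_sum fun f _ => ?_
  by_cases h : π e < π f
  · rw [if_pos h, if_neg (not_lt.2 h.le)]
    simp
  · rw [if_neg h]
    split_ifs <;> simp

end Pool.Agent.KUR
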