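import Pool.Agent.KUR.Comb0

/-!
# Case 4d of the lower bound, except the perfect matching case
-/

set_option autoImplicit false

open Finset

namespace Pool.Agent.KUR

namespace CB

/-! ### Cuts -/

theorem combB_foldr_le (l : List ℕ) (a b : ℕ) (h : b ∈ l) : l.foldr min a ≤ b := by
  induction l with
  | nil => simp at h
  | cons c l ih =>
    rw [List.foldr_cons]
    rcases List.mem_cons.1 h with h | h
    · rw [h]
      exact min_le_left _ _
    · exact (min_le_right _ _).trans (ih h)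

theorem combB_foldr_mem (l : List ℕ) (a : ℕ) : l.foldr min a = a ∨ l.foldr min a ∈ l := by
  induction l with
  | nil => left; rfl
  | cons c l ih =>
    rw [List.foldr_cons]
    rcases le_total c (l.foldr min a) with h | h
    · rw [min_eq_left h]
      right; exact List.mem_cons_self
    · rw [min_eq_right h]
      rcases ih with ih | ih
      · left; exact ih
      · right; exact List.mem_cons_of_mem _ ih

theorem combB_lam_le_wt (w : Fin 9 → ℕ) {S : List (Fin 9)} (h : S ∈ cuts) : lam w ≤ wt w S :=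
  combB_foldr_le _ _ _ (List.mem_map_of_mem h)

theorem combB_lam_mem (w : Fin 9 → ℕ) : ∃ S ∈ cuts, lam w = wt w S := by
  rcases combB_foldr_mem (cuts.map (wt w)) (w 0 + w 1) with h | h
  · refine ⟨[0, 1], by decide, ?_⟩
    unfold lam
    rw [h]
    simp [wt]
  · obtain ⟨S, hS, h'⟩ := List.mem_map.1 h
    exact ⟨S, hS, h'.symm⟩

theorem combB_low8 (w : Fin 9 → ℕ) : low w 8 = w 8 - 1 := by simp [low]

theorem combB_low (w : Fin 9 → ℕ) (i : Fin 9) (h : i ≠ 8) : low w i = w i := by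
  simp [low, Function.update_of_ne h]

theorem combB_wt_low (w : Fin 9 → ℕ) {S : List (Fin 9)} (h : S ∈ cuts) :
    wt w S ≤ wt (low w) S + 1 := by
  have e0 := combB_low w 0 (by decide)
  have e1 := combB_low w 1 (by decide)
  have e2 := combB_low w 2 (by decide)
  have e3 := combB_low w 3 (by decide)
  have e4 := combB_low w 4 (by decide)
  have e5 := combB_low w 5 (by decide)
  have e6 := combB_low w 6 (by decide)
  have e7 := combB_low w 7 (by decide)
  have e8 := combB_low8 w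
  simp only [cuts, List.mem_cons, List.not_mem_nil, or_false] at h
  rcases h with h | h | h | h | h | h | h | h | h | h | h <;> subst h <;>
    simp only [wt, List.map_cons, List.map_nil, List.sum_cons, List.sum_nil] <;> omega

theorem combB_lam_low (w : Fin 9 → ℕ) : lam w ≤ lam (low w) + 1 := by
  obtain ⟨S, hS, h⟩ := combB_lam_mem (low w)
  rw [h]
  exact (combB_lam_le_wt w hS).trans (combB_wt_low w hS)

/-- The eleven inequalities for the least cut. -/
theorem combB_lam_facts (w : Fin 9 → ℕ) :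
    lam w ≤ w 0 + w 1 ∧ lam w ≤ w 1 + w 4 + w 6 ∧ lam w ≤ w 0 + w 5 + w 7 ∧
    lam w ≤ w 4 + w 5 + w 6 + w 7 ∧ lam w ≤ w 1 + w 2 + w 5 + w 6 + w 8 ∧
    lam w ≤ w 1 + w 3 + w 4 + w 7 + w 8 ∧ lam w ≤ w 0 + w 2 + w 4 + w 7 + w 8 ∧
    lam w ≤ w 0 + w 3 + w 5 + w 6 + w 8 ∧ lam w ≤ w 2 + w 6 + w 7 + w 8 ∧
    lam w ≤ w 3 + w 4 + w 5 + w 8 ∧ lam w ≤ w 2 + w 3 := by
  have f : ∀ S ∈ cuts, lam w ≤ wt w S := fun S h => combB_lam_le_wt w h
  simp only [cuts, List.mem_cons, List.not_mem_nil, or_false, forall_eq_or_imp, forall_eq, wt,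
    List.map_cons, List.map_nil, List.sum_cons, List.sum_nil, add_zero, ← add_assoc] at f
  exact f

/-- The conditions satisfied by the edge cuts separating `u` and `v`. -/
structure CutLike (g : Fin 9 → ZMod 2) : Prop where
  a : g 0 + g 4 + g 2 = 1
  b : g 4 + g 5 + g 0 + g 1 = 0
  c : g 6 + g 7 + g 0 + g 1 = 0
  d : g 4 + g 6 + g 2 + g 3 = 0
  e : g 8 + g 2 + g 3 = 0

/-- The weight of the cut minus `y` for every edge of the 4-cycle. -/
def PP (g : Fin 9 → ZMod 2) (w : Fin 9 → ℕ) (y : ℕ) : ℕ :=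
  (if g 0 ≠ 0 then w 0 else 0) + (if g 1 ≠ 0 then w 1 else 0) + (if g 2 ≠ 0 then w 2 else 0) +
  (if g 3 ≠ 0 then w 3 else 0) + (if g 8 ≠ 0 then w 8 else 0) +
  ((if g 4 ≠ 0 then w 4 - y else 0) + (if g 5 ≠ 0 then w 5 - y else 0) +
  (if g 6 ≠ 0 then w 6 - y else 0) + (if g 7 ≠ 0 then w 7 - y else 0))

/-- The number of the edges of the 4-cycle in the cut. -/
def NN (g : Fin 9 → ZMod 2) : ℕ :=
  (if g 4 ≠ 0 then 1 else 0) + (if g 5 ≠ 0 then 1 else 0) + (if g 6 ≠ 0 then 1 else 0) +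
  (if g 7 ≠ 0 then 1 else 0)

theorem zmod2_cases (a : ZMod 2) : a = 0 ∨ a = 1 := by
  revert a; decide

theorem zmod2_one_ne : (1 : ZMod 2) ≠ 0 := by decide

/-- The possible values of a cut-like function. -/
theorem cut_values {g : Fin 9 → ZMod 2} (h : CutLike g) :
    g 4 = 1 + g 0 + g 2 ∧ g 5 = 1 + g 1 + g 2 ∧ g 6 = 1 + g 0 + g 3 ∧ g 7 = 1 + g 1 + g 3 ∧
      g 8 = g 2 + g 3 := by
  obtain ⟨a, b, c, d, e⟩ := h
  have two : (2 : ZMod 2) = 0 := by decide
  have e4 : g 4 = 1 + g 0 + g 2 := by linear_combination a - (g 0 + g 2) * two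
  have e5 : g 5 = 1 + g 1 + g 2 := by
    rw [e4] at b
    linear_combination b - (1 + g 0 + g 2 + g 1) * two
  have e6 : g 6 = 1 + g 0 + g 3 := by
    rw [e4] at d
    linear_combination d - (1 + g 0 + g 2 + g 3) * two
  have e7 : g 7 = 1 + g 1 + g 3 := by
    rw [e6] at c
    linear_combination c - (1 + g 0 + g 1 + g 3) * two
  have e8 : g 8 = g 2 + g 3 := by linear_combination e - (g 2 + g 3) * two
  exact ⟨e4, e5, e6, e7, e8⟩

theorem combB_lam_le {g : Fin 9 → ZMod 2} (h : CutLike g) (w : Fin 9 → ℕ) (y : ℕ)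
    (h4 : y ≤ w 4) (h5 : y ≤ w 5) (h6 : y ≤ w 6) (h7 : y ≤ w 7) :
    lam w ≤ PP g w y + y * NN g := by
  obtain ⟨e4, e5, e6, e7, e8⟩ := cut_values h
  obtain ⟨f1, f2, f3, f4, f5, f6, f7, f8, f9, f10, f11⟩ := combB_lam_facts w
  unfold PP NN
  rw [e4, e5, e6, e7, e8]
  have z2 : (1 : ZMod 2) + 1 = 0 := by decide
  rcases zmod2_cases (g 0) with h0 | h0 <;> rcases zmod2_cases (g 1) with h1 | h1 <;>
    rcases zmod2_cases (g 2) with h2 | h2 <;> rcases zmod2_cases (g 3) with h3 | h3 <;>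
    rw [h0, h1, h2, h3] <;>
    simp only [z2, add_zero, zero_add, ne_eq, not_true_eq_false, one_ne_zero, not_false_eq_true,
      if_true, if_false, Nat.mul_zero] <;> omega

theorem combB_K1 {q r y P : ℕ} (h : q ≤ r * y) (hr : r ≤ P) : q ≤ y * P :=
  h.trans (by rw [mul_comm]; exact Nat.mul_le_mul_left _ hr)

theorem combB_K2 {q r y b P : ℕ} (h1 : q ≤ r * b) (h2 : q ≤ y * b) (hy : y ≤ b)
    (hP : r + (b - y) ≤ P) : q ≤ y * P := by
  refine le_trans ?_ (Nat.mul_le_mul_left _ hP)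
  obtain ⟨a, rfl⟩ := Nat.exists_eq_add_of_le hy
  rw [Nat.add_sub_cancel_left]
  rcases le_total r y with h | h
  · calc q ≤ r * (y + a) := h1
      _ = y * r + r * a := by ring
      _ ≤ y * r + y * a := by gcongr
      _ = y * (r + a) := by ring
  · calc q ≤ y * (y + a) := h2
      _ ≤ y * (r + a) := by gcongr

theorem combB_K3 {q y b P : ℕ} (h2 : q ≤ y * b) (hP : b ≤ P) : q ≤ y * P :=
  h2.trans (Nat.mul_le_mul_left _ hP)

/-- The pairs of independent edges, as fourteen inequalities. -/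
theorem combB_II_facts (w : Fin 9 → ℕ) (q : ℕ) (hq : ∀ p ∈ II, q ≤ w p.1 * w p.2) :
    q ≤ w 0 * w 2 ∧ q ≤ w 0 * w 3 ∧ q ≤ w 1 * w 2 ∧ q ≤ w 1 * w 3 ∧ q ≤ w 3 * w 4 ∧
    q ≤ w 3 * w 5 ∧ q ≤ w 2 * w 6 ∧ q ≤ w 2 * w 7 ∧ q ≤ w 1 * w 4 ∧ q ≤ w 1 * w 6 ∧
    q ≤ w 0 * w 5 ∧ q ≤ w 0 * w 7 ∧ q ≤ w 4 * w 7 ∧ q ≤ w 5 * w 6 := by
  simp only [II, List.mem_cons, List.not_mem_nil, or_false, forall_eq_or_imp, forall_eq] at hq
  exact hq

/-- Lemma T. -/
theorem combB_T {g : Fin 9 → ZMod 2} (h : CutLike g) (w : Fin 9 → ℕ) (y : ℕ)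
    (h4 : y ≤ w 4) (h5 : y ≤ w 5) (h6 : y ≤ w 6) (h7 : y ≤ w 7)
    (hy : y = w 4 ∨ y = w 5 ∨ y = w 6 ∨ y = w 7) (q : ℕ) (hq : ∀ p ∈ II, q ≤ w p.1 * w p.2) :
    q ≤ y * PP g w y ∨ (NN g = 4 ∧ q ≤ y * (PP g w y + y)) := by
  obtain ⟨e4, e5, e6, e7, e8⟩ := cut_values h
  obtain ⟨q02, q03, q12, q13, q34, q35, q26, q27, q14, q16, q05, q07, q47, q56⟩ :=
    combB_II_facts w q hq
  have q74 : q ≤ w 7 * w 4 := by rw [mul_comm]; exact q47
  have q65 : q ≤ w 6 * w 5 := by rw [mul_comm]; exact q56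
  unfold PP NN
  rw [e4, e5, e6, e7, e8]
  have z2 : (1 : ZMod 2) + 1 = 0 := by decide
  generalize w 0 = w0 at *
  generalize w 1 = w1 at *
  generalize w 2 = w2 at *
  generalize w 3 = w3 at *
  generalize w 4 = w4 at *
  generalize w 5 = w5 at *
  generalize w 6 = w6 at *
  generalize w 7 = w7 at *
  generalize w 8 = w8 at *
  clear hq
  rcases zmod2_cases (g 0) with h0 | h0 <;> rcases zmod2_cases (g 1) with h1 | h1 <;>
    rcases zmod2_cases (g 2) with h2 | h2 <;> rcases zmod2_cases (g 3) with h3 | h3 <;>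
    rw [h0, h1, h2, h3] <;>
    simp only [z2, add_zero, zero_add, ne_eq, not_true_eq_false, one_ne_zero, not_false_eq_true,
      if_true, if_false] <;>
    rcases hy with hy | hy | hy | hy <;> subst hy <;>
    first
      | (left; exact combB_K1 q34 (by omega))
      | (left; exact combB_K1 q14 (by omega))
      | (left; exact combB_K1 q35 (by omega))
      | (left; exact combB_K1 q05 (by omega))
      | (left; exact combB_K1 q26 (by omega))
      | (left; exact combB_K1 q16 (by omega))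
      | (left; exact combB_K1 q27 (by omega))
      | (left; exact combB_K1 q07 (by omega))
      | (left; exact combB_K2 q07 q47 h7 (by omega))
      | (left; exact combB_K2 q27 q47 h7 (by omega))
      | (left; exact combB_K2 q16 q56 h6 (by omega))
      | (left; exact combB_K2 q26 q56 h6 (by omega))
      | (left; exact combB_K2 q05 q65 h5 (by omega))
      | (left; exact combB_K2 q35 q65 h5 (by omega))
      | (left; exact combB_K2 q14 q74 h4 (by omega))
      | (left; exact combB_K2 q34 q74 h4 (by omega))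
      | (right; refine ⟨trivial, combB_K3 q47 ?_⟩; omega)
      | (right; refine ⟨trivial, combB_K3 q74 ?_⟩; omega)
      | (right; refine ⟨trivial, combB_K3 q56 ?_⟩; omega)
      | (right; refine ⟨trivial, combB_K3 q65 ?_⟩; omega)

/-- Lemma P. -/
theorem combB_P (w : Fin 9 → ℕ) (y : ℕ) (hw : ∀ i, i ≠ 8 → 1 ≤ w i)
    (hy : y = w 4 ∨ y = w 5 ∨ y = w 6 ∨ y = w 7) (q : ℕ) (hq : ∀ p ∈ II, q ≤ w p.1 * w p.2) :
    q + y ≤ y * lam w := by
  obtain ⟨q02, q03, q12, q13, q34, q35, q26, q27, q14, q16, q05, q07, q47, q56⟩ :=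
    combB_II_facts w q hq
  have q74 : q ≤ w 7 * w 4 := by rw [mul_comm]; exact q47
  have q65 : q ≤ w 6 * w 5 := by rw [mul_comm]; exact q56
  have w0 := hw 0 (by decide)
  have w1 := hw 1 (by decide)
  have w2 := hw 2 (by decide)
  have w3 := hw 3 (by decide)
  have w4 := hw 4 (by decide)
  have w5 := hw 5 (by decide)
  have w6 := hw 6 (by decide)
  have w7 := hw 7 (by decide)
  have K : ∀ r b P : ℕ, q ≤ r * b → y = b → r + 1 ≤ P → q + y ≤ y * P := by
    intro r b P h1 h2 h3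
    calc q + y ≤ r * y + y := by rw [h2]; exact Nat.add_le_add_right h1 _
      _ = y * (r + 1) := by ring
      _ ≤ y * P := Nat.mul_le_mul_left _ h3
  have K' : ∀ r b P : ℕ, q ≤ b * r → y = b → r + 1 ≤ P → q + y ≤ y * P := by
    intro r b P h1 h2 h3
    exact K r b P (by rw [mul_comm]; exact h1) h2 h3
  obtain ⟨S, hS, h⟩ := combB_lam_mem w
  rw [h]
  simp only [cuts, List.mem_cons, List.not_mem_nil, or_false] at hS
  rcases hS with h | h | h | h | h | h | h | h | h | h | h <;> subst h <;>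
    simp only [wt, List.map_cons, List.map_nil, List.sum_cons, List.sum_nil] <;>
    rcases hy with hy | hy | hy | hy <;>
    first
      | exact K _ _ _ q34 hy (by omega)
      | exact K _ _ _ q14 hy (by omega)
      | exact K _ _ _ q35 hy (by omega)
      | exact K _ _ _ q05 hy (by omega)
      | exact K _ _ _ q26 hy (by omega)
      | exact K _ _ _ q16 hy (by omega)
      | exact K _ _ _ q27 hy (by omega)
      | exact K _ _ _ q07 hy (by omega)
      | exact K' _ _ _ q47 hy (by omega)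
      | exact K' _ _ _ q74 hy (by omega)
      | exact K' _ _ _ q56 hy (by omega)
      | exact K' _ _ _ q65 hy (by omega)

/-! ### The weighted number of odd pairs in a matrix -/

/-- The number of the odd entries in the block `CC × CC`. -/
def GG (X : Fin 9 → Fin 9 → ZMod 2) : ℕ :=
  (CC.map fun c => (CC.map fun d => if X c d ≠ 0 then 1 else 0).sum).sum

theorem combB_sum9 (F : Fin 9 → ℕ) : ∑ i, F i =
    (F 0 + F 1 + F 2 + F 3 + F 8) + (F 4 + F 5 + F 6 + F 7) := by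
  simp only [Fin.sum_univ_succ, Fin.sum_univ_zero]
  have h1 : (Fin.succ 0 : Fin 9) = 1 := rfl
  simp
  ring

/-- A column with odd sum costs at least its weight times the least row weight. -/
theorem combB_col (b0 b1 b2 b3 : ZMod 2) (l0 l1 l2 l3 x r : ℕ) (h0 : x ≤ l0) (h1 : x ≤ l1)
    (h2 : x ≤ l2) (h3 : x ≤ l3) :
    x * (if b0 + b1 + b2 + b3 ≠ 0 then r else 0) ≤
      (if b0 ≠ 0 then l0 * r else 0) + (if b1 ≠ 0 then l1 * r else 0) +
      (if b2 ≠ 0 then l2 * r else 0) + (if b3 ≠ 0 then l3 * r else 0) := by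
  have k0 : x * r ≤ l0 * r := Nat.mul_le_mul_right _ h0
  have k1 : x * r ≤ l1 * r := Nat.mul_le_mul_right _ h1
  have k2 : x * r ≤ l2 * r := Nat.mul_le_mul_right _ h2
  have k3 : x * r ≤ l3 * r := Nat.mul_le_mul_right _ h3
  by_cases hs : b0 + b1 + b2 + b3 ≠ 0
  · rw [if_pos hs]
    by_cases e0 : b0 ≠ 0
    · rw [if_pos e0]; omega
    by_cases e1 : b1 ≠ 0
    · rw [if_pos e1]; omega
    by_cases e2 : b2 ≠ 0
    · rw [if_pos e2]; omega
    by_cases e3 : b3 ≠ 0
    · rw [if_pos e3]; omega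
    · push Not at e0 e1 e2 e3
      rw [e0, e1, e2, e3] at hs
      exact absurd (by decide) hs
  · rw [if_neg hs]; omega

/-- The number of odd entries of a column is at least one if its sum is odd. -/
theorem combB_cnt (b0 b1 b2 b3 : ZMod 2) :
    (if b0 + b1 + b2 + b3 ≠ 0 then 1 else 0) ≤
      (if b0 ≠ 0 then 1 else 0) + (if b1 ≠ 0 then 1 else 0) +
      (if b2 ≠ 0 then 1 else 0) + (if b3 ≠ 0 then 1 else 0) := by
  have := combB_col b0 b1 b2 b3 1 1 1 1 1 1 le_rfl le_rfl le_rfl le_rfl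
  simpa using this

/-- One entry of the block. -/
theorem combB_entry (b : ZMod 2) (l r x y : ℕ) (hx : x ≤ l) (hy : y ≤ r) :
    x * y * (if b ≠ 0 then 1 else 0) + x * (if b ≠ 0 then r - y else 0) +
      y * (if b ≠ 0 then l - x else 0) ≤ if b ≠ 0 then l * r else 0 := by
  by_cases h : b ≠ 0
  · rw [if_pos h, if_pos h, if_pos h, if_pos h]
    obtain ⟨a, rfl⟩ := Nat.exists_eq_add_of_le hx
    obtain ⟨c, rfl⟩ := Nat.exists_eq_add_of_le hy
    rw [Nat.add_sub_cancel_left, Nat.add_sub_cancel_left]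
    nlinarith [Nat.zero_le (a * c)]
  · rw [if_neg h, if_neg h, if_neg h, if_neg h]
    simp

/-- A column of the block, without the multiples of the column weight. -/
theorem combB_col' (b0 b1 b2 b3 : ZMod 2) (r : ℕ) :
    (if b0 + b1 + b2 + b3 ≠ 0 then r else 0) ≤
      (if b0 ≠ 0 then r else 0) + (if b1 ≠ 0 then r else 0) +
      (if b2 ≠ 0 then r else 0) + (if b3 ≠ 0 then r else 0) := by
  have := combB_col b0 b1 b2 b3 1 1 1 1 1 r le_rfl le_rfl le_rfl le_rfl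
  simpa only [one_mul] using this

/-- The column sums over the 4-cycle. -/
def cR (X : Fin 9 → Fin 9 → ZMod 2) (f : Fin 9) : ZMod 2 := X 4 f + X 5 f + X 6 f + X 7 f

/-- The row sums over the 4-cycle. -/
def cL (X : Fin 9 → Fin 9 → ZMod 2) (e : Fin 9) : ZMod 2 := X e 4 + X e 5 + X e 6 + X e 7

theorem combB_block (X : Fin 9 → Fin 9 → ZMod 2) (l r : Fin 9 → ℕ) (x y : ℕ)
    (h4 : x ≤ l 4) (h5 : x ≤ l 5) (h6 : x ≤ l 6) (h7 : x ≤ l 7)
    (k4 : y ≤ r 4) (k5 : y ≤ r 5) (k6 : y ≤ r 6) (k7 : y ≤ r 7) :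
    x * PP (cR X) r y + y * PP (cL X) l x + x * y * GG X ≤
      ∑ e, ∑ f, if X e f ≠ 0 then l e * r f else 0 := by
  have hcol : ∀ f, x * (if cR X f ≠ 0 then r f else 0) ≤
      (if X 4 f ≠ 0 then l 4 * r f else 0) + (if X 5 f ≠ 0 then l 5 * r f else 0) +
      (if X 6 f ≠ 0 then l 6 * r f else 0) + (if X 7 f ≠ 0 then l 7 * r f else 0) :=
    fun f => combB_col _ _ _ _ _ _ _ _ x _ h4 h5 h6 h7
  have hrow : ∀ e, y * (if cL X e ≠ 0 then l e else 0) ≤
      (if X e 4 ≠ 0 then l e * r 4 else 0) + (if X e 5 ≠ 0 then l e * r 5 else 0) +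
      (if X e 6 ≠ 0 then l e * r 6 else 0) + (if X e 7 ≠ 0 then l e * r 7 else 0) := by
    intro e
    have := combB_col (X e 4) (X e 5) (X e 6) (X e 7) _ _ _ _ y (l e) k4 k5 k6 k7
    simp only [mul_comm _ (l e)] at this
    exact this
  have hent : ∀ c d, x ≤ l c → y ≤ r d →
      x * y * (if X c d ≠ 0 then 1 else 0) + x * (if X c d ≠ 0 then r d - y else 0) +
      y * (if X c d ≠ 0 then l c - x else 0) ≤ if X c d ≠ 0 then l c * r d else 0 :=
    fun c d hc hd => combB_entry _ _ _ _ _ hc hd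
  have hC : ∀ d, x * (if cR X d ≠ 0 then r d - y else 0) ≤
      x * (if X 4 d ≠ 0 then r d - y else 0) + x * (if X 5 d ≠ 0 then r d - y else 0) +
      x * (if X 6 d ≠ 0 then r d - y else 0) + x * (if X 7 d ≠ 0 then r d - y else 0) := by
    intro d
    rw [← mul_add, ← mul_add, ← mul_add]
    exact Nat.mul_le_mul_left _ (combB_col' _ _ _ _ _)
  have hR : ∀ c, y * (if cL X c ≠ 0 then l c - x else 0) ≤
      y * (if X c 4 ≠ 0 then l c - x else 0) + y * (if X c 5 ≠ 0 then l c - x else 0) +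
      y * (if X c 6 ≠ 0 then l c - x else 0) + y * (if X c 7 ≠ 0 then l c - x else 0) := by
    intro d
    rw [← mul_add, ← mul_add, ← mul_add]
    exact Nat.mul_le_mul_left _ (combB_col' _ _ _ _ _)
  have e44 := hent 4 4 h4 k4
  have e45 := hent 4 5 h4 k5
  have e46 := hent 4 6 h4 k6
  have e47 := hent 4 7 h4 k7
  have e54 := hent 5 4 h5 k4
  have e55 := hent 5 5 h5 k5
  have e56 := hent 5 6 h5 k6
  have e57 := hent 5 7 h5 k7
  have e64 := hent 6 4 h6 k4
  have e65 := hent 6 5 h6 k5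
  have e66 := hent 6 6 h6 k6
  have e67 := hent 6 7 h6 k7
  have e74 := hent 7 4 h7 k4
  have e75 := hent 7 5 h7 k5
  have e76 := hent 7 6 h7 k6
  have e77 := hent 7 7 h7 k7
  have c4 := hC 4
  have c5 := hC 5
  have c6 := hC 6
  have c7 := hC 7
  have r4 := hR 4
  have r5 := hR 5
  have r6 := hR 6
  have r7 := hR 7
  have hblock : x * ((if cR X 4 ≠ 0 then r 4 - y else 0) + (if cR X 5 ≠ 0 then r 5 - y else 0) +
      (if cR X 6 ≠ 0 then r 6 - y else 0) + (if cR X 7 ≠ 0 then r 7 - y else 0)) +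
      y * ((if cL X 4 ≠ 0 then l 4 - x else 0) + (if cL X 5 ≠ 0 then l 5 - x else 0) +
      (if cL X 6 ≠ 0 then l 6 - x else 0) + (if cL X 7 ≠ 0 then l 7 - x else 0)) +
      x * y * GG X ≤
      (((if X 4 4 ≠ 0 then l 4 * r 4 else 0) + (if X 4 5 ≠ 0 then l 4 * r 5 else 0) +
      (if X 4 6 ≠ 0 then l 4 * r 6 else 0) + (if X 4 7 ≠ 0 then l 4 * r 7 else 0)) +
      ((if X 5 4 ≠ 0 then l 5 * r 4 else 0) + (if X 5 5 ≠ 0 then l 5 * r 5 else 0) +
      (if X 5 6 ≠ 0 then l 5 * r 6 else 0) + (if X 5 7 ≠ 0 then l 5 * r 7 else 0)) +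
      ((if X 6 4 ≠ 0 then l 6 * r 4 else 0) + (if X 6 5 ≠ 0 then l 6 * r 5 else 0) +
      (if X 6 6 ≠ 0 then l 6 * r 6 else 0) + (if X 6 7 ≠ 0 then l 6 * r 7 else 0)) +
      ((if X 7 4 ≠ 0 then l 7 * r 4 else 0) + (if X 7 5 ≠ 0 then l 7 * r 5 else 0) +
      (if X 7 6 ≠ 0 then l 7 * r 6 else 0) + (if X 7 7 ≠ 0 then l 7 * r 7 else 0))) := by
    simp only [GG, CC, List.map_cons, List.map_nil, List.sum_cons, List.sum_nil, mul_add,
      mul_zero]
    linarith
  rw [combB_sum9]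
  simp only [combB_sum9]
  unfold PP
  have f0 := hcol 0
  have f1 := hcol 1
  have f2 := hcol 2
  have f3 := hcol 3
  have f8 := hcol 8
  have g0 := hrow 0
  have g1 := hrow 1
  have g2 := hrow 2
  have g3 := hrow 3
  have g8 := hrow 8
  clear e44 e45 e46 e47 e54 e55 e56 e57 e64 e65 e66 e67 e74 e75 e76 e77 c4 c5 c6 c7 r4 r5 r6 r7
    hent hC hR hcol hrow
  have z : ∀ e f, 0 ≤ (if X e f ≠ 0 then l e * r f else 0) := fun _ _ => Nat.zero_le _
  have z0 := z 0
  have z1 := z 1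
  have z2 := z 2
  have z3 := z 3
  have z8 := z 8
  rw [mul_add x (_ + _ + _ + _ + _), mul_add y (_ + _ + _ + _ + _)]
  have A : x * ((if cR X 0 ≠ 0 then r 0 else 0) + (if cR X 1 ≠ 0 then r 1 else 0) +
      (if cR X 2 ≠ 0 then r 2 else 0) + (if cR X 3 ≠ 0 then r 3 else 0) +
      (if cR X 8 ≠ 0 then r 8 else 0)) = x * (if cR X 0 ≠ 0 then r 0 else 0) +
      x * (if cR X 1 ≠ 0 then r 1 else 0) + x * (if cR X 2 ≠ 0 then r 2 else 0) +
      x * (if cR X 3 ≠ 0 then r 3 else 0) + x * (if cR X 8 ≠ 0 then r 8 else 0) := by ring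
  have B : y * ((if cL X 0 ≠ 0 then l 0 else 0) + (if cL X 1 ≠ 0 then l 1 else 0) +
      (if cL X 2 ≠ 0 then l 2 else 0) + (if cL X 3 ≠ 0 then l 3 else 0) +
      (if cL X 8 ≠ 0 then l 8 else 0)) = y * (if cL X 0 ≠ 0 then l 0 else 0) +
      y * (if cL X 1 ≠ 0 then l 1 else 0) + y * (if cL X 2 ≠ 0 then l 2 else 0) +
      y * (if cL X 3 ≠ 0 then l 3 else 0) + y * (if cL X 8 ≠ 0 then l 8 else 0) := by ring
  rw [A, B]
  have zz : ∀ e, 0 ≤ ((if X e 0 ≠ 0 then l e * r 0 else 0) + (if X e 1 ≠ 0 then l e * r 1 else 0) +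
      (if X e 2 ≠ 0 then l e * r 2 else 0) + (if X e 3 ≠ 0 then l e * r 3 else 0) +
      (if X e 8 ≠ 0 then l e * r 8 else 0)) := fun _ => Nat.zero_le _
  have y0 := zz 0
  have y1 := zz 1
  have y2 := zz 2
  have y3 := zz 3
  have y8 := zz 8
  linarith

/-- The final arithmetic. -/
theorem combB_alg (x y p q PR PL α β n lR lL B : ℕ) (hx : 1 ≤ x)
    (hα : α ≤ n) (hβ : β ≤ n) (hα4 : α ≤ 4) (hβ4 : β ≤ 4)
    (hlR : lR ≤ PR + y * β) (hlL : lL ≤ PL + x * α + 1) (hRL : lR ≤ lL) (hP : q + y ≤ y * lR)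
    (hTR : q ≤ y * PR ∨ (β = 4 ∧ q ≤ y * (PR + y)))
    (hTL : p ≤ x * PL ∨ (α = 4 ∧ p ≤ x * (PL + x)))
    (hnp : ¬ (α = 4 ∧ β = 4 ∧ n = 4)) (hB1 : B ≤ p + q) (hB2 : B ≤ x * lR + q) :
    B ≤ x * PR + y * PL + x * y * n := by
  obtain ⟨s, hs⟩ := Nat.exists_eq_add_of_le hα
  obtain ⟨t, ht⟩ := Nat.exists_eq_add_of_le hβ
  have c1 : x * q ≤ y * (x * PR + x * y * s) := by
    rcases hTR with h | ⟨h4, h⟩
    · calc x * q ≤ x * (y * PR) := Nat.mul_le_mul_left _ h
        _ = y * (x * PR) := by ring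
        _ ≤ y * (x * PR + x * y * s) := Nat.mul_le_mul_left _ (Nat.le_add_right _ _)
    · have hs1 : 1 ≤ s := by
        by_contra hc
        apply hnp
        omega
      calc x * q ≤ x * (y * (PR + y)) := Nat.mul_le_mul_left _ h
        _ = y * (x * PR + x * y * 1) := by ring
        _ ≤ y * (x * PR + x * y * s) := by gcongr
  have c2 : y * p ≤ x * (y * PL + x * y * t) := by
    rcases hTL with h | ⟨h4, h⟩
    · calc y * p ≤ y * (x * PL) := Nat.mul_le_mul_left _ h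
        _ = x * (y * PL) := by ring
        _ ≤ x * (y * PL + x * y * t) := Nat.mul_le_mul_left _ (Nat.le_add_right _ _)
    · have ht1 : 1 ≤ t := by
        by_contra hc
        apply hnp
        omega
      calc y * p ≤ y * (x * (PL + x)) := Nat.mul_le_mul_left _ h
        _ = x * (y * PL + x * y * 1) := by ring
        _ ≤ x * (y * PL + x * y * t) := by gcongr
  rcases le_or_gt q (y * PL + x * y * t) with h | h
  · calc B ≤ x * lR + q := hB2
      _ ≤ x * (PR + y * β) + (y * PL + x * y * t) := by gcongr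
      _ = x * PR + y * PL + x * y * (β + t) := by ring
      _ = x * PR + y * PL + x * y * n := by rw [ht]
  · have h1 : y * p < y * (x * PR + x * y * s) :=
      lt_of_le_of_lt c2 (lt_of_lt_of_le (Nat.mul_lt_mul_of_pos_left h hx) c1)
    have h2 : p < x * PR + x * y * s := Nat.lt_of_mul_lt_mul_left h1
    have h3 : q + y ≤ y * (PL + x * α + 1) := hP.trans (Nat.mul_le_mul_left _ (hRL.trans hlL))
    have h4 : y * (PL + x * α + 1) = (y * PL + x * y * α) + y := by ring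
    have h5 : q ≤ y * PL + x * y * α := by omega
    calc B ≤ p + q := hB1
      _ ≤ (x * PR + x * y * s) + (y * PL + x * y * α) := add_le_add h2.le h5
      _ = x * PR + y * PL + x * y * (α + s) := by ring
      _ = x * PR + y * PL + x * y * n := by rw [hs]

theorem combB_min4 (w : Fin 9 → ℕ) : ∃ x, x ≤ w 4 ∧ x ≤ w 5 ∧ x ≤ w 6 ∧ x ≤ w 7 ∧
    (x = w 4 ∨ x = w 5 ∨ x = w 6 ∨ x = w 7) := by
  refine ⟨min (min (w 4) (w 5)) (min (w 6) (w 7)), ?_, ?_, ?_, ?_, ?_⟩ <;> omega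

theorem combB_minII (w : Fin 9 → ℕ) : ∃ p ∈ II, ∀ p' ∈ II, w p.1 * w p.2 ≤ w p'.1 * w p'.2 := by
  obtain ⟨p, hp, h⟩ := Finset.exists_min_image II.toFinset (fun p => w p.1 * w p.2)
    ⟨(0, 2), by decide⟩
  exact ⟨p, List.mem_toFinset.1 hp, fun p' hp' => h p' (List.mem_toFinset.2 hp')⟩

theorem combB_II_ne (p : Fin 9 × Fin 9) (hp : p ∈ II) : p.1 ≠ 8 ∧ p.2 ≠ 8 := by
  revert p
  decide

theorem combB_mem_CC {x : ℕ} {w : Fin 9 → ℕ} (h : x = w 4 ∨ x = w 5 ∨ x = w 6 ∨ x = w 7) :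
    ∃ c ∈ CC, x = w c := by
  rcases h with h | h | h | h
  · exact ⟨4, by decide, h⟩
  · exact ⟨5, by decide, h⟩
  · exact ⟨6, by decide, h⟩
  · exact ⟨7, by decide, h⟩

section

variable {XL XR XM : Fin 9 → Fin 9 → ZMod 2} {AL AR : Fin 9 → Fin 2 → ZMod 2}

theorem combB_gR (hF : Facts XL XR XM AL AR) (hL : ∀ p ∈ II, XL p.1 p.2 = 0)
    (hAL : ∀ g, (CC.map fun c => AL c g).sum = 0) : CutLike (cR XM) := by
  have two : (2 : ZMod 2) = 0 := by decide
  have f := hF.fL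
  have hl : (II.map fun p => XL p.1 p.2).sum = 0 := by
    apply List.sum_eq_zero
    intro a ha
    obtain ⟨p, hp, rfl⟩ := List.mem_map.1 ha
    exact hL p hp
  rw [hl, zero_add] at f
  have a0 := hAL 0
  have a1 := hAL 1
  have c := hF.cyc
  have z := hF.czR
  simp only [CC, Q0, cyc4, tri, List.map_cons, List.map_nil, List.sum_cons, List.sum_nil,
    List.mem_cons, List.not_mem_nil, or_false, forall_eq_or_imp, forall_eq, add_zero] at f a0 a1 c z
  obtain ⟨⟨c11, c12, c13, c14⟩, ⟨c21, c22, c23, c24⟩, -⟩ := c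
  refine ⟨?_, ?_, ?_, ?_, ?_⟩ <;> unfold cR
  · linear_combination f - a0 - a1
  · linear_combination c11 + c21 - (XM 0 4 + XM 0 5 + XM 0 0 + XM 0 1 + XM 1 4 + XM 1 5 + XM 1 0 +
      XM 1 1) * two
  · linear_combination c12 + c22 - (XM 0 6 + XM 0 7 + XM 0 0 + XM 0 1 + XM 1 6 + XM 1 7 + XM 1 0 +
      XM 1 1) * two
  · linear_combination c13 + c23 - (XM 0 4 + XM 0 6 + XM 0 2 + XM 0 3 + XM 1 4 + XM 1 6 + XM 1 2 +
      XM 1 3) * two
  · linear_combination z

theorem combB_gL (hF : Facts XL XR XM AL AR) (hR : ∀ p ∈ II, XR p.1 p.2 = 0)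
    (hAR : ∀ g, (CC.map fun d => AR d g).sum = 0) : CutLike (cL XM) := by
  have two : (2 : ZMod 2) = 0 := by decide
  have f := hF.fR
  have hl : (II.map fun p => XR p.1 p.2).sum = 0 := by
    apply List.sum_eq_zero
    intro a ha
    obtain ⟨p, hp, rfl⟩ := List.mem_map.1 ha
    exact hR p hp
  rw [hl, zero_add] at f
  have a0 := hAR 0
  have a1 := hAR 1
  have c := hF.cyc
  have z := hF.czL
  simp only [CC, Q0, cyc4, tri, List.map_cons, List.map_nil, List.sum_cons, List.sum_nil,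
    List.mem_cons, List.not_mem_nil, or_false, forall_eq_or_imp, forall_eq, add_zero] at f a0 a1 c z
  obtain ⟨⟨c11, c12, c13, c14⟩, ⟨c21, c22, c23, c24⟩, ⟨c31, c32, c33, c34⟩,
    ⟨c41, c42, c43, c44⟩⟩ := c
  refine ⟨?_, ?_, ?_, ?_, ?_⟩ <;> unfold cL
  · linear_combination f - a0 - a1
  · linear_combination c11 + c12 - (XM 4 0 + XM 5 0 + XM 0 0 + XM 1 0 + XM 4 1 + XM 5 1 + XM 0 1 +
      XM 1 1) * two
  · linear_combination c21 + c22 - (XM 6 0 + XM 7 0 + XM 0 0 + XM 1 0 + XM 6 1 + XM 7 1 + XM 0 1 +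
      XM 1 1) * two
  · linear_combination c31 + c32 - (XM 4 0 + XM 6 0 + XM 2 0 + XM 3 0 + XM 4 1 + XM 6 1 + XM 2 1 +
      XM 3 1) * two
  · linear_combination z

theorem combB_pm (X : Fin 9 → Fin 9 → ZMod 2) (h1 : NN (cL X) = 4) (h2 : NN (cR X) = 4)
    (h3 : GG X = 4) :
    (∀ c ∈ CC, (CC.map fun d => if X c d ≠ 0 then 1 else 0).sum = 1) ∧
      (∀ d ∈ CC, (CC.map fun c => if X c d ≠ 0 then 1 else 0).sum = 1) := by
  have r : ∀ c, (if cL X c ≠ 0 then 1 else 0) ≤ (if X c 4 ≠ 0 then 1 else 0) +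
      (if X c 5 ≠ 0 then 1 else 0) + (if X c 6 ≠ 0 then 1 else 0) +
      (if X c 7 ≠ 0 then 1 else 0) := fun c => combB_cnt _ _ _ _
  have k : ∀ d, (if cR X d ≠ 0 then 1 else 0) ≤ (if X 4 d ≠ 0 then 1 else 0) +
      (if X 5 d ≠ 0 then 1 else 0) + (if X 6 d ≠ 0 then 1 else 0) +
      (if X 7 d ≠ 0 then 1 else 0) := fun c => combB_cnt _ _ _ _
  have r4 := r 4
  have r5 := r 5
  have r6 := r 6
  have r7 := r 7
  have k4 := k 4
  have k5 := k 5
  have k6 := k 6
  have k7 := k 7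
  clear r k
  have q : ∀ a : ZMod 2, (if a ≠ 0 then 1 else 0) ≤ 1 := fun a => by split_ifs <;> simp
  have s4 := q (cL X 4)
  have s5 := q (cL X 5)
  have s6 := q (cL X 6)
  have s7 := q (cL X 7)
  have t4 := q (cR X 4)
  have t5 := q (cR X 5)
  have t6 := q (cR X 6)
  have t7 := q (cR X 7)
  clear q
  unfold NN at h1 h2
  simp only [GG, CC, List.map_cons, List.map_nil, List.sum_cons, List.sum_nil, List.mem_cons,
    List.not_mem_nil, or_false, forall_eq_or_imp, forall_eq, add_zero] at h3 ⊢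
  generalize (if cL X 4 ≠ 0 then 1 else 0) = a4 at *
  generalize (if cL X 5 ≠ 0 then 1 else 0) = a5 at *
  generalize (if cL X 6 ≠ 0 then 1 else 0) = a6 at *
  generalize (if cL X 7 ≠ 0 then 1 else 0) = a7 at *
  generalize (if cR X 4 ≠ 0 then 1 else 0) = b4 at *
  generalize (if cR X 5 ≠ 0 then 1 else 0) = b5 at *
  generalize (if cR X 6 ≠ 0 then 1 else 0) = b6 at *
  generalize (if cR X 7 ≠ 0 then 1 else 0) = b7 at *
  refine ⟨⟨?_, ?_, ?_, ?_⟩, ?_, ?_, ?_, ?_⟩ <;> linarith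

end

theorem combB_NN4 (g : Fin 9 → ZMod 2) : NN g ≤ 4 := by
  have q : ∀ a : ZMod 2, (if a ≠ 0 then 1 else 0) ≤ 1 := fun a => by split_ifs <;> simp
  have s4 := q (g 4)
  have s5 := q (g 5)
  have s6 := q (g 6)
  have s7 := q (g 7)
  unfold NN
  linarith

theorem combB_NN_le (X : Fin 9 → Fin 9 → ZMod 2) : NN (cL X) ≤ GG X ∧ NN (cR X) ≤ GG X := by
  have r : ∀ c, (if cL X c ≠ 0 then 1 else 0) ≤ (if X c 4 ≠ 0 then 1 else 0) +
      (if X c 5 ≠ 0 then 1 else 0) + (if X c 6 ≠ 0 then 1 else 0) +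
      (if X c 7 ≠ 0 then 1 else 0) := fun c => combB_cnt _ _ _ _
  have k : ∀ d, (if cR X d ≠ 0 then 1 else 0) ≤ (if X 4 d ≠ 0 then 1 else 0) +
      (if X 5 d ≠ 0 then 1 else 0) + (if X 6 d ≠ 0 then 1 else 0) +
      (if X 7 d ≠ 0 then 1 else 0) := fun c => combB_cnt _ _ _ _
  have r4 := r 4
  have r5 := r 5
  have r6 := r 6
  have r7 := r 7
  have k4 := k 4
  have k5 := k 5
  have k6 := k 6
  have k7 := k 7
  clear r k
  unfold NN
  simp only [GG, CC, List.map_cons, List.map_nil, List.sum_cons, List.sum_nil, add_zero]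
  exact ⟨by linarith, by linarith⟩

end CB

end Pool.Agent.KUR
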