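import Pool.Agent.KUR.Comb0

set_option autoImplicit false

open Finset

namespace Pool.Agent.KUR.PM

theorem foldr_min_le (l : List ℕ) (a x : ℕ) (hx : x ∈ l) : l.foldr min a ≤ x := by
  induction l with
  | nil => simp at hx
  | cons y l ih =>
    rcases List.mem_cons.1 hx with rfl | h
    · exact min_le_left _ _
    · exact (min_le_right _ _).trans (ih h)

theorem foldr_min_mem (l : List ℕ) (a : ℕ) : l.foldr min a = a ∨ l.foldr min a ∈ l := by
  induction l with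
  | nil => left; rfl
  | cons y l ih =>
    have e : (y :: l).foldr min a = min y (l.foldr min a) := rfl
    rw [e]
    rcases min_choice y (l.foldr min a) with h | h
    · rw [h]; right; exact List.mem_cons_self
    · rw [h]
      rcases ih with h' | h'
      · left; exact h'
      · right; exact List.mem_cons_of_mem _ h'

theorem lam_le (w : Fin 9 → ℕ) (S : List (Fin 9)) (hS : S ∈ cuts) : lam w ≤ wt w S :=
  foldr_min_le _ _ _ (List.mem_map.2 ⟨S, hS, rfl⟩)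

theorem exists_lam (w : Fin 9 → ℕ) : ∃ S ∈ cuts, lam w = wt w S := by
  rcases foldr_min_mem (cuts.map (wt w)) (w 0 + w 1) with h | h
  · exact ⟨[0, 1], by decide, by unfold lam; rw [h]; simp [wt]⟩
  · obtain ⟨S, hS, h'⟩ := List.mem_map.1 h
    exact ⟨S, hS, h'.symm⟩

theorem le_wt (w : Fin 9 → ℕ) (S : List (Fin 9)) (i : Fin 9) (hi : i ∈ S) : w i ≤ wt w S := by
  unfold wt
  exact List.single_le_sum (fun _ _ => Nat.zero_le _) _ (List.mem_map.2 ⟨i, hi, rfl⟩)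

/-- The weak form of lemma P. -/
theorem lemP (w : Fin 9 → ℕ) (d : Fin 9) (hd : d ∈ CC) :
    ∃ q ∈ II, w q.1 * w q.2 ≤ w d * lam w := by
  obtain ⟨S, hS, h⟩ := exists_lam w
  have key : ∀ S ∈ cuts, ∀ d ∈ CC, ∃ f ∈ S, (f, d) ∈ II ∨ (d, f) ∈ II := by decide
  obtain ⟨f, hf, h2⟩ := key S hS d hd
  rw [h]
  rcases h2 with h2 | h2
  · refine ⟨_, h2, ?_⟩
    show w f * w d ≤ _
    rw [mul_comm]
    exact Nat.mul_le_mul_left _ (le_wt w S f hf)
  · exact ⟨_, h2, Nat.mul_le_mul_left _ (le_wt w S f hf)⟩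

theorem exists_min_II (w : Fin 9 → ℕ) :
    ∃ p ∈ II, ∀ q ∈ II, w p.1 * w p.2 ≤ w q.1 * w q.2 := by
  obtain ⟨p, hp, h⟩ := Finset.exists_min_image II.toFinset (fun p => w p.1 * w p.2)
    ⟨(0, 2), by decide⟩
  exact ⟨p, List.mem_toFinset.1 hp, fun q hq => h q (List.mem_toFinset.2 hq)⟩

theorem exists_min_CC (w : Fin 9 → ℕ) :
    ∃ c ∈ CC, ∀ d ∈ CC, w c ≤ w d := by
  obtain ⟨p, hp, h⟩ := Finset.exists_min_image CC.toFinset w ⟨4, by decide⟩
  exact ⟨p, List.mem_toFinset.1 hp, fun q hq => h q (List.mem_toFinset.2 hq)⟩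

/-! ### Products -/

theorem le_mul_min {p a b c : ℕ} (h1 : p ≤ a * b) (h2 : p ≤ a * c) : p ≤ a * min b c := by
  rcases min_choice b c with h | h <;> rw [h] <;> assumption

theorem prod_four {p a4 a5 a6 a7 : ℕ} (h1 : p ≤ a4 * a7) (h2 : p ≤ a5 * a6) :
    p ≤ (min a4 a5 + min a6 a7) * (min a4 a6 + min a5 a7) := by
  rcases le_total a4 a5 with h45 | h45 <;> rcases le_total a6 a7 with h67 | h67 <;>
    rcases le_total a4 a6 with h46 | h46 <;> rcases le_total a5 a7 with h57 | h57 <;>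
    simp only [min_eq_left, min_eq_right, *] <;> nlinarith

/-- The bounds on the products of the minima. -/
structure PB (w : Fin 9 → ℕ) (p : ℕ) (u v A B : ℕ) : Prop where
  uv : p ≤ u * v
  uB : p ≤ u * B
  Av : p ≤ A * v
  AB : p ≤ A * B

theorem pb (w : Fin 9 → ℕ) (p : ℕ) (h : ∀ q ∈ II, p ≤ w q.1 * w q.2) :
    PB w p (min (w 0) (w 1)) (min (w 2) (w 3)) (min (w 4) (w 5) + min (w 6) (w 7))
      (min (w 4) (w 6) + min (w 5) (w 7)) := by
  have h02 := h (0, 2) (by decide)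
  have h03 := h (0, 3) (by decide)
  have h12 := h (1, 2) (by decide)
  have h13 := h (1, 3) (by decide)
  have h34 := h (3, 4) (by decide)
  have h35 := h (3, 5) (by decide)
  have h26 := h (2, 6) (by decide)
  have h27 := h (2, 7) (by decide)
  have h14 := h (1, 4) (by decide)
  have h16 := h (1, 6) (by decide)
  have h05 := h (0, 5) (by decide)
  have h07 := h (0, 7) (by decide)
  have h47 := h (4, 7) (by decide)
  have h56 := h (5, 6) (by decide)
  dsimp only at *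
  refine ⟨?_, ?_, ?_, prod_four h47 h56⟩
  · rcases min_choice (w 0) (w 1) with e | e <;> rw [e]
    · exact le_mul_min h02 h03
    · exact le_mul_min h12 h13
  · rcases min_choice (w 0) (w 1) with e | e <;> rw [e]
    · exact (le_mul_min h05 h07).trans (Nat.mul_le_mul_left _ (Nat.le_add_left _ _))
    · exact (le_mul_min h14 h16).trans (Nat.mul_le_mul_left _ (Nat.le_add_right _ _))
  · rw [mul_comm]
    rcases min_choice (w 2) (w 3) with e | e <;> rw [e]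
    · exact (le_mul_min h26 h27).trans (Nat.mul_le_mul_left _ (Nat.le_add_left _ _))
    · exact (le_mul_min h34 h35).trans (Nat.mul_le_mul_left _ (Nat.le_add_right _ _))

theorem final_prod {p q E E1 E2 x y x' y' : ℕ} (h1 : p ≤ x * y) (h2 : q ≤ x' * y')
    (hE : E1 + E2 ≤ E) (h : x * y * (x' * y') ≤ E1 * E2) : p ≤ E ∨ q ≤ E := by
  by_contra hc
  push Not at hc
  obtain ⟨h3, h4⟩ := hc
  have h5 : E * E < p * q := Nat.mul_lt_mul'' h3 h4
  have h6 : p * q ≤ x * y * (x' * y') := Nat.mul_le_mul h1 h2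
  have h7 : E1 * E2 ≤ E * E := Nat.mul_le_mul (by omega) (by omega)
  omega

/-! ### Parities -/

theorem dich : ∀ p00 p10 p20 p01 p02 : ZMod 2, p10 + p01 + p00 = 1 → p10 + p02 + p00 = 1 →
    p20 + p01 + p00 = 1 → p20 + p02 + p00 = 1 →
    p00 ≠ 0 ∨ (p10 ≠ 0 ∧ p20 ≠ 0) ∨ (p01 ≠ 0 ∧ p02 ≠ 0) := by
  decide

/-- Four edges numbered from 0 to 3. -/
def cc : Fin 4 → Fin 9 := ![4, 5, 6, 7]

theorem cc_mem : ∀ i, cc i ∈ CC := by decide

/-- The parity of a block. -/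
def par (X : Fin 9 → Fin 9 → ZMod 2) (i j k l : Fin 9) : ZMod 2 := X i k + X i l + X j k + X j l

/-- The cost of a pair. -/
def gg (X : Fin 9 → Fin 9 → ZMod 2) (a b : Fin 9 → ℕ) (e f : Fin 9) : ℕ :=
  if X e f ≠ 0 then a e * b f else 0

/-- The cost of a block. -/
def blk (X : Fin 9 → Fin 9 → ZMod 2) (a b : Fin 9 → ℕ) (i j k l : Fin 9) : ℕ :=
  gg X a b i k + gg X a b i l + gg X a b j k + gg X a b j l

theorem blk_le (X : Fin 9 → Fin 9 → ZMod 2) (a b : Fin 9 → ℕ) (i j k l : Fin 9)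
    (h : par X i j k l ≠ 0) : min (a i) (a j) * min (b k) (b l) ≤ blk X a b i j k l := by
  have h1 : min (a i) (a j) * min (b k) (b l) ≤ a i * b k :=
    Nat.mul_le_mul (min_le_left _ _) (min_le_left _ _)
  have h2 : min (a i) (a j) * min (b k) (b l) ≤ a i * b l :=
    Nat.mul_le_mul (min_le_left _ _) (min_le_right _ _)
  have h3 : min (a i) (a j) * min (b k) (b l) ≤ a j * b k :=
    Nat.mul_le_mul (min_le_right _ _) (min_le_left _ _)
  have h4 : min (a i) (a j) * min (b k) (b l) ≤ a j * b l :=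
    Nat.mul_le_mul (min_le_right _ _) (min_le_right _ _)
  unfold blk gg
  by_cases g1 : X i k = 0
  · by_cases g2 : X i l = 0
    · by_cases g3 : X j k = 0
      · have g4 : X j l ≠ 0 := by
          intro g4
          apply h
          unfold par
          rw [g1, g2, g3, g4]; rfl
        rw [if_pos g4]; omega
      · rw [if_pos g3]; omega
    · rw [if_pos g2]; omega
  · rw [if_pos g1]; omega

theorem half (X : Fin 9 → Fin 9 → ZMod 2) (a b : Fin 9 → ℕ)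
    (u0 u1 i1 j1 i2 j2 v0 v1 k1 l1 k2 l2 : Fin 9)
    (h11 : par X i1 j1 v0 v1 + par X u0 u1 k1 l1 + par X u0 u1 v0 v1 = 1)
    (h12 : par X i1 j1 v0 v1 + par X u0 u1 k2 l2 + par X u0 u1 v0 v1 = 1)
    (h21 : par X i2 j2 v0 v1 + par X u0 u1 k1 l1 + par X u0 u1 v0 v1 = 1)
    (h22 : par X i2 j2 v0 v1 + par X u0 u1 k2 l2 + par X u0 u1 v0 v1 = 1) :
    ∃ x y, (x = min (a u0) (a u1) ∨ x = min (a i1) (a j1) + min (a i2) (a j2)) ∧
      (y = min (b v0) (b v1) ∨ y = min (b k1) (b l1) + min (b k2) (b l2)) ∧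
      x * y ≤ blk X a b u0 u1 v0 v1 + blk X a b i1 j1 v0 v1 + blk X a b i2 j2 v0 v1 +
        blk X a b u0 u1 k1 l1 + blk X a b u0 u1 k2 l2 := by
  rcases dich _ _ _ _ _ h11 h12 h21 h22 with h | ⟨h, h'⟩ | ⟨h, h'⟩
  · refine ⟨_, _, Or.inl rfl, Or.inl rfl, ?_⟩
    have := blk_le X a b _ _ _ _ h
    omega
  · refine ⟨_, _, Or.inr rfl, Or.inl rfl, ?_⟩
    have h1 := blk_le X a b _ _ _ _ h
    have h2 := blk_le X a b _ _ _ _ h'
    rw [add_mul]
    omega
  · refine ⟨_, _, Or.inl rfl, Or.inr rfl, ?_⟩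
    have h1 := blk_le X a b _ _ _ _ h
    have h2 := blk_le X a b _ _ _ _ h'
    rw [mul_add]
    omega

theorem two_halves (a b : Fin 9 → ℕ) {p q : ℕ}
    (hp : ∀ r ∈ II, p ≤ a r.1 * a r.2) (hq : ∀ r ∈ II, q ≤ b r.1 * b r.2) {E E1 E2 : ℕ}
    (hE : E1 + E2 ≤ E) {x y x' y' : ℕ}
    (hx : x = min (a 0) (a 1) ∨ x = min (a 4) (a 5) + min (a 6) (a 7))
    (hy : y = min (a 2) (a 3) ∨ y = min (a 4) (a 6) + min (a 5) (a 7))
    (hx' : x' = min (b 0) (b 1) ∨ x' = min (b 4) (b 5) + min (b 6) (b 7))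
    (hy' : y' = min (b 2) (b 3) ∨ y' = min (b 4) (b 6) + min (b 5) (b 7))
    (h : x * y * (x' * y') ≤ E1 * E2) : p ≤ E ∨ q ≤ E := by
  have hP := pb a p hp
  have hQ := pb b q hq
  have h1 : p ≤ x * y := by
    rcases hx with rfl | rfl <;> rcases hy with rfl | rfl
    · exact hP.uv
    · exact hP.uB
    · exact hP.Av
    · exact hP.AB
  have h2 : q ≤ x' * y' := by
    rcases hx' with rfl | rfl <;> rcases hy' with rfl | rfl
    · exact hQ.uv
    · exact hQ.uB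
    · exact hQ.Av
    · exact hQ.AB
  exact final_prod h1 h2 hE h

/-- The parity of the block of the matrix of `σ`. -/
def npar (σ : Fin 4 → Fin 4) (i j k l : Fin 4) : ZMod 2 :=
  (if σ i = k then 1 else 0) + (if σ i = l then 1 else 0) + (if σ j = k then 1 else 0) +
    (if σ j = l then 1 else 0)

theorem match_cases : ∀ σ : Fin 4 → Fin 4, (∀ j, ∃ i, σ i = j) →
    (npar σ 0 1 0 1 = 1 ∧ npar σ 0 1 2 3 = 1 ∧ npar σ 2 3 0 1 = 1 ∧ npar σ 2 3 2 3 = 1 ∧
      npar σ 0 2 0 2 = 1 ∧ npar σ 0 2 1 3 = 1 ∧ npar σ 1 3 0 2 = 1 ∧ npar σ 1 3 1 3 = 1) ∨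
    (npar σ 0 1 0 2 = 1 ∧ npar σ 0 1 1 3 = 1 ∧ npar σ 2 3 0 2 = 1 ∧ npar σ 2 3 1 3 = 1 ∧
      npar σ 0 2 0 1 = 1 ∧ npar σ 0 2 2 3 = 1 ∧ npar σ 1 3 0 1 = 1 ∧ npar σ 1 3 2 3 = 1) := by
  decide +kernel

theorem row_lem : ∀ r : Fin 4 → ZMod 2, r 0 + r 1 + r 2 + r 3 ≠ 0 →
    1 ≤ (if r 0 ≠ 0 then 1 else 0) + (if r 1 ≠ 0 then 1 else 0) + (if r 2 ≠ 0 then 1 else 0) +
      (if r 3 ≠ 0 then 1 else 0) ∧
    ((if r 0 ≠ 0 then 1 else 0) + (if r 1 ≠ 0 then 1 else 0) + (if r 2 ≠ 0 then 1 else 0) +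
      (if r 3 ≠ 0 then 1 else 0) ≤ 1 → ∃ j0, ∀ j, r j = if j0 = j then 1 else 0) := by
  decide +kernel

theorem exists_sigma (X : Fin 9 → Fin 9 → ZMod 2)
    (hrow : ∀ c ∈ CC, (CC.map fun d => X c d).sum ≠ 0)
    (hcard : (CC.map fun c => (CC.map fun d => if X c d ≠ 0 then 1 else 0).sum).sum ≤ 4) :
    ∃ σ : Fin 4 → Fin 4, ∀ i j, X (cc i) (cc j) = if σ i = j then 1 else 0 := by
  have key : ∀ i : Fin 4, X (cc i) 4 + X (cc i) 5 + X (cc i) 6 + X (cc i) 7 ≠ 0 := by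
    intro i h
    have hm : cc i ∈ CC := cc_mem i
    apply hrow _ hm
    rw [← h]
    simp only [CC, List.map_cons, List.map_nil, List.sum_cons, List.sum_nil]
    ring
  have h0 := row_lem (fun j => X (cc 0) (cc j)) (key 0)
  have h1 := row_lem (fun j => X (cc 1) (cc j)) (key 1)
  have h2 := row_lem (fun j => X (cc 2) (cc j)) (key 2)
  have h3 := row_lem (fun j => X (cc 3) (cc j)) (key 3)
  obtain ⟨h0, g0⟩ := h0
  obtain ⟨h1, g1⟩ := h1
  obtain ⟨h2, g2⟩ := h2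
  obtain ⟨h3, g3⟩ := h3
  have hc : ((if X (cc 0) (cc 0) ≠ 0 then 1 else 0) + (if X (cc 0) (cc 1) ≠ 0 then 1 else 0) +
      (if X (cc 0) (cc 2) ≠ 0 then 1 else 0) + (if X (cc 0) (cc 3) ≠ 0 then 1 else 0)) +
    ((if X (cc 1) (cc 0) ≠ 0 then 1 else 0) + (if X (cc 1) (cc 1) ≠ 0 then 1 else 0) +
      (if X (cc 1) (cc 2) ≠ 0 then 1 else 0) + (if X (cc 1) (cc 3) ≠ 0 then 1 else 0)) +
    ((if X (cc 2) (cc 0) ≠ 0 then 1 else 0) + (if X (cc 2) (cc 1) ≠ 0 then 1 else 0) +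
      (if X (cc 2) (cc 2) ≠ 0 then 1 else 0) + (if X (cc 2) (cc 3) ≠ 0 then 1 else 0)) +
    ((if X (cc 3) (cc 0) ≠ 0 then 1 else 0) + (if X (cc 3) (cc 1) ≠ 0 then 1 else 0) +
      (if X (cc 3) (cc 2) ≠ 0 then 1 else 0) + (if X (cc 3) (cc 3) ≠ 0 then 1 else 0)) ≤ 4 := by
    refine le_trans (le_of_eq ?_) hcard
    simp only [CC, List.map_cons, List.map_nil, List.sum_cons, List.sum_nil]
    simp only [cc, Matrix.cons_val]
    ring_nf
  obtain ⟨s0, e0⟩ := g0 (by omega)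
  obtain ⟨s1, e1⟩ := g1 (by omega)
  obtain ⟨s2, e2⟩ := g2 (by omega)
  obtain ⟨s3, e3⟩ := g3 (by omega)
  refine ⟨![s0, s1, s2, s3], ?_⟩
  intro i j
  fin_cases i
  · exact e0 j
  · exact e1 j
  · exact e2 j
  · exact e3 j

theorem sigma_surj (X : Fin 9 → Fin 9 → ZMod 2) (σ : Fin 4 → Fin 4)
    (h : ∀ i j, X (cc i) (cc j) = if σ i = j then 1 else 0)
    (hcol : ∀ d ∈ CC, (CC.map fun c => X c d).sum ≠ 0) (j : Fin 4) : ∃ i, σ i = j := by
  by_contra hc
  push Not at hc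
  have hm : cc j ∈ CC := cc_mem j
  apply hcol _ hm
  have e : ∀ i, X (cc i) (cc j) = 0 := fun i => by rw [h, if_neg (hc i)]
  have e0 := e 0
  have e1 := e 1
  have e2 := e 2
  have e3 := e 3
  simp only [CC, List.map_cons, List.map_nil, List.sum_cons, List.sum_nil]
  change X 4 (cc j) = 0 at e0
  change X 5 (cc j) = 0 at e1
  change X 6 (cc j) = 0 at e2
  change X 7 (cc j) = 0 at e3
  rw [e0, e1, e2, e3]
  rfl

theorem par_eq (X : Fin 9 → Fin 9 → ZMod 2) (σ : Fin 4 → Fin 4)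
    (h : ∀ i j, X (cc i) (cc j) = if σ i = j then 1 else 0) (i j k l : Fin 4) :
    par X (cc i) (cc j) (cc k) (cc l) = npar σ i j k l := by
  unfold par npar
  rw [h, h, h, h]

theorem cyc_par (X : Fin 9 → Fin 9 → ZMod 2) (a b c d e f g h : Fin 9)
    (hs : (([a, b, c, d] : List (Fin 9)).map fun i =>
      (([e, f, g, h] : List (Fin 9)).map fun j => X i j).sum).sum = 0)
    (h1 : par X a b e f = 1) :
    par X a b g h + par X c d e f + par X c d g h = 1 := by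
  have key : par X a b e f + (par X a b g h + par X c d e f + par X c d g h) = 0 := by
    rw [← hs]
    simp only [List.map_cons, List.map_nil, List.sum_cons, List.sum_nil]
    unfold par
    ring
  rw [h1] at key
  have : ∀ x : ZMod 2, 1 + x = 0 → x = 1 := by decide
  exact this _ key

/-- The sum over all pairs dominates the blocks. -/
theorem total_le (X : Fin 9 → Fin 9 → ZMod 2) (a b : Fin 9 → ℕ) :
    ∑ e : Fin 8, ∑ f : Fin 8, gg X a b e.castSucc f.castSucc ≤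
      ∑ e, ∑ f, if X e f ≠ 0 then low a e * b f else 0 := by
  rw [Fin.sum_univ_castSucc (n := 8)]
  refine le_trans ?_ (Nat.le_add_right _ _)
  refine Finset.sum_le_sum fun e _ => ?_
  rw [Fin.sum_univ_castSucc (n := 8)]
  refine le_trans ?_ (Nat.le_add_right _ _)
  refine Finset.sum_le_sum fun f _ => ?_
  unfold gg
  have h8 : low a e.castSucc = a e.castSucc := by
    unfold low
    rw [Function.update_of_ne]
    intro h
    have := congrArg Fin.val h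
    have h2 := e.2
    simp at this
    omega
  rw [h8]

theorem total_expand (X : Fin 9 → Fin 9 → ZMod 2) (a b : Fin 9 → ℕ) :
    ∑ e : Fin 8, ∑ f : Fin 8, gg X a b e.castSucc f.castSucc =
      blk X a b 0 1 0 1 + blk X a b 0 1 2 3 + blk X a b 0 1 4 5 + blk X a b 0 1 6 7 +
      blk X a b 2 3 0 1 + blk X a b 2 3 2 3 + blk X a b 2 3 4 5 + blk X a b 2 3 6 7 +
      blk X a b 4 5 0 1 + blk X a b 4 5 2 3 + blk X a b 4 5 4 5 + blk X a b 4 5 6 7 +
      blk X a b 6 7 0 1 + blk X a b 6 7 2 3 + blk X a b 6 7 4 5 + blk X a b 6 7 6 7 := by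
  have c0 : (0 : Fin 8).castSucc = (0 : Fin 9) := rfl
  have c1 : (1 : Fin 8).castSucc = (1 : Fin 9) := rfl
  have c2 : (2 : Fin 8).castSucc = (2 : Fin 9) := rfl
  have c3 : (3 : Fin 8).castSucc = (3 : Fin 9) := rfl
  have c4 : (4 : Fin 8).castSucc = (4 : Fin 9) := rfl
  have c5 : (5 : Fin 8).castSucc = (5 : Fin 9) := rfl
  have c6 : (6 : Fin 8).castSucc = (6 : Fin 9) := rfl
  have c7 : (7 : Fin 8).castSucc = (7 : Fin 9) := rfl
  simp only [Fin.sum_univ_eight, c0, c1, c2, c3, c4, c5, c6, c7]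
  unfold blk
  ring

/-- The two other ways to group the blocks. -/
theorem blk_col (X : Fin 9 → Fin 9 → ZMod 2) (a b : Fin 9 → ℕ) (i j : Fin 9) :
    blk X a b i j 4 6 + blk X a b i j 5 7 = blk X a b i j 4 5 + blk X a b i j 6 7 := by
  unfold blk; ring

theorem blk_row (X : Fin 9 → Fin 9 → ZMod 2) (a b : Fin 9 → ℕ) (k l : Fin 9) :
    blk X a b 4 6 k l + blk X a b 5 7 k l = blk X a b 4 5 k l + blk X a b 6 7 k l := by
  unfold blk; ring

/-- The cost of the pairs in `CC × CC`. -/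
def GG (X : Fin 9 → Fin 9 → ZMod 2) (a b : Fin 9 → ℕ) : ℕ :=
  blk X a b 4 5 4 5 + blk X a b 4 5 6 7 + blk X a b 6 7 4 5 + blk X a b 6 7 6 7

theorem row_ne (X : Fin 9 → Fin 9 → ZMod 2) (a b : Fin 9 → ℕ) (y : ℕ) (hy : ∀ d ∈ CC, y ≤ b d)
    (c : Fin 9) (h : (CC.map fun d => X c d).sum ≠ 0) :
    a c * y ≤ gg X a b c 4 + gg X a b c 5 + gg X a b c 6 + gg X a b c 7 := by
  have h4 := Nat.mul_le_mul_left (a c) (hy 4 (by decide))
  have h5 := Nat.mul_le_mul_left (a c) (hy 5 (by decide))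
  have h6 := Nat.mul_le_mul_left (a c) (hy 6 (by decide))
  have h7 := Nat.mul_le_mul_left (a c) (hy 7 (by decide))
  unfold gg
  by_cases g4 : X c 4 = 0
  · by_cases g5 : X c 5 = 0
    · by_cases g6 : X c 6 = 0
      · have g7 : X c 7 ≠ 0 := by
          intro g7
          apply h
          simp only [CC, List.map_cons, List.map_nil, List.sum_cons, List.sum_nil]
          rw [g4, g5, g6, g7]; rfl
        rw [if_pos g7]; omega
      · rw [if_pos g6]; omega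
    · rw [if_pos g5]; omega
  · rw [if_pos g4]; omega

theorem col_ne (X : Fin 9 → Fin 9 → ZMod 2) (a b : Fin 9 → ℕ) (x : ℕ) (hx : ∀ c ∈ CC, x ≤ a c)
    (d : Fin 9) (h : (CC.map fun c => X c d).sum ≠ 0) :
    x * b d ≤ gg X a b 4 d + gg X a b 5 d + gg X a b 6 d + gg X a b 7 d := by
  have h4 := Nat.mul_le_mul_right (b d) (hx 4 (by decide))
  have h5 := Nat.mul_le_mul_right (b d) (hx 5 (by decide))
  have h6 := Nat.mul_le_mul_right (b d) (hx 6 (by decide))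
  have h7 := Nat.mul_le_mul_right (b d) (hx 7 (by decide))
  unfold gg
  by_cases g4 : X 4 d = 0
  · by_cases g5 : X 5 d = 0
    · by_cases g6 : X 6 d = 0
      · have g7 : X 7 d ≠ 0 := by
          intro g7
          apply h
          simp only [CC, List.map_cons, List.map_nil, List.sum_cons, List.sum_nil]
          rw [g4, g5, g6, g7]; rfl
        rw [if_pos g7]; omega
      · rw [if_pos g6]; omega
    · rw [if_pos g5]; omega
  · rw [if_pos g4]; omega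

theorem GG_left (X : Fin 9 → Fin 9 → ZMod 2) (a b : Fin 9 → ℕ) (y : ℕ) (hy : ∀ d ∈ CC, y ≤ b d)
    (hrow : ∀ c ∈ CC, (CC.map fun d => X c d).sum ≠ 0) : y * lam a ≤ GG X a b := by
  have h4 := row_ne X a b y hy 4 (hrow 4 (by decide))
  have h5 := row_ne X a b y hy 5 (hrow 5 (by decide))
  have h6 := row_ne X a b y hy 6 (hrow 6 (by decide))
  have h7 := row_ne X a b y hy 7 (hrow 7 (by decide))
  have hl : lam a ≤ a 4 + (a 5 + (a 6 + (a 7 + 0))) := lam_le a [4, 5, 6, 7] (by decide)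
  have h := Nat.mul_le_mul_left y hl
  have e : y * (a 4 + (a 5 + (a 6 + (a 7 + 0)))) = a 4 * y + a 5 * y + a 6 * y + a 7 * y := by
    ring
  rw [e] at h
  unfold GG blk
  omega

theorem GG_right (X : Fin 9 → Fin 9 → ZMod 2) (a b : Fin 9 → ℕ) (x : ℕ) (hx : ∀ c ∈ CC, x ≤ a c)
    (hcol : ∀ d ∈ CC, (CC.map fun c => X c d).sum ≠ 0) : x * lam b ≤ GG X a b := by
  have h4 := col_ne X a b x hx 4 (hcol 4 (by decide))
  have h5 := col_ne X a b x hx 5 (hcol 5 (by decide))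
  have h6 := col_ne X a b x hx 6 (hcol 6 (by decide))
  have h7 := col_ne X a b x hx 7 (hcol 7 (by decide))
  have hl : lam b ≤ b 4 + (b 5 + (b 6 + (b 7 + 0))) := lam_le b [4, 5, 6, 7] (by decide)
  have h := Nat.mul_le_mul_left x hl
  have e : x * (b 4 + (b 5 + (b 6 + (b 7 + 0)))) = x * b 4 + x * b 5 + x * b 6 + x * b 7 := by
    ring
  rw [e] at h
  unfold GG blk
  omega

/-- The pairs outside `CC × CC` cost at least the least product of one of the two sides. -/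
theorem rest (X : Fin 9 → Fin 9 → ZMod 2) (a b : Fin 9 → ℕ)
    (cyc : ∀ c ∈ cyc4, ∀ d ∈ cyc4, (c.map fun e => (d.map fun f => X e f).sum).sum = 0)
    (hrow : ∀ c ∈ CC, (CC.map fun d => X c d).sum ≠ 0)
    (hcol : ∀ d ∈ CC, (CC.map fun c => X c d).sum ≠ 0)
    (hcard : (CC.map fun c => (CC.map fun d => if X c d ≠ 0 then 1 else 0).sum).sum ≤ 4)
    {p q : ℕ} (hp : ∀ r ∈ II, p ≤ a r.1 * a r.2) (hq : ∀ r ∈ II, q ≤ b r.1 * b r.2) :
    ∃ E, (p ≤ E ∨ q ≤ E) ∧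
      GG X a b + E ≤ ∑ e : Fin 8, ∑ f : Fin 8, gg X a b e.castSucc f.castSucc := by
  obtain ⟨σ, hσ⟩ := exists_sigma X hrow hcard
  have hs := sigma_surj X σ hσ hcol
  have hE := total_expand X a b
  refine ⟨(∑ e : Fin 8, ∑ f : Fin 8, gg X a b e.castSucc f.castSucc) - GG X a b, ?_, ?_⟩
  swap
  · unfold GG
    omega
  have c1 := blk_col X a b 0 1
  have c2 := blk_col X a b 2 3
  have c3 := blk_row X a b 0 1
  have c4 := blk_row X a b 2 3
  rcases match_cases σ hs with ⟨m1, m2, m3, m4, m5, m6, m7, m8⟩ | ⟨m1, m2, m3, m4, m5, m6, m7, m8⟩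
  · rw [← par_eq X σ hσ] at m1 m2 m3 m4 m5 m6 m7 m8
    change par X 4 5 4 5 = 1 at m1
    change par X 4 5 6 7 = 1 at m2
    change par X 6 7 4 5 = 1 at m3
    change par X 6 7 6 7 = 1 at m4
    change par X 4 6 4 6 = 1 at m5
    change par X 4 6 5 7 = 1 at m6
    change par X 5 7 4 6 = 1 at m7
    change par X 5 7 5 7 = 1 at m8
    obtain ⟨x, x', hx, hx', h1⟩ := half X a b 0 1 4 5 6 7 0 1 4 5 6 7
      (cyc_par X 4 5 0 1 4 5 0 1 (cyc [4, 5, 0, 1] (by decide) [4, 5, 0, 1] (by decide)) m1)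
      (cyc_par X 4 5 0 1 6 7 0 1 (cyc [4, 5, 0, 1] (by decide) [6, 7, 0, 1] (by decide)) m2)
      (cyc_par X 6 7 0 1 4 5 0 1 (cyc [6, 7, 0, 1] (by decide) [4, 5, 0, 1] (by decide)) m3)
      (cyc_par X 6 7 0 1 6 7 0 1 (cyc [6, 7, 0, 1] (by decide) [6, 7, 0, 1] (by decide)) m4)
    obtain ⟨y, y', hy, hy', h2⟩ := half X a b 2 3 4 6 5 7 2 3 4 6 5 7
      (cyc_par X 4 6 2 3 4 6 2 3 (cyc [4, 6, 2, 3] (by decide) [4, 6, 2, 3] (by decide)) m5)
      (cyc_par X 4 6 2 3 5 7 2 3 (cyc [4, 6, 2, 3] (by decide) [5, 7, 2, 3] (by decide)) m6)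
      (cyc_par X 5 7 2 3 4 6 2 3 (cyc [5, 7, 2, 3] (by decide) [4, 6, 2, 3] (by decide)) m7)
      (cyc_par X 5 7 2 3 5 7 2 3 (cyc [5, 7, 2, 3] (by decide) [5, 7, 2, 3] (by decide)) m8)
    refine two_halves a b hp hq (E1 := _) (E2 := _) ?_ hx hy hx' hy'
      (le_trans (le_of_eq ?_) (Nat.mul_le_mul h1 h2))
    · unfold GG
      omega
    · ring
  · rw [← par_eq X σ hσ] at m1 m2 m3 m4 m5 m6 m7 m8
    change par X 4 5 4 6 = 1 at m1
    change par X 4 5 5 7 = 1 at m2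
    change par X 6 7 4 6 = 1 at m3
    change par X 6 7 5 7 = 1 at m4
    change par X 4 6 4 5 = 1 at m5
    change par X 4 6 6 7 = 1 at m6
    change par X 5 7 4 5 = 1 at m7
    change par X 5 7 6 7 = 1 at m8
    obtain ⟨x, y', hx, hy', h1⟩ := half X a b 0 1 4 5 6 7 2 3 4 6 5 7
      (cyc_par X 4 5 0 1 4 6 2 3 (cyc [4, 5, 0, 1] (by decide) [4, 6, 2, 3] (by decide)) m1)
      (cyc_par X 4 5 0 1 5 7 2 3 (cyc [4, 5, 0, 1] (by decide) [5, 7, 2, 3] (by decide)) m2)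
      (cyc_par X 6 7 0 1 4 6 2 3 (cyc [6, 7, 0, 1] (by decide) [4, 6, 2, 3] (by decide)) m3)
      (cyc_par X 6 7 0 1 5 7 2 3 (cyc [6, 7, 0, 1] (by decide) [5, 7, 2, 3] (by decide)) m4)
    obtain ⟨y, x', hy, hx', h2⟩ := half X a b 2 3 4 6 5 7 0 1 4 5 6 7
      (cyc_par X 4 6 2 3 4 5 0 1 (cyc [4, 6, 2, 3] (by decide) [4, 5, 0, 1] (by decide)) m5)
      (cyc_par X 4 6 2 3 6 7 0 1 (cyc [4, 6, 2, 3] (by decide) [6, 7, 0, 1] (by decide)) m6)
      (cyc_par X 5 7 2 3 4 5 0 1 (cyc [5, 7, 2, 3] (by decide) [4, 5, 0, 1] (by decide)) m7)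
      (cyc_par X 5 7 2 3 6 7 0 1 (cyc [5, 7, 2, 3] (by decide) [6, 7, 0, 1] (by decide)) m8)
    refine two_halves a b hp hq (E1 := _) (E2 := _) ?_ hx hy hx' hy'
      (le_trans (le_of_eq ?_) (Nat.mul_le_mul h1 h2))
    · unfold GG
      omega
    · ring

/-- The case of a perfect matching between the two 4-cycles. -/
theorem comb_perfect {XL XR XM : Fin 9 → Fin 9 → ZMod 2} {AL AR : Fin 9 → Fin 2 → ZMod 2}
    (hF : Facts XL XR XM AL AR) (lw rw : Fin 9 → ℕ) (ab : Fin 2 → ℕ)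
    (hlam : lam rw ≤ lam lw) (B : ℕ) (hB : Bounds lw rw ab B)
    (hrow : ∀ c ∈ CC, (CC.map fun d => XM c d).sum ≠ 0)
    (hcol : ∀ d ∈ CC, (CC.map fun c => XM c d).sum ≠ 0)
    (hcard : (CC.map fun c => (CC.map fun d => if XM c d ≠ 0 then 1 else 0).sum).sum ≤ 4) :
    B ≤ bcost XL XR XM AL AR lw rw ab := by
  obtain ⟨P, hP, hp⟩ := exists_min_II lw
  obtain ⟨Q, hQ, hq⟩ := exists_min_II rw
  obtain ⟨x, hx, hx'⟩ := exists_min_CC lw
  obtain ⟨y, hy, hy'⟩ := exists_min_CC rw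
  obtain ⟨E, hE, h1⟩ := rest XM lw rw hF.cyc hrow hcol hcard hp hq
  have h2 := total_le XM lw rw
  have h3 := GG_left XM lw rw (rw y) hy' hrow
  have h4 := GG_right XM lw rw (lw x) hx' hcol
  have h5 : ∑ e, ∑ f, (if XM e f ≠ 0 then low lw e * rw f else 0) ≤
      bcost XL XR XM AL AR lw rw ab := by
    unfold bcost
    exact Nat.le_add_left _ _
  rcases hE with hE | hE
  · obtain ⟨R, hR, h6⟩ := lemP rw y hy
    have h7 := hB.h00 P hP R hR
    have h8 : rw y * lam rw ≤ rw y * lam lw := Nat.mul_le_mul_left _ hlam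
    omega
  · have h7 := hB.h10 x hx Q hQ
    omega

end Pool.Agent.KUR.PM

namespace Pool.Agent.KUR

/-- The case of a perfect matching, in the form used in the assembly. -/
theorem comb_pm {XL XR XM : Fin 9 → Fin 9 → ZMod 2} {AL AR : Fin 9 → Fin 2 → ZMod 2}
    (hF : Facts XL XR XM AL AR) (lw rw : Fin 9 → ℕ) (ab : Fin 2 → ℕ)
    (_hl : ∀ i, 1 ≤ lw i) (_hr : ∀ i, 1 ≤ rw i) (_hab : ∀ i, 1 ≤ ab i)
    (hlam : lam rw ≤ lam lw) (B : ℕ) (hB : Bounds lw rw ab B)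
    (hrow : ∀ c ∈ CC, (CC.map fun d => if XM c d ≠ 0 then 1 else 0).sum = 1)
    (hcol : ∀ d ∈ CC, (CC.map fun c => if XM c d ≠ 0 then 1 else 0).sum = 1) :
    B ≤ bcost XL XR XM AL AR lw rw ab := by
  have key : ∀ r : Fin 4 → ZMod 2, (if r 0 ≠ 0 then 1 else 0) + ((if r 1 ≠ 0 then 1 else 0) +
      ((if r 2 ≠ 0 then 1 else 0) + ((if r 3 ≠ 0 then 1 else 0) + 0))) = 1 →
      r 0 + (r 1 + (r 2 + (r 3 + 0))) ≠ 0 := by
    decide +kernel
  refine PM.comb_perfect hF lw rw ab hlam B hB ?_ ?_ ?_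
  · intro c hc
    exact key (fun j => XM c (PM.cc j)) (hrow c hc)
  · intro d hd
    exact key (fun j => XM (PM.cc j) d) (hcol d hd)
  · have h4 := hrow 4 (by decide)
    have h5 := hrow 5 (by decide)
    have h6 := hrow 6 (by decide)
    have h7 := hrow 7 (by decide)
    show (CC.map fun d => if XM 4 d ≠ 0 then 1 else 0).sum +
      ((CC.map fun d => if XM 5 d ≠ 0 then 1 else 0).sum +
      ((CC.map fun d => if XM 6 d ≠ 0 then 1 else 0).sum +
      ((CC.map fun d => if XM 7 d ≠ 0 then 1 else 0).sum + 0))) ≤ 4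
    rw [h4, h5, h6, h7]
    decide

end Pool.Agent.KUR
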