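import Pool.Agent.KUR.CombA
import Pool.Agent.KUR.CombB
import Pool.Agent.KUR.CombC

/-!
# The combinatorial lower bound
-/

set_option autoImplicit false

open Finset

namespace Pool.Agent.KUR

theorem comb_4d {XL XR XM : Fin 9 → Fin 9 → ZMod 2} {AL AR : Fin 9 → Fin 2 → ZMod 2}
    (hF : Facts XL XR XM AL AR) (lw rw : Fin 9 → ℕ) (ab : Fin 2 → ℕ)
    (hl : ∀ i, 1 ≤ lw i) (hr : ∀ i, 1 ≤ rw i) (hab : ∀ i, 1 ≤ ab i)
    (hlam : lam rw ≤ lam lw) (B : ℕ) (hB : Bounds lw rw ab B)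
    (hL : ∀ p ∈ II, XL p.1 p.2 = 0) (hR : ∀ p ∈ II, XR p.1 p.2 = 0)
    (hAL : ∀ g, (CC.map fun c => AL c g).sum = 0) (hAR : ∀ g, (CC.map fun d => AR d g).sum = 0) :
    B ≤ bcost XL XR XM AL AR lw rw ab := by
  by_cases hpm : CB.NN (CB.cL XM) = 4 ∧ CB.NN (CB.cR XM) = 4 ∧ CB.GG XM = 4
  · obtain ⟨h1, h2⟩ := CB.combB_pm XM hpm.1 hpm.2.1 hpm.2.2
    exact comb_pm hF lw rw ab hl hr hab hlam B hB h1 h2
  have cR := CB.combB_gR hF hL hAL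
  have cL := CB.combB_gL hF hR hAR
  obtain ⟨x, x4, x5, x6, x7, hx⟩ := CB.combB_min4 lw
  obtain ⟨y, y4, y5, y6, y7, hy⟩ := CB.combB_min4 rw
  obtain ⟨p, hp, hpm'⟩ := CB.combB_minII lw
  obtain ⟨q, hq, hqm⟩ := CB.combB_minII rw
  obtain ⟨c, hc, hxc⟩ := CB.combB_mem_CC hx
  have e4 := CB.combB_low lw 4 (by decide)
  have e5 := CB.combB_low lw 5 (by decide)
  have e6 := CB.combB_low lw 6 (by decide)
  have e7 := CB.combB_low lw 7 (by decide)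
  have hp2 : ∀ p' ∈ II, lw p.1 * lw p.2 ≤ low lw p'.1 * low lw p'.2 := by
    intro p' hp'
    rw [CB.combB_low lw _ (CB.combB_II_ne p' hp').1, CB.combB_low lw _ (CB.combB_II_ne p' hp').2]
    exact hpm' p' hp'
  have hx1 : 1 ≤ x := by rw [hxc]; exact hl c
  have hTR := CB.combB_T cR rw y y4 y5 y6 y7 hy (rw q.1 * rw q.2) hqm
  have hTL := CB.combB_T cL (low lw) x (e4 ▸ x4) (e5 ▸ x5) (e6 ▸ x6) (e7 ▸ x7)
    (by rw [e4, e5, e6, e7]; exact hx) (lw p.1 * lw p.2) hp2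
  have hP := CB.combB_P rw y (fun i _ => hr i) hy (rw q.1 * rw q.2) hqm
  have hlR := CB.combB_lam_le cR rw y y4 y5 y6 y7
  have hlL := CB.combB_lam_le cL (low lw) x (e4 ▸ x4) (e5 ▸ x5) (e6 ▸ x6) (e7 ▸ x7)
  have hlow := CB.combB_lam_low lw
  have hblock := CB.combB_block XM (low lw) rw x y (e4 ▸ x4) (e5 ▸ x5) (e6 ▸ x6) (e7 ▸ x7)
    y4 y5 y6 y7
  have hN := CB.combB_NN_le XM
  have halg := CB.combB_alg x y (lw p.1 * lw p.2) (rw q.1 * rw q.2) (CB.PP (CB.cR XM) rw y)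
    (CB.PP (CB.cL XM) (low lw) x) (CB.NN (CB.cL XM)) (CB.NN (CB.cR XM)) (CB.GG XM) (lam rw)
    (lam lw) B hx1 hN.1 hN.2 (CB.combB_NN4 _) (CB.combB_NN4 _) hlR
    (hlow.trans (Nat.add_le_add_right hlL 1)) hlam hP hTR hTL hpm (hB.h00 p hp q hq)
    (by rw [hxc]; exact hB.h10 c hc q hq)
  refine halg.trans (hblock.trans ?_)
  unfold bcost
  exact Nat.le_add_left _ _

theorem comb {XL XR XM : Fin 9 → Fin 9 → ZMod 2} {AL AR : Fin 9 → Fin 2 → ZMod 2}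
    (hF : Facts XL XR XM AL AR) (lw rw : Fin 9 → ℕ) (ab : Fin 2 → ℕ)
    (hl : ∀ i, 1 ≤ lw i) (hr : ∀ i, 1 ≤ rw i) (hab : ∀ i, 1 ≤ ab i)
    (hlam : lam rw ≤ lam lw) (B : ℕ) (hB : Bounds lw rw ab B) :
    B ≤ bcost XL XR XM AL AR lw rw ab := by
  by_cases h4 : (∀ p ∈ II, XL p.1 p.2 = 0) ∧ (∀ p ∈ II, XR p.1 p.2 = 0) ∧
      (∀ g, (CC.map fun c => AL c g).sum = 0) ∧ (∀ g, (CC.map fun d => AR d g).sum = 0)
  · exact comb_4d hF lw rw ab hl hr hab hlam B hB h4.1 h4.2.1 h4.2.2.1 h4.2.2.2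
  · exact comb_not4d hF lw rw ab hl hr hab hlam B hB h4

end Pool.Agent.KUR
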