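import Pool.Agent.KUR.Defs

set_option autoImplicit false

open Finset

namespace Pool.Agent.KUR

/-- A path of the piece from `u` to `v`. -/
def Q0 : List (Fin 9) := [0, 4, 2]

/-- Four 4-cycles of the piece. -/
def cyc4 : List (List (Fin 9)) := [[4, 5, 0, 1], [6, 7, 0, 1], [4, 6, 2, 3], [5, 7, 2, 3]]

/-- The triangle through the extra edge. -/
def tri : List (Fin 9) := [8, 2, 3]

/-- The linear conditions on the crossing parities: `XL`, `XR` for pairs of edges of the left and of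
the right piece, `XM` for a left and a right edge, `AL`, `AR` for a left or right edge and one of the
two connecting edges. -/
structure Facts (XL XR XM : Fin 9 → Fin 9 → ZMod 2) (AL AR : Fin 9 → Fin 2 → ZMod 2) : Prop where
  fL : (II.map fun p => XL p.1 p.2).sum +
    (CC.map fun c => AL c 0 + AL c 1 + (Q0.map fun f => XM c f).sum).sum = 1
  fR : (II.map fun p => XR p.1 p.2).sum +
    (CC.map fun d => AR d 0 + AR d 1 + (Q0.map fun e => XM e d).sum).sum = 1
  cyc : ∀ c ∈ cyc4, ∀ d ∈ cyc4, (c.map fun e => (d.map fun f => XM e f).sum).sum = 0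
  czR : (CC.map fun e => (tri.map fun f => XM e f).sum).sum = 0
  czL : (tri.map fun e => (CC.map fun f => XM e f).sum).sum = 0

/-- The weighted number of odd pairs. The weight of the left extra edge is lowered by one. -/
def bcost (XL XR XM : Fin 9 → Fin 9 → ZMod 2) (AL AR : Fin 9 → Fin 2 → ZMod 2)
    (lw rw : Fin 9 → ℕ) (ab : Fin 2 → ℕ) : ℕ :=
  (II.map fun p => if XL p.1 p.2 ≠ 0 then lw p.1 * lw p.2 else 0).sum +
  (II.map fun p => if XR p.1 p.2 ≠ 0 then rw p.1 * rw p.2 else 0).sum +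
  (CC.map fun c => ∑ g, if AL c g ≠ 0 then lw c * ab g else 0).sum +
  (CC.map fun d => ∑ g, if AR d g ≠ 0 then rw d * ab g else 0).sum +
  ∑ e, ∑ f, if XM e f ≠ 0 then low lw e * rw f else 0

/-- The hypotheses on the bound `B`. -/
structure Bounds (lw rw : Fin 9 → ℕ) (ab : Fin 2 → ℕ) (B : ℕ) : Prop where
  h00 : ∀ p ∈ II, ∀ q ∈ II, B ≤ lw p.1 * lw p.2 + rw q.1 * rw q.2
  h10 : ∀ c ∈ CC, ∀ q ∈ II, B ≤ lw c * lam rw + rw q.1 * rw q.2
  hq : ∀ c ∈ CC, ∀ g, ∀ q ∈ II, B ≤ lw c * ab g + rw q.1 * rw q.2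
  hp : ∀ d ∈ CC, ∀ g, ∀ p ∈ II, B ≤ rw d * ab g + lw p.1 * lw p.2
  h11 : ∀ c ∈ CC, ∀ d ∈ CC, ∀ g g', B ≤ lw c * ab g + rw d * ab g'

end Pool.Agent.KUR
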