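import Pool.Agent.KUR.CombL

/-!
# The case analysis except the last case
-/

set_option autoImplicit false

open Finset

namespace Pool.Agent.KUR

theorem sum_ite_pair {α : Type} (l : List α) (P : α → Prop) [DecidablePred P] (F : α → ℕ) {a : α}
    (ha : a ∈ l) (h : P a) : F a ≤ (l.map fun a => if P a then F a else 0).sum := by
  have h1 : (if P a then F a else 0) ∈ l.map fun a => if P a then F a else 0 :=
    List.mem_map_of_mem ha
  have h2 := List.single_le_sum (fun _ _ => Nat.zero_le _) _ h1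
  rwa [if_pos h] at h2

theorem sum_ite_conn (A : Fin 9 → Fin 2 → ZMod 2) (w : Fin 9 → ℕ) (ab : Fin 2 → ℕ) {c : Fin 9}
    (hc : c ∈ CC) {g : Fin 2} (h : A c g ≠ 0) :
    w c * ab g ≤ (CC.map fun c => ∑ g, if A c g ≠ 0 then w c * ab g else 0).sum := by
  have h1 : (∑ g, if A c g ≠ 0 then w c * ab g else 0) ∈
      CC.map fun c => ∑ g, if A c g ≠ 0 then w c * ab g else 0 :=
    List.mem_map_of_mem (f := fun c => ∑ g, if A c g ≠ 0 then w c * ab g else 0) hc
  have h2 := List.single_le_sum (fun _ _ => Nat.zero_le _) _ h1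
  refine le_trans ?_ h2
  have h3 := Finset.single_le_sum (f := fun g => if A c g ≠ 0 then w c * ab g else 0)
    (fun _ _ => Nat.zero_le _) (Finset.mem_univ g)
  simpa [h] using h3

theorem exists_conn {A : Fin 9 → Fin 2 → ZMod 2} {g : Fin 2}
    (h : (CC.map fun c => A c g).sum ≠ 0) : ∃ c ∈ CC, A c g ≠ 0 :=
  exists_ne_of_sum (F := fun c => A c g) h

/-- All cases of `comb` in which there is an odd pair of independent edges in a piece or an odd
number of crossings of one of the cycles with a connecting edge. -/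
theorem comb_not4d' {XL XR XM : Fin 9 → Fin 9 → ZMod 2} {AL AR : Fin 9 → Fin 2 → ZMod 2}
    (hF : Facts XL XR XM AL AR) (lw rw : Fin 9 → ℕ) (ab : Fin 2 → ℕ)
    (hr : ∀ i, 1 ≤ rw i) (hlam : lam rw ≤ lam lw) (B : ℕ) (hB : Bounds lw rw ab B)
    (h4 : ¬ ((∀ p ∈ II, XL p.1 p.2 = 0) ∧ (∀ p ∈ II, XR p.1 p.2 = 0) ∧
      (∀ g, (CC.map fun c => AL c g).sum = 0) ∧ (∀ g, (CC.map fun d => AR d g).sum = 0))) :
    B ≤ bcost XL XR XM AL AR lw rw ab := by
  obtain ⟨x, hx, hxm⟩ := exists_min_CC lw
  obtain ⟨y, hy, hym⟩ := exists_min_CC rw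
  obtain ⟨q, hq, hq'⟩ := lemP rw hr hy
  -- the part of the cost with the cut of the right piece
  have cR : (Q0.map (gR XM)).sum = 1 →
      lw x * lam rw ≤ ∑ e, ∑ f, if XM e f ≠ 0 then low lw e * rw f else 0 := fun h =>
    (Nat.mul_le_mul_left _ (lam_le_supp rw (gR XM) h (gR_cyc hF) (gR_tri hF))).trans
      (costM_R XM lw rw (lw x) hxm)
  -- the part of the cost with the cut of the left piece
  have cL : (Q0.map (gL XM)).sum = 1 →
      rw q.1 * rw q.2 ≤ ∑ e, ∑ f, if XM e f ≠ 0 then low lw e * rw f else 0 := by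
    intro h
    have h1 := lam_le_supp (low lw) (gL XM) h (gL_cyc hF) (gL_tri hF)
    have h2 := costM_L XM lw rw (rw y) hym
    have h3 := lam_low lw
    have h4 : rw y * lam rw ≤ rw y * (lam (low lw) + 1) := Nat.mul_le_mul_left _ (by omega)
    have h5 : rw y * lam (low lw) ≤ rw y * (∑ e, if gL XM e ≠ 0 then low lw e else 0) :=
      Nat.mul_le_mul_left _ h1
    rw [mul_add, mul_one] at h4
    omega
  have zero_or : ∀ z : ZMod 2, z ≠ 0 → z = 1 := by decide
  unfold bcost
  by_cases hL : ∃ p ∈ II, XL p.1 p.2 ≠ 0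
  · obtain ⟨p, hp, hpX⟩ := hL
    have bL := sum_ite_pair II (fun p => XL p.1 p.2 ≠ 0) (fun p => lw p.1 * lw p.2) hp hpX
    by_cases hR : ∃ p ∈ II, XR p.1 p.2 ≠ 0
    · obtain ⟨p', hp', hpX'⟩ := hR
      have bR := sum_ite_pair II (fun p => XR p.1 p.2 ≠ 0) (fun p => rw p.1 * rw p.2) hp' hpX'
      have := hB.h00 p hp p' hp'
      omega
    · push Not at hR
      have e1 := gL_path hF hR
      by_cases hg : ∃ g, (CC.map fun d => AR d g).sum ≠ 0
      · obtain ⟨g, hg⟩ := hg
        obtain ⟨d, hd, hdg⟩ := exists_conn hg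
        have b3 := sum_ite_conn AR rw ab hd hdg
        have := hB.hp d hd g p hp
        omega
      · push Not at hg
        rw [hg 0, hg 1, zero_add, zero_add] at e1
        have b3 := cL e1
        have := hB.h00 p hp q hq
        omega
  · push Not at hL
    have e1 := gR_path hF hL
    by_cases hR : ∃ p ∈ II, XR p.1 p.2 ≠ 0
    · obtain ⟨p', hp', hpX'⟩ := hR
      have bR := sum_ite_pair II (fun p => XR p.1 p.2 ≠ 0) (fun p => rw p.1 * rw p.2) hp' hpX'
      by_cases hg : ∃ g, (CC.map fun c => AL c g).sum ≠ 0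
      · obtain ⟨g, hg⟩ := hg
        obtain ⟨c, hc, hcg⟩ := exists_conn hg
        have b3 := sum_ite_conn AL lw ab hc hcg
        have := hB.hq c hc g p' hp'
        omega
      · push Not at hg
        rw [hg 0, hg 1, zero_add, zero_add] at e1
        have b3 := cR e1
        have := hB.h10 x hx p' hp'
        omega
    · push Not at hR
      have e2 := gL_path hF hR
      by_cases hg : ∃ g, (CC.map fun c => AL c g).sum ≠ 0
      · obtain ⟨g, hg⟩ := hg
        obtain ⟨c, hc, hcg⟩ := exists_conn hg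
        have b3 := sum_ite_conn AL lw ab hc hcg
        by_cases hg' : ∃ g, (CC.map fun d => AR d g).sum ≠ 0
        · obtain ⟨g', hg'⟩ := hg'
          obtain ⟨d, hd, hdg⟩ := exists_conn hg'
          have b4 := sum_ite_conn AR rw ab hd hdg
          have := hB.h11 c hc d hd g g'
          omega
        · push Not at hg'
          rw [hg' 0, hg' 1, zero_add, zero_add] at e2
          have b4 := cL e2
          have := hB.hq c hc g q hq
          omega
      · push Not at hg
        rw [hg 0, hg 1, zero_add, zero_add] at e1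
        have b3 := cR e1
        by_cases hg' : ∃ g, (CC.map fun d => AR d g).sum ≠ 0
        · obtain ⟨g', hg'⟩ := hg'
          obtain ⟨d, hd, hdg⟩ := exists_conn hg'
          have b4 := sum_ite_conn AR rw ab hd hdg
          rcases le_total (ab g') (lam rw) with hle | hle
          · have h1 : lw x * ab g' ≤ lw x * lam rw := Nat.mul_le_mul_left _ hle
            have := hB.h11 x hx d hd g' g'
            omega
          · have h1 : rw y * lam rw ≤ rw d * ab g' := Nat.mul_le_mul (hym d hd) hle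
            have := hB.h10 x hx q hq
            omega
        · push Not at hg'
          exact absurd ⟨hL, hR, hg, hg'⟩ h4

/-- `comb_not4d'` with the hypotheses of `comb`. -/
theorem comb_not4d {XL XR XM : Fin 9 → Fin 9 → ZMod 2} {AL AR : Fin 9 → Fin 2 → ZMod 2}
    (hF : Facts XL XR XM AL AR) (lw rw : Fin 9 → ℕ) (ab : Fin 2 → ℕ)
    (_hl : ∀ i, 1 ≤ lw i) (hr : ∀ i, 1 ≤ rw i) (_hab : ∀ i, 1 ≤ ab i)
    (hlam : lam rw ≤ lam lw) (B : ℕ) (hB : Bounds lw rw ab B)
    (h4 : ¬ ((∀ p ∈ II, XL p.1 p.2 = 0) ∧ (∀ p ∈ II, XR p.1 p.2 = 0) ∧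
      (∀ g, (CC.map fun c => AL c g).sum = 0) ∧ (∀ g, (CC.map fun d => AR d g).sum = 0))) :
    B ≤ bcost XL XR XM AL AR lw rw ab :=
  comb_not4d' hF lw rw ab hr hlam B hB h4

end Pool.Agent.KUR
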