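import Pool.Agent.KUR.Comb0

/-!
# Shared lemmas for the case analysis
-/

set_option autoImplicit false

open Finset

namespace Pool.Agent.KUR

/-- The parity of the crossings of the right edge `f` with the left cycle `CC`. -/
def gR (XM : Fin 9 → Fin 9 → ZMod 2) (f : Fin 9) : ZMod 2 := (CC.map fun c => XM c f).sum

/-- The parity of the crossings of the left edge `e` with the right cycle `CC`. -/
def gL (XM : Fin 9 → Fin 9 → ZMod 2) (e : Fin 9) : ZMod 2 := (CC.map fun d => XM e d).sum

theorem foldr_min_le (l : List ℕ) (b : ℕ) : l.foldr min b ≤ b ∧ ∀ a ∈ l, l.foldr min b ≤ a := by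
  induction l with
  | nil => simp
  | cons x l ih =>
    refine ⟨?_, ?_⟩
    · simp only [List.foldr_cons]
      exact (min_le_right _ _).trans ih.1
    · intro a ha
      simp only [List.foldr_cons]
      rcases List.mem_cons.1 ha with h | h
      · subst h; exact min_le_left _ _
      · exact (min_le_right _ _).trans (ih.2 a h)

theorem le_foldr_min (l : List ℕ) (b c : ℕ) (h0 : c ≤ b) (h : ∀ a ∈ l, c ≤ a) :
    c ≤ l.foldr min b := by
  induction l with
  | nil => simpa using h0
  | cons x l ih =>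
    simp only [List.foldr_cons]
    exact le_min (h x (List.mem_cons_self ..)) (ih fun a ha => h a (List.mem_cons_of_mem _ ha))

/-- The minimum is at most the weight of any cut. -/
theorem lam_le_wt (w : Fin 9 → ℕ) {S : List (Fin 9)} (h : S ∈ cuts) : lam w ≤ wt w S :=
  (foldr_min_le _ _).2 _ (List.mem_map_of_mem h)

/-- Lower bounds for the weights of all cuts are lower bounds for `lam`. -/
theorem le_lam (w : Fin 9 → ℕ) (c : ℕ) (h : ∀ S ∈ cuts, c ≤ wt w S) : c ≤ lam w := by
  refine le_foldr_min _ _ _ ?_ ?_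
  · have := h [0, 1] (by decide)
    simpa [wt] using this
  · intro a ha
    obtain ⟨S, hS, rfl⟩ := List.mem_map.1 ha
    exact h S hS

theorem cuts_nodup : ∀ S ∈ cuts, S.Nodup := by decide

/-- The minimum is attained. -/
theorem exists_lam (w : Fin 9 → ℕ) : ∃ S ∈ cuts, lam w = wt w S := by
  by_contra hc
  push Not at hc
  have h1 : lam w + 1 ≤ lam w := by
    refine le_lam w _ fun S hS => ?_
    have h2 := lam_le_wt w hS
    have h3 := hc S hS
    omega
  omega

theorem low_of_ne (w : Fin 9 → ℕ) {i : Fin 9} (h : i ≠ 8) : low w i = w i := by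
  simp [low, Function.update_of_ne h]

theorem low_CC (w : Fin 9 → ℕ) {c : Fin 9} (h : c ∈ CC) : low w c = w c := by
  refine low_of_ne w ?_
  rintro rfl
  exact absurd h (by decide)

theorem low_le (w : Fin 9 → ℕ) (i : Fin 9) : low w i ≤ w i := by
  by_cases h : i = 8
  · subst h; simp [low]
  · rw [low_of_ne w h]

theorem le_low_add (w : Fin 9 → ℕ) (i : Fin 9) : w i ≤ low w i + 1 := by
  by_cases h : i = 8
  · subst h
    simp only [low, Function.update_self]
    omega
  · rw [low_of_ne w h]; omega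

/-- Lowering the weight of the extra edge lowers the minimum by at most one. -/
theorem lam_low (w : Fin 9 → ℕ) : lam w ≤ lam (low w) + 1 := by
  obtain ⟨S, hS, hl⟩ := exists_lam (low w)
  rw [hl]
  refine (lam_le_wt w hS).trans ?_
  have key : ∀ T : List (Fin 9), T.Nodup → wt w T ≤ wt (low w) T + 1 ∧
      (8 ∉ T → wt w T = wt (low w) T) := by
    intro T
    induction T with
    | nil => intro _; simp [wt]
    | cons a T ih =>
      intro hT
      have hT' := List.nodup_cons.1 hT
      obtain ⟨h1, h2⟩ := ih hT'.2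
      simp only [wt, List.map_cons, List.sum_cons] at h1 h2 ⊢
      by_cases ha : a = 8
      · subst ha
        have h3 := h2 hT'.1
        have h4 := le_low_add w 8
        refine ⟨by omega, fun h => absurd (List.mem_cons_self ..) h⟩
      · rw [low_of_ne w ha]
        refine ⟨by omega, fun h => ?_⟩
        have h3 := h2 (fun h' => h (List.mem_cons_of_mem _ h'))
        omega
  exact (key S (cuts_nodup S hS)).1

/-- The potential of a function which is odd on `Q0` and even on all cycles. -/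
def pot (g : Fin 9 → ZMod 2) : Fin 6 → ZMod 2 := ![0, 1, g 2 + 1, g 3 + 1, g 0, g 1]

theorem eq_pot (g : Fin 9 → ZMod 2) (h0 : (Q0.map g).sum = 1)
    (h1 : ∀ c ∈ cyc4, (c.map g).sum = 0) (h2 : (tri.map g).sum = 0) (f : Fin 9) :
    g f = pot g (ps f) + pot g (pt f) := by
  have e1 := h1 [4, 5, 0, 1] (by decide)
  have e2 := h1 [6, 7, 0, 1] (by decide)
  have e3 := h1 [4, 6, 2, 3] (by decide)
  have e4 := h1 [5, 7, 2, 3] (by decide)
  simp only [Q0, tri, List.map_cons, List.map_nil, List.sum_cons, List.sum_nil, add_zero]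
    at h0 h2 e1 e2 e3 e4
  have two : (2 : ZMod 2) = 0 := by decide
  fin_cases f
  · change g 0 = 0 + g 0
    ring
  · change g 1 = 0 + g 1
    ring
  · change g 2 = (g 2 + 1) + 1
    linear_combination (-1 : ZMod 2) * two
  · change g 3 = (g 3 + 1) + 1
    linear_combination (-1 : ZMod 2) * two
  · change g 4 = (g 2 + 1) + g 0
    linear_combination h0 - (g 2 + g 0) * two
  · change g 5 = (g 2 + 1) + g 1
    linear_combination e1 - h0 - (1 + g 1) * two
  · change g 6 = (g 3 + 1) + g 0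
    linear_combination e3 - h0 - (1 + g 3) * two
  · change g 7 = (g 3 + 1) + g 1
    linear_combination e4 - e1 + h0 - (g 2 + g 3) * two
  · change g 8 = (g 2 + 1) + (g 3 + 1)
    linear_combination h2 - (g 2 + g 3 + 1) * two

theorem pot_cut : ∀ a b c d : ZMod 2, ∃ S ∈ cuts, ∀ f ∈ S,
    (![0, 1, a, b, c, d] : Fin 6 → ZMod 2) (ps f) +
      (![0, 1, a, b, c, d] : Fin 6 → ZMod 2) (pt f) ≠ 0 := by
  decide +kernel

/-- A function which is odd on the path `Q0` and even on all cycles is nonzero on a cut. -/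
theorem cut_supp (g : Fin 9 → ZMod 2) (h0 : (Q0.map g).sum = 1)
    (h1 : ∀ c ∈ cyc4, (c.map g).sum = 0) (h2 : (tri.map g).sum = 0) :
    ∃ S ∈ cuts, ∀ f ∈ S, g f ≠ 0 := by
  obtain ⟨S, hS, h⟩ := pot_cut (g 2 + 1) (g 3 + 1) (g 0) (g 1)
  refine ⟨S, hS, fun f hf => ?_⟩
  rw [eq_pot g h0 h1 h2 f]
  exact h f hf

theorem wt_le_sum_ite (w : Fin 9 → ℕ) (g : Fin 9 → ZMod 2) {S : List (Fin 9)} (hS : S.Nodup)
    (h : ∀ f ∈ S, g f ≠ 0) : wt w S ≤ ∑ f, if g f ≠ 0 then w f else 0 := by
  classical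
  have h1 : wt w S = ∑ f ∈ S.toFinset, w f := by
    rw [List.sum_toFinset _ hS]
    rfl
  rw [h1, ← Finset.sum_filter]
  refine Finset.sum_le_sum_of_subset ?_
  intro f hf
  rw [Finset.mem_filter]
  exact ⟨Finset.mem_univ _, h f (List.mem_toFinset.1 hf)⟩

theorem lam_le_supp (w : Fin 9 → ℕ) (g : Fin 9 → ZMod 2) (h0 : (Q0.map g).sum = 1)
    (h1 : ∀ c ∈ cyc4, (c.map g).sum = 0) (h2 : (tri.map g).sum = 0) :
    lam w ≤ ∑ f, if g f ≠ 0 then w f else 0 := by
  obtain ⟨S, hS, hg⟩ := cut_supp g h0 h1 h2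
  exact (lam_le_wt w hS).trans (wt_le_sum_ite w g (cuts_nodup S hS) hg)

/-- The path of the piece from `u` to `v` independent of the edge `d`. -/
def pathOf (d : Fin 9) : List (Fin 9) :=
  if d = 4 then [1, 7, 3] else if d = 5 then [0, 6, 3] else if d = 6 then [1, 5, 2] else [0, 4, 2]

theorem pathOf_indep : ∀ d ∈ CC, ∀ f ∈ pathOf d, (d, f) ∈ II ∨ (f, d) ∈ II := by decide

theorem pathOf_cuts : ∀ d ∈ CC, ∀ S ∈ cuts, ∃ f ∈ pathOf d, f ∈ S ∧ ∃ f' ∈ S, f' ≠ f := by decide

/-- The weight of an edge of the path is less than the minimum for every cut through it. -/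
theorem wt_ge_two (w : Fin 9 → ℕ) (hw : ∀ i, 1 ≤ w i) (S : List (Fin 9)) (hS : S.Nodup) {f f' : Fin 9}
    (hf : f ∈ S) (hf' : f' ∈ S) (hne : f' ≠ f) : w f + 1 ≤ wt w S := by
  classical
  have h1 : wt w S = ∑ f ∈ S.toFinset, w f := by
    rw [List.sum_toFinset _ hS]
    rfl
  rw [h1]
  have h2 : ∑ i ∈ ({f, f'} : Finset (Fin 9)), w i ≤ ∑ f ∈ S.toFinset, w f := by
    refine Finset.sum_le_sum_of_subset ?_
    intro i hi
    rw [List.mem_toFinset]
    simp only [Finset.mem_insert, Finset.mem_singleton] at hi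
    rcases hi with rfl | rfl
    · exact hf
    · exact hf'
  rw [Finset.sum_pair hne.symm] at h2
  have := hw f'
  omega

/-- Lemma (P). -/
theorem lemP (w : Fin 9 → ℕ) (hw : ∀ i, 1 ≤ w i) {d : Fin 9} (hd : d ∈ CC) :
    ∃ p ∈ II, w p.1 * w p.2 + w d ≤ w d * lam w := by
  obtain ⟨S, hS, hl⟩ := exists_lam w
  obtain ⟨f, hf, hfS, f', hf'S, hne⟩ := pathOf_cuts d hd S hS
  have h1 : w f + 1 ≤ lam w := by
    rw [hl]
    exact wt_ge_two w hw S (cuts_nodup S hS) hfS hf'S hne
  have h2 : w d * w f + w d ≤ w d * lam w := by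
    calc w d * w f + w d = w d * (w f + 1) := by ring
      _ ≤ w d * lam w := Nat.mul_le_mul_left _ h1
  rcases pathOf_indep d hd f hf with h | h
  · exact ⟨(d, f), h, h2⟩
  · exact ⟨(f, d), h, by rw [mul_comm (w f)]; exact h2⟩

section facts

variable {XL XR XM : Fin 9 → Fin 9 → ZMod 2} {AL AR : Fin 9 → Fin 2 → ZMod 2}

theorem sum_comm_list (l l' : List (Fin 9)) (F : Fin 9 → Fin 9 → ZMod 2) :
    (l.map fun e => (l'.map fun f => F e f).sum).sum =
      (l'.map fun f => (l.map fun e => F e f).sum).sum := by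
  induction l with
  | nil => simp
  | cons a l ih =>
    simp only [List.map_cons, List.sum_cons, ih]
    rw [← List.sum_map_add]

theorem gR_cyc (hF : Facts XL XR XM AL AR) : ∀ c ∈ cyc4, (c.map (gR XM)).sum = 0 := by
  intro d hd
  have e1 := hF.cyc [4, 5, 0, 1] (by decide) d hd
  have e2 := hF.cyc [6, 7, 0, 1] (by decide) d hd
  have two : (2 : ZMod 2) = 0 := by decide
  have h3 : (d.map (gR XM)).sum = (CC.map fun e => (d.map fun f => XM e f).sum).sum :=
    (sum_comm_list CC d XM).symm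
  rw [h3]
  simp only [CC, List.map_cons, List.map_nil, List.sum_cons, List.sum_nil, add_zero] at e1 e2 ⊢
  linear_combination e1 + e2 - ((d.map fun f => XM 0 f).sum + (d.map fun f => XM 1 f).sum) * two

theorem gR_tri (hF : Facts XL XR XM AL AR) : (tri.map (gR XM)).sum = 0 := by
  rw [← hF.czR]
  exact (sum_comm_list CC tri XM).symm

theorem gL_cyc (hF : Facts XL XR XM AL AR) : ∀ c ∈ cyc4, (c.map (gL XM)).sum = 0 := by
  intro c hc
  have e1 := hF.cyc c hc [4, 5, 0, 1] (by decide)
  have e2 := hF.cyc c hc [6, 7, 0, 1] (by decide)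
  have two : (2 : ZMod 2) = 0 := by decide
  rw [sum_comm_list] at e1 e2
  have h3 : (c.map (gL XM)).sum = (CC.map fun f => (c.map fun e => XM e f).sum).sum :=
    sum_comm_list c CC XM
  rw [h3]
  simp only [CC, List.map_cons, List.map_nil, List.sum_cons, List.sum_nil, add_zero] at e1 e2 ⊢
  linear_combination e1 + e2 - ((c.map fun f => XM f 0).sum + (c.map fun f => XM f 1).sum) * two

theorem gL_tri (hF : Facts XL XR XM AL AR) : (tri.map (gL XM)).sum = 0 := hF.czL

/-- If no pair of independent edges of the left piece is odd. -/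
theorem gR_path (hF : Facts XL XR XM AL AR) (h : ∀ p ∈ II, XL p.1 p.2 = 0) :
    (CC.map fun c => AL c 0).sum + (CC.map fun c => AL c 1).sum + (Q0.map (gR XM)).sum = 1 := by
  have h1 := hF.fL
  have h2 : (II.map fun p => XL p.1 p.2).sum = 0 := by
    refine List.sum_eq_zero fun x hx => ?_
    obtain ⟨p, hp, rfl⟩ := List.mem_map.1 hx
    exact h p hp
  rw [h2, zero_add, List.sum_map_add, List.sum_map_add] at h1
  rw [← h1]
  congr 1
  exact (sum_comm_list CC Q0 XM).symm

/-- If no pair of independent edges of the right piece is odd. -/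
theorem gL_path (hF : Facts XL XR XM AL AR) (h : ∀ p ∈ II, XR p.1 p.2 = 0) :
    (CC.map fun d => AR d 0).sum + (CC.map fun d => AR d 1).sum + (Q0.map (gL XM)).sum = 1 := by
  have h1 := hF.fR
  have h2 : (II.map fun p => XR p.1 p.2).sum = 0 := by
    refine List.sum_eq_zero fun x hx => ?_
    obtain ⟨p, hp, rfl⟩ := List.mem_map.1 hx
    exact h p hp
  rw [h2, zero_add, List.sum_map_add, List.sum_map_add] at h1
  rw [← h1]
  congr 1
  exact sum_comm_list Q0 CC XM

end facts

theorem exists_ne_of_sum {l : List (Fin 9)} {F : Fin 9 → ZMod 2} (h : (l.map F).sum ≠ 0) :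
    ∃ c ∈ l, F c ≠ 0 := by
  by_contra hc
  push Not at hc
  refine h (List.sum_eq_zero fun x hx => ?_)
  obtain ⟨c, hc', rfl⟩ := List.mem_map.1 hx
  exact hc c hc'

/-- The cost of the crossings of the left cycle with the edges of odd parity. -/
theorem costM_R (XM : Fin 9 → Fin 9 → ZMod 2) (lw rw : Fin 9 → ℕ) (x : ℕ)
    (hx : ∀ c ∈ CC, x ≤ lw c) :
    x * (∑ f, if gR XM f ≠ 0 then rw f else 0) ≤
      ∑ e, ∑ f, if XM e f ≠ 0 then low lw e * rw f else 0 := by
  rw [Finset.sum_comm, Finset.mul_sum]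
  refine Finset.sum_le_sum fun f _ => ?_
  by_cases h : gR XM f ≠ 0
  · rw [if_pos h]
    obtain ⟨c, hc, hne⟩ := exists_ne_of_sum h
    have h1 : (if XM c f ≠ 0 then low lw c * rw f else 0) ≤
        ∑ e, if XM e f ≠ 0 then low lw e * rw f else 0 :=
      Finset.single_le_sum (f := fun e => if XM e f ≠ 0 then low lw e * rw f else 0)
        (fun _ _ => Nat.zero_le _) (Finset.mem_univ c)
    rw [if_pos hne, low_CC lw hc] at h1
    exact (Nat.mul_le_mul_right _ (hx c hc)).trans h1
  · rw [if_neg h]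
    simp

/-- The cost of the crossings of the right cycle with the edges of odd parity. -/
theorem costM_L (XM : Fin 9 → Fin 9 → ZMod 2) (lw rw : Fin 9 → ℕ) (y : ℕ)
    (hy : ∀ d ∈ CC, y ≤ rw d) :
    y * (∑ e, if gL XM e ≠ 0 then low lw e else 0) ≤
      ∑ e, ∑ f, if XM e f ≠ 0 then low lw e * rw f else 0 := by
  rw [Finset.mul_sum]
  refine Finset.sum_le_sum fun e _ => ?_
  by_cases h : gL XM e ≠ 0
  · rw [if_pos h]
    obtain ⟨d, hd, hne⟩ := exists_ne_of_sum h
    have h1 : (if XM e d ≠ 0 then low lw e * rw d else 0) ≤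
        ∑ f, if XM e f ≠ 0 then low lw e * rw f else 0 :=
      Finset.single_le_sum (f := fun f => if XM e f ≠ 0 then low lw e * rw f else 0)
        (fun _ _ => Nat.zero_le _) (Finset.mem_univ d)
    rw [if_pos hne] at h1
    refine le_trans ?_ h1
    rw [mul_comm]
    exact Nat.mul_le_mul_left _ (hy d hd)
  · rw [if_neg h]
    simp

/-- An edge of least weight of the cycle. -/
theorem exists_min_CC (w : Fin 9 → ℕ) : ∃ c ∈ CC, ∀ d ∈ CC, w c ≤ w d := by
  classical
  obtain ⟨c, hc, h⟩ := Finset.exists_min_image CC.toFinset w ⟨4, by decide⟩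
  exact ⟨c, List.mem_toFinset.1 hc, fun d hd => h d (List.mem_toFinset.2 hd)⟩

end Pool.Agent.KUR
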