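import Pool.Agent.KUR.Real0

set_option autoImplicit false

open Finset

namespace Pool.Agent.KUR

theorem cm_foldr_le (l : List ℕ) (a x : ℕ) (hx : x ∈ l) : l.foldr min a ≤ x := by
  induction l with
  | nil => simp at hx
  | cons y l ih =>
    rcases List.mem_cons.1 hx with rfl | h
    · exact min_le_left _ _
    · exact (min_le_right _ _).trans (ih h)

theorem cm_foldr_mem (l : List ℕ) (a : ℕ) : l.foldr min a = a ∨ l.foldr min a ∈ l := by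
  induction l with
  | nil => left; rfl
  | cons y l ih =>
    have e : (y :: l).foldr min a = min y (l.foldr min a) := rfl
    rw [e]
    rcases min_choice y (l.foldr min a) with h | h
    · rw [h]; right; exact List.mem_cons_self
    · rw [h]
      rcases ih with h' | h'
      · left; exact h'
      · right; exact List.mem_cons_of_mem _ h'

theorem cm_lam_le (w : Fin 9 → ℕ) (j : Fin 11) : lam w ≤ wt w (cutL j) :=
  cm_foldr_le _ _ _ (List.mem_map.2 ⟨cutL j, List.get_mem _ _, rfl⟩)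

theorem cm_exists_lam (w : Fin 9 → ℕ) : ∃ i : Fin 11, lam w = wt w (cutL i) := by
  rcases cm_foldr_mem (cuts.map (wt w)) (w 0 + w 1) with h | h
  · exact ⟨0, by unfold lam; rw [h]; rfl⟩
  · obtain ⟨S, hS, h'⟩ := List.mem_map.1 h
    have key : ∀ S ∈ cuts, ∃ i : Fin 11, cutL i = S := by decide
    obtain ⟨i, rfl⟩ := key S hS
    exact ⟨i, h'.symm⟩

theorem cm_swap {a b c d : ℕ} (h1 : b ≤ c) (h2 : a ≤ d) : a * b ≤ c * d := by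
  rw [mul_comm]; exact Nat.mul_le_mul h1 h2

theorem cm_case0 (w : Fin 9 → ℕ) (_h : ∀ j, wt w (cutL 0) ≤ wt w (cutL j)) :
    ∀ q ∈ incomp 0, ∃ q' ∈ II, q' ∉ incomp 0 ∧ w q'.1 * w q'.2 ≤ w q.1 * w q.2 := by
  intro q hq
  exact absurd hq (by simp [incomp])

theorem cm_case1 (w : Fin 9 → ℕ) (h : ∀ j, wt w (cutL 1) ≤ wt w (cutL j)) :
    ∀ q ∈ incomp 1, ∃ q' ∈ II, q' ∉ incomp 1 ∧ w q'.1 * w q'.2 ≤ w q.1 * w q.2 := by
  have e0 : w 1 + (w 4 + (w 6 + 0)) ≤ w 0 + (w 1 + 0) := h 0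
  have e2 : w 1 + (w 4 + (w 6 + 0)) ≤ w 0 + (w 5 + (w 7 + 0)) := h 2
  have e8 : w 1 + (w 4 + (w 6 + 0)) ≤ w 2 + (w 6 + (w 7 + (w 8 + 0))) := h 8
  have e9 : w 1 + (w 4 + (w 6 + 0)) ≤ w 3 + (w 4 + (w 5 + (w 8 + 0))) := h 9
  have e10 : w 1 + (w 4 + (w 6 + 0)) ≤ w 2 + (w 3 + 0) := h 10
  intro q hq
  have hq' : q = (0, 2) ∨ q = (0, 3) ∨ q = (0, 5) ∨ q = (0, 7) := by
    simpa [incomp] using hq
  rcases hq' with rfl | rfl | rfl | rfl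
  · exact ⟨(2, 6), by decide, by decide, cm_swap (by show w 6 ≤ w 0; omega)
      (by show w 2 ≤ w 2; omega)⟩
  · exact ⟨(3, 4), by decide, by decide, cm_swap (by show w 4 ≤ w 0; omega)
      (by show w 3 ≤ w 3; omega)⟩
  · exact ⟨(5, 6), by decide, by decide, cm_swap (by show w 6 ≤ w 0; omega)
      (by show w 5 ≤ w 5; omega)⟩
  · exact ⟨(4, 7), by decide, by decide, Nat.mul_le_mul (by show w 4 ≤ w 0; omega)
      (by show w 7 ≤ w 7; omega)⟩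

theorem cm_case2 (w : Fin 9 → ℕ) (h : ∀ j, wt w (cutL 2) ≤ wt w (cutL j)) :
    ∀ q ∈ incomp 2, ∃ q' ∈ II, q' ∉ incomp 2 ∧ w q'.1 * w q'.2 ≤ w q.1 * w q.2 := by
  have e0 : w 0 + (w 5 + (w 7 + 0)) ≤ w 0 + (w 1 + 0) := h 0
  have e1 : w 0 + (w 5 + (w 7 + 0)) ≤ w 1 + (w 4 + (w 6 + 0)) := h 1
  have e8 : w 0 + (w 5 + (w 7 + 0)) ≤ w 2 + (w 6 + (w 7 + (w 8 + 0))) := h 8
  have e9 : w 0 + (w 5 + (w 7 + 0)) ≤ w 3 + (w 4 + (w 5 + (w 8 + 0))) := h 9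
  have e10 : w 0 + (w 5 + (w 7 + 0)) ≤ w 2 + (w 3 + 0) := h 10
  intro q hq
  have hq' : q = (1, 2) ∨ q = (1, 3) ∨ q = (1, 4) ∨ q = (1, 6) := by
    simpa [incomp] using hq
  rcases hq' with rfl | rfl | rfl | rfl
  · exact ⟨(2, 7), by decide, by decide, cm_swap (by show w 7 ≤ w 1; omega)
      (by show w 2 ≤ w 2; omega)⟩
  · exact ⟨(3, 5), by decide, by decide, cm_swap (by show w 5 ≤ w 1; omega)
      (by show w 3 ≤ w 3; omega)⟩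
  · exact ⟨(4, 7), by decide, by decide, cm_swap (by show w 7 ≤ w 1; omega)
      (by show w 4 ≤ w 4; omega)⟩
  · exact ⟨(5, 6), by decide, by decide, Nat.mul_le_mul (by show w 5 ≤ w 1; omega)
      (by show w 6 ≤ w 6; omega)⟩

theorem cm_case3 (w : Fin 9 → ℕ) (h : ∀ j, wt w (cutL 3) ≤ wt w (cutL j)) :
    ∀ q ∈ incomp 3, ∃ q' ∈ II, q' ∉ incomp 3 ∧ w q'.1 * w q'.2 ≤ w q.1 * w q.2 := by
  have e0 : w 4 + (w 5 + (w 6 + (w 7 + 0))) ≤ w 0 + (w 1 + 0) := h 0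
  have e1 : w 4 + (w 5 + (w 6 + (w 7 + 0))) ≤ w 1 + (w 4 + (w 6 + 0)) := h 1
  have e2 : w 4 + (w 5 + (w 6 + (w 7 + 0))) ≤ w 0 + (w 5 + (w 7 + 0)) := h 2
  have e8 : w 4 + (w 5 + (w 6 + (w 7 + 0))) ≤ w 2 + (w 6 + (w 7 + (w 8 + 0))) := h 8
  have e9 : w 4 + (w 5 + (w 6 + (w 7 + 0))) ≤ w 3 + (w 4 + (w 5 + (w 8 + 0))) := h 9
  have e10 : w 4 + (w 5 + (w 6 + (w 7 + 0))) ≤ w 2 + (w 3 + 0) := h 10
  intro q hq
  have hq' : q = (0, 2) ∨ q = (0, 3) ∨ q = (1, 2) ∨ q = (1, 3) := by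
    simpa [incomp] using hq
  rcases hq' with rfl | rfl | rfl | rfl
  · exact ⟨(2, 6), by decide, by decide, cm_swap (by show w 6 ≤ w 0; omega)
      (by show w 2 ≤ w 2; omega)⟩
  · exact ⟨(3, 4), by decide, by decide, cm_swap (by show w 4 ≤ w 0; omega)
      (by show w 3 ≤ w 3; omega)⟩
  · exact ⟨(2, 7), by decide, by decide, cm_swap (by show w 7 ≤ w 1; omega)
      (by show w 2 ≤ w 2; omega)⟩
  · exact ⟨(3, 5), by decide, by decide, cm_swap (by show w 5 ≤ w 1; omega)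
      (by show w 3 ≤ w 3; omega)⟩

theorem cm_case4 (w : Fin 9 → ℕ) (h : ∀ j, wt w (cutL 4) ≤ wt w (cutL j)) :
    ∀ q ∈ incomp 4, ∃ q' ∈ II, q' ∉ incomp 4 ∧ w q'.1 * w q'.2 ≤ w q.1 * w q.2 := by
  have e0 : w 1 + (w 2 + (w 5 + (w 6 + (w 8 + 0)))) ≤ w 0 + (w 1 + 0) := h 0
  have e1 : w 1 + (w 2 + (w 5 + (w 6 + (w 8 + 0)))) ≤ w 1 + (w 4 + (w 6 + 0)) := h 1
  have e2 : w 1 + (w 2 + (w 5 + (w 6 + (w 8 + 0)))) ≤ w 0 + (w 5 + (w 7 + 0)) := h 2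
  have e8 : w 1 + (w 2 + (w 5 + (w 6 + (w 8 + 0)))) ≤ w 2 + (w 6 + (w 7 + (w 8 + 0))) := h 8
  have e9 : w 1 + (w 2 + (w 5 + (w 6 + (w 8 + 0)))) ≤ w 3 + (w 4 + (w 5 + (w 8 + 0))) := h 9
  have e10 : w 1 + (w 2 + (w 5 + (w 6 + (w 8 + 0)))) ≤ w 2 + (w 3 + 0) := h 10
  intro q hq
  have hq' : q = (0, 3) ∨ q = (3, 4) ∨ q = (0, 7) ∨ q = (4, 7) := by
    simpa [incomp] using hq
  rcases hq' with rfl | rfl | rfl | rfl
  · exact ⟨(3, 5), by decide, by decide, cm_swap (by show w 5 ≤ w 0; omega)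
      (by show w 3 ≤ w 3; omega)⟩
  · exact ⟨(3, 5), by decide, by decide, Nat.mul_le_mul (by show w 3 ≤ w 3; omega)
      (by show w 5 ≤ w 4; omega)⟩
  · exact ⟨(2, 7), by decide, by decide, Nat.mul_le_mul (by show w 2 ≤ w 0; omega)
      (by show w 7 ≤ w 7; omega)⟩
  · exact ⟨(2, 7), by decide, by decide, Nat.mul_le_mul (by show w 2 ≤ w 4; omega)
      (by show w 7 ≤ w 7; omega)⟩

theorem cm_case5 (w : Fin 9 → ℕ) (h : ∀ j, wt w (cutL 5) ≤ wt w (cutL j)) :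
    ∀ q ∈ incomp 5, ∃ q' ∈ II, q' ∉ incomp 5 ∧ w q'.1 * w q'.2 ≤ w q.1 * w q.2 := by
  have e0 : w 1 + (w 3 + (w 4 + (w 7 + (w 8 + 0)))) ≤ w 0 + (w 1 + 0) := h 0
  have e1 : w 1 + (w 3 + (w 4 + (w 7 + (w 8 + 0)))) ≤ w 1 + (w 4 + (w 6 + 0)) := h 1
  have e2 : w 1 + (w 3 + (w 4 + (w 7 + (w 8 + 0)))) ≤ w 0 + (w 5 + (w 7 + 0)) := h 2
  have e8 : w 1 + (w 3 + (w 4 + (w 7 + (w 8 + 0)))) ≤ w 2 + (w 6 + (w 7 + (w 8 + 0))) := h 8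
  have e9 : w 1 + (w 3 + (w 4 + (w 7 + (w 8 + 0)))) ≤ w 3 + (w 4 + (w 5 + (w 8 + 0))) := h 9
  have e10 : w 1 + (w 3 + (w 4 + (w 7 + (w 8 + 0)))) ≤ w 2 + (w 3 + 0) := h 10
  intro q hq
  have hq' : q = (0, 2) ∨ q = (2, 6) ∨ q = (0, 5) ∨ q = (5, 6) := by
    simpa [incomp] using hq
  rcases hq' with rfl | rfl | rfl | rfl
  · exact ⟨(2, 7), by decide, by decide, cm_swap (by show w 7 ≤ w 0; omega)
      (by show w 2 ≤ w 2; omega)⟩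
  · exact ⟨(2, 7), by decide, by decide, Nat.mul_le_mul (by show w 2 ≤ w 2; omega)
      (by show w 7 ≤ w 6; omega)⟩
  · exact ⟨(3, 5), by decide, by decide, Nat.mul_le_mul (by show w 3 ≤ w 0; omega)
      (by show w 5 ≤ w 5; omega)⟩
  · exact ⟨(3, 5), by decide, by decide, cm_swap (by show w 5 ≤ w 5; omega)
      (by show w 3 ≤ w 6; omega)⟩

theorem cm_case6 (w : Fin 9 → ℕ) (h : ∀ j, wt w (cutL 6) ≤ wt w (cutL j)) :
    ∀ q ∈ incomp 6, ∃ q' ∈ II, q' ∉ incomp 6 ∧ w q'.1 * w q'.2 ≤ w q.1 * w q.2 := by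
  have e0 : w 0 + (w 2 + (w 4 + (w 7 + (w 8 + 0)))) ≤ w 0 + (w 1 + 0) := h 0
  have e1 : w 0 + (w 2 + (w 4 + (w 7 + (w 8 + 0)))) ≤ w 1 + (w 4 + (w 6 + 0)) := h 1
  have e2 : w 0 + (w 2 + (w 4 + (w 7 + (w 8 + 0)))) ≤ w 0 + (w 5 + (w 7 + 0)) := h 2
  have e8 : w 0 + (w 2 + (w 4 + (w 7 + (w 8 + 0)))) ≤ w 2 + (w 6 + (w 7 + (w 8 + 0))) := h 8
  have e9 : w 0 + (w 2 + (w 4 + (w 7 + (w 8 + 0)))) ≤ w 3 + (w 4 + (w 5 + (w 8 + 0))) := h 9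
  have e10 : w 0 + (w 2 + (w 4 + (w 7 + (w 8 + 0)))) ≤ w 2 + (w 3 + 0) := h 10
  intro q hq
  have hq' : q = (1, 3) ∨ q = (3, 5) ∨ q = (1, 6) ∨ q = (5, 6) := by
    simpa [incomp] using hq
  rcases hq' with rfl | rfl | rfl | rfl
  · exact ⟨(3, 4), by decide, by decide, cm_swap (by show w 4 ≤ w 1; omega)
      (by show w 3 ≤ w 3; omega)⟩
  · exact ⟨(3, 4), by decide, by decide, Nat.mul_le_mul (by show w 3 ≤ w 3; omega)
      (by show w 4 ≤ w 5; omega)⟩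
  · exact ⟨(2, 6), by decide, by decide, Nat.mul_le_mul (by show w 2 ≤ w 1; omega)
      (by show w 6 ≤ w 6; omega)⟩
  · exact ⟨(2, 6), by decide, by decide, Nat.mul_le_mul (by show w 2 ≤ w 5; omega)
      (by show w 6 ≤ w 6; omega)⟩

theorem cm_case7 (w : Fin 9 → ℕ) (h : ∀ j, wt w (cutL 7) ≤ wt w (cutL j)) :
    ∀ q ∈ incomp 7, ∃ q' ∈ II, q' ∉ incomp 7 ∧ w q'.1 * w q'.2 ≤ w q.1 * w q.2 := by
  have e0 : w 0 + (w 3 + (w 5 + (w 6 + (w 8 + 0)))) ≤ w 0 + (w 1 + 0) := h 0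
  have e1 : w 0 + (w 3 + (w 5 + (w 6 + (w 8 + 0)))) ≤ w 1 + (w 4 + (w 6 + 0)) := h 1
  have e2 : w 0 + (w 3 + (w 5 + (w 6 + (w 8 + 0)))) ≤ w 0 + (w 5 + (w 7 + 0)) := h 2
  have e8 : w 0 + (w 3 + (w 5 + (w 6 + (w 8 + 0)))) ≤ w 2 + (w 6 + (w 7 + (w 8 + 0))) := h 8
  have e9 : w 0 + (w 3 + (w 5 + (w 6 + (w 8 + 0)))) ≤ w 3 + (w 4 + (w 5 + (w 8 + 0))) := h 9
  have e10 : w 0 + (w 3 + (w 5 + (w 6 + (w 8 + 0)))) ≤ w 2 + (w 3 + 0) := h 10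
  intro q hq
  have hq' : q = (1, 2) ∨ q = (2, 7) ∨ q = (1, 4) ∨ q = (4, 7) := by
    simpa [incomp] using hq
  rcases hq' with rfl | rfl | rfl | rfl
  · exact ⟨(2, 6), by decide, by decide, cm_swap (by show w 6 ≤ w 1; omega)
      (by show w 2 ≤ w 2; omega)⟩
  · exact ⟨(2, 6), by decide, by decide, Nat.mul_le_mul (by show w 2 ≤ w 2; omega)
      (by show w 6 ≤ w 7; omega)⟩
  · exact ⟨(3, 4), by decide, by decide, Nat.mul_le_mul (by show w 3 ≤ w 1; omega)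
      (by show w 4 ≤ w 4; omega)⟩
  · exact ⟨(3, 4), by decide, by decide, cm_swap (by show w 4 ≤ w 4; omega)
      (by show w 3 ≤ w 7; omega)⟩

theorem cm_case8 (w : Fin 9 → ℕ) (h : ∀ j, wt w (cutL 8) ≤ wt w (cutL j)) :
    ∀ q ∈ incomp 8, ∃ q' ∈ II, q' ∉ incomp 8 ∧ w q'.1 * w q'.2 ≤ w q.1 * w q.2 := by
  have e0 : w 2 + (w 6 + (w 7 + (w 8 + 0))) ≤ w 0 + (w 1 + 0) := h 0
  have e1 : w 2 + (w 6 + (w 7 + (w 8 + 0))) ≤ w 1 + (w 4 + (w 6 + 0)) := h 1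
  have e2 : w 2 + (w 6 + (w 7 + (w 8 + 0))) ≤ w 0 + (w 5 + (w 7 + 0)) := h 2
  have e9 : w 2 + (w 6 + (w 7 + (w 8 + 0))) ≤ w 3 + (w 4 + (w 5 + (w 8 + 0))) := h 9
  have e10 : w 2 + (w 6 + (w 7 + (w 8 + 0))) ≤ w 2 + (w 3 + 0) := h 10
  intro q hq
  have hq' : q = (0, 3) ∨ q = (1, 3) ∨ q = (3, 4) ∨ q = (3, 5) := by
    simpa [incomp] using hq
  rcases hq' with rfl | rfl | rfl | rfl
  · exact ⟨(0, 7), by decide, by decide, Nat.mul_le_mul (by show w 0 ≤ w 0; omega)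
      (by show w 7 ≤ w 3; omega)⟩
  · exact ⟨(1, 6), by decide, by decide, Nat.mul_le_mul (by show w 1 ≤ w 1; omega)
      (by show w 6 ≤ w 3; omega)⟩
  · exact ⟨(4, 7), by decide, by decide, cm_swap (by show w 7 ≤ w 3; omega)
      (by show w 4 ≤ w 4; omega)⟩
  · exact ⟨(5, 6), by decide, by decide, cm_swap (by show w 6 ≤ w 3; omega)
      (by show w 5 ≤ w 5; omega)⟩

theorem cm_case9 (w : Fin 9 → ℕ) (h : ∀ j, wt w (cutL 9) ≤ wt w (cutL j)) :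
    ∀ q ∈ incomp 9, ∃ q' ∈ II, q' ∉ incomp 9 ∧ w q'.1 * w q'.2 ≤ w q.1 * w q.2 := by
  have e0 : w 3 + (w 4 + (w 5 + (w 8 + 0))) ≤ w 0 + (w 1 + 0) := h 0
  have e1 : w 3 + (w 4 + (w 5 + (w 8 + 0))) ≤ w 1 + (w 4 + (w 6 + 0)) := h 1
  have e2 : w 3 + (w 4 + (w 5 + (w 8 + 0))) ≤ w 0 + (w 5 + (w 7 + 0)) := h 2
  have e8 : w 3 + (w 4 + (w 5 + (w 8 + 0))) ≤ w 2 + (w 6 + (w 7 + (w 8 + 0))) := h 8
  have e10 : w 3 + (w 4 + (w 5 + (w 8 + 0))) ≤ w 2 + (w 3 + 0) := h 10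
  intro q hq
  have hq' : q = (0, 2) ∨ q = (1, 2) ∨ q = (2, 6) ∨ q = (2, 7) := by
    simpa [incomp] using hq
  rcases hq' with rfl | rfl | rfl | rfl
  · exact ⟨(0, 5), by decide, by decide, Nat.mul_le_mul (by show w 0 ≤ w 0; omega)
      (by show w 5 ≤ w 2; omega)⟩
  · exact ⟨(1, 4), by decide, by decide, Nat.mul_le_mul (by show w 1 ≤ w 1; omega)
      (by show w 4 ≤ w 2; omega)⟩
  · exact ⟨(5, 6), by decide, by decide, Nat.mul_le_mul (by show w 5 ≤ w 2; omega)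
      (by show w 6 ≤ w 6; omega)⟩
  · exact ⟨(4, 7), by decide, by decide, Nat.mul_le_mul (by show w 4 ≤ w 2; omega)
      (by show w 7 ≤ w 7; omega)⟩

theorem cm_case10 (w : Fin 9 → ℕ) (_h : ∀ j, wt w (cutL 10) ≤ wt w (cutL j)) :
    ∀ q ∈ incomp 10, ∃ q' ∈ II, q' ∉ incomp 10 ∧ w q'.1 * w q'.2 ≤ w q.1 * w q.2 := by
  intro q hq
  exact absurd hq (by simp [incomp])

/-- A least cut and a least pair can be chosen compatible. -/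
theorem compat_min (w : Fin 9 → ℕ) (q : Fin 9 × Fin 9) (hq : q ∈ II) :
    ∃ i : Fin 11, lam w = wt w (cutL i) ∧ ∃ q' ∈ II, q' ∉ incomp i ∧
      w q'.1 * w q'.2 ≤ w q.1 * w q.2 := by
  obtain ⟨i, hi⟩ := cm_exists_lam w
  refine ⟨i, hi, ?_⟩
  by_cases hn : q ∉ incomp i
  · exact ⟨q, hq, hn, le_refl _⟩
  rw [not_not] at hn
  have hj : ∀ j, wt w (cutL i) ≤ wt w (cutL j) := fun j => by
    rw [← hi]; exact cm_lam_le w j
  clear hi hq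
  revert hj hn
  fin_cases i
  · exact fun hn hj => cm_case0 w hj q hn
  · exact fun hn hj => cm_case1 w hj q hn
  · exact fun hn hj => cm_case2 w hj q hn
  · exact fun hn hj => cm_case3 w hj q hn
  · exact fun hn hj => cm_case4 w hj q hn
  · exact fun hn hj => cm_case5 w hj q hn
  · exact fun hn hj => cm_case6 w hj q hn
  · exact fun hn hj => cm_case7 w hj q hn
  · exact fun hn hj => cm_case8 w hj q hn
  · exact fun hn hj => cm_case9 w hj q hn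
  · exact fun hn hj => cm_case10 w hj q hn

end Pool.Agent.KUR
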