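import Pool.Agent.KUR.GeoA

set_option autoImplicit false

open Finset Topology

namespace Pool.Agent.KUR

/-- The point of the plane with the given integer coordinates. -/
noncomputable def toC (p : ℤ × ℤ) : ℂ := ⟨p.1, p.2⟩

/-- The shifted bend. -/
noncomputable def bend (b d : ℤ × ℤ) (x : ℝ) : ℂ := ⟨b.1 + x * d.1, b.2 + x * d.2⟩

theorem toC_inj : Function.Injective toC := by
  intro p q h
  have h1 := congrArg Complex.re h
  have h2 := congrArg Complex.im h
  simp only [toC] at h1 h2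
  exact Prod.ext (by exact_mod_cast h1) (by exact_mod_cast h2)

theorem bend_zero (b d : ℤ × ℤ) : bend b d 0 = toC b := by
  simp [bend, toC]

theorem orC_toC (a b c : ℤ × ℤ) : orC (toC a) (toC b) (toC c) = (ori a b c : ℝ) := by
  simp [orC, ori, toC]

theorem orC_rot (a b c : ℂ) : orC a b c = orC b c a := by
  unfold orC; ring

theorem orC_swap (a b c : ℂ) : orC a b c = -orC a c b := by
  unfold orC; ring

theorem ev_pos {f : ℝ × ℝ → ℝ} (hf : Continuous f) (h : 0 < f (0, 0)) :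
    ∀ᶠ p in 𝓝 ((0 : ℝ), (0 : ℝ)), 0 < f p :=
  (hf.tendsto _).eventually_const_lt h

theorem ev_neg {f : ℝ × ℝ → ℝ} (hf : Continuous f) (h : f (0, 0) < 0) :
    ∀ᶠ p in 𝓝 ((0 : ℝ), (0 : ℝ)), f p < 0 :=
  (hf.tendsto _).eventually_lt_const h

theorem ev_ne {f : ℝ × ℝ → ℝ} (hf : Continuous f) (h : f (0, 0) ≠ 0) :
    ∀ᶠ p in 𝓝 ((0 : ℝ), (0 : ℝ)), f p ≠ 0 :=
  hf.continuousAt.eventually_ne h

/-- Orientation of a vertex, a bend and a vertex. -/
theorem cont1 (a b e c : ℤ × ℤ) :
    Continuous fun p : ℝ × ℝ => orC (toC a) (bend b e p.1) (toC c) := by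
  simp only [orC, toC, bend]
  fun_prop

theorem cont1' (a b e c : ℤ × ℤ) :
    Continuous fun p : ℝ × ℝ => orC (toC a) (bend b e p.2) (toC c) := by
  simp only [orC, toC, bend]
  fun_prop

/-- Orientation of a vertex and two bends. -/
theorem cont2 (a b e d g : ℤ × ℤ) :
    Continuous fun p : ℝ × ℝ => orC (toC a) (bend b e p.1) (bend d g p.2) := by
  simp only [orC, toC, bend]
  fun_prop

theorem cont2' (a b e d g : ℤ × ℤ) :
    Continuous fun p : ℝ × ℝ => orC (toC a) (bend b e p.2) (bend d g p.1) := by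
  simp only [orC, toC, bend]
  fun_prop

theorem val1 (a b e c : ℤ × ℤ) : orC (toC a) (bend b e 0) (toC c) = (ori a b c : ℝ) := by
  rw [bend_zero, orC_toC]

theorem val2 (a b e d g : ℤ × ℤ) :
    orC (toC a) (bend b e 0) (bend d g 0) = (ori a b d : ℝ) := by
  rw [bend_zero, bend_zero, orC_toC]

theorem ev_dis (a b c d e g : ℤ × ℤ) (h : dis a b c d = true) :
    ∀ᶠ p in 𝓝 ((0 : ℝ), (0 : ℝ)),
      Disjoint (segment ℝ (toC a) (bend b e p.1)) (segment ℝ (toC c) (bend d g p.2)) := by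
  unfold dis at h
  simp only [Bool.or_eq_true, Bool.and_eq_true, decide_eq_true_eq] at h
  rcases h with ((h | h) | h) | h
  · filter_upwards [ev_pos (cont1 a b e c) (by simp only [val1]; exact_mod_cast h.1),
      ev_pos (cont2 a b e d g) (by simp only [val2]; exact_mod_cast h.2)] with p h1 h2
    exact seg_disj (Or.inl ⟨h1, h2⟩)
  · filter_upwards [ev_neg (cont1 a b e c) (by simp only [val1]; exact_mod_cast h.1),
      ev_neg (cont2 a b e d g) (by simp only [val2]; exact_mod_cast h.2)] with p h1 h2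
    exact seg_disj (Or.inr ⟨h1, h2⟩)
  · filter_upwards [ev_pos (cont1' c d g a) (by simp only [val1]; exact_mod_cast h.1),
      ev_pos (cont2' c d g b e) (by simp only [val2]; exact_mod_cast h.2)] with p h1 h2
    exact (seg_disj (Or.inl ⟨h1, h2⟩)).symm
  · filter_upwards [ev_neg (cont1' c d g a) (by simp only [val1]; exact_mod_cast h.1),
      ev_neg (cont2' c d g b e) (by simp only [val2]; exact_mod_cast h.2)] with p h1 h2
    exact (seg_disj (Or.inr ⟨h1, h2⟩)).symm

theorem ev_cnt (q : Bool) (a b c d e g : ℤ × ℤ) (hq : q = true → a = c)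
    (h : cnt q a b c d ≤ 1) :
    ∀ᶠ p in 𝓝 ((0 : ℝ), (0 : ℝ)),
      ((segment ℝ (toC a) (bend b e p.1) ∩ segment ℝ (toC c) (bend d g p.2)) \ {toC a}).encard ≤
        (cnt q a b c d : ℕ∞) := by
  unfold cnt at h ⊢
  by_cases hq' : q = true
  · rw [if_pos hq'] at h ⊢
    obtain rfl := hq hq'
    by_cases ho : ori a b d ≠ 0
    · rw [if_pos ho]
      filter_upwards [ev_ne (cont2 a b e d g) (by simp only [val2]; exact_mod_cast ho)] with p hp
      rw [seg_end hp]
      simp
    · rw [if_neg ho] at h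
      omega
  · rw [if_neg hq'] at h ⊢
    by_cases hd : dis a b c d = true
    · rw [if_pos hd]
      filter_upwards [ev_dis a b c d e g hd] with p hp
      rw [hp.inter_eq]
      simp
    · rw [if_neg hd] at h ⊢
      by_cases ho : ori a b c ≠ 0
      · rw [if_pos ho]
        filter_upwards [ev_ne (cont1 a b e c) (by simp only [val1]; exact_mod_cast ho)] with p hp
        have h1 := seg_subsingleton (d := bend d g p.2) hp
        refine (Set.encard_le_encard Set.sdiff_subset).trans ?_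
        simpa using Set.encard_le_one_iff_subsingleton.2 h1
      · rw [if_neg ho] at h
        omega

/-- The arc of a copy. -/
noncomputable def arcOf {n k : ℕ} (s t : Fin k → Fin n) (P : PData n k) (i : Fin k) (x : ℝ) :
    ℝ → ℂ :=
  brk (toC (P.pt (s i))) (bend (P.bd i) (P.dr i) x) (toC (P.pt (t i)))

theorem inter_le {n k : ℕ} (s t : Fin k → Fin n) (P : PData n k) (i j : Fin k)
    (h : cnt4 s t P i j ≤ 1) (hi : ori (P.pt (s i)) (P.bd i) (P.pt (t i)) ≠ 0) :
    ∀ᶠ p in 𝓝 ((0 : ℝ), (0 : ℝ)),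
      (arcOf s t P i p.1 '' Set.Ioo 0 1 ∩ arcOf s t P j p.2 '' Set.Ioo 0 1).encard ≤
        (cnt4 s t P i j : ℕ∞) := by
  unfold cnt4 at h ⊢
  have e1 := ev_cnt (s i == s j) (P.pt (s i)) (P.bd i) (P.pt (s j)) (P.bd j) (P.dr i) (P.dr j)
    (by intro h; rw [beq_iff_eq] at h; rw [h]) (by omega)
  have e2 := ev_cnt (s i == t j) (P.pt (s i)) (P.bd i) (P.pt (t j)) (P.bd j) (P.dr i) (P.dr j)
    (by intro h; rw [beq_iff_eq] at h; rw [h]) (by omega)
  have e3 := ev_cnt (t i == s j) (P.pt (t i)) (P.bd i) (P.pt (s j)) (P.bd j) (P.dr i) (P.dr j)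
    (by intro h; rw [beq_iff_eq] at h; rw [h]) (by omega)
  have e4 := ev_cnt (t i == t j) (P.pt (t i)) (P.bd i) (P.pt (t j)) (P.bd j) (P.dr i) (P.dr j)
    (by intro h; rw [beq_iff_eq] at h; rw [h]) (by omega)
  have e5 := ev_ne (cont1 (P.pt (s i)) (P.bd i) (P.dr i) (P.pt (t i)))
    (by simp only [val1]; exact_mod_cast hi)
  filter_upwards [e1, e2, e3, e4, e5] with p h1 h2 h3 h4 h5
  have hsub : arcOf s t P i p.1 '' Set.Ioo 0 1 ∩ arcOf s t P j p.2 '' Set.Ioo 0 1 ⊆
      ((((segment ℝ (toC (P.pt (s i))) (bend (P.bd i) (P.dr i) p.1) ∩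
        segment ℝ (toC (P.pt (s j))) (bend (P.bd j) (P.dr j) p.2)) \ {toC (P.pt (s i))}) ∪
      ((segment ℝ (toC (P.pt (s i))) (bend (P.bd i) (P.dr i) p.1) ∩
        segment ℝ (toC (P.pt (t j))) (bend (P.bd j) (P.dr j) p.2)) \ {toC (P.pt (s i))})) ∪
      ((segment ℝ (toC (P.pt (t i))) (bend (P.bd i) (P.dr i) p.1) ∩
        segment ℝ (toC (P.pt (s j))) (bend (P.bd j) (P.dr j) p.2)) \ {toC (P.pt (t i))})) ∪
      ((segment ℝ (toC (P.pt (t i))) (bend (P.bd i) (P.dr i) p.1) ∩
        segment ℝ (toC (P.pt (t j))) (bend (P.bd j) (P.dr j) p.2)) \ {toC (P.pt (t i))}) := by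
    rintro z ⟨hz1, hz2⟩
    have hn := brk_ends h5
    have hz1' := brk_image _ _ _ hz1
    have hz2' := brk_image _ _ _ hz2
    have hne1 : z ≠ toC (P.pt (s i)) := by
      rintro rfl; exact hn.1 hz1
    have hne2 : z ≠ toC (P.pt (t i)) := by
      rintro rfl; exact hn.2 hz1
    rw [segment_symm ℝ (bend (P.bd i) (P.dr i) p.1)] at hz1'
    rw [segment_symm ℝ (bend (P.bd j) (P.dr j) p.2)] at hz2'
    simp only [Set.mem_union, Set.mem_inter_iff, Set.mem_sdiff, Set.mem_singleton_iff] at hz1' hz2' ⊢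
    tauto
  refine (Set.encard_le_encard hsub).trans ?_
  push_cast
  refine (Set.encard_union_le _ _).trans (add_le_add ?_ h4)
  refine (Set.encard_union_le _ _).trans (add_le_add ?_ h3)
  exact (Set.encard_union_le _ _).trans (add_le_add h1 h2)

/-- Two copies of the same edge do not cross. -/
theorem copies {n k : ℕ} (s t : Fin k → Fin n) (P : PData n k) (i : Fin k)
    (h : okEdge (P.pt (s i)) (P.bd i) (P.pt (t i)) (P.dr i) = true) :
    ∀ᶠ p in 𝓝 ((0 : ℝ), (0 : ℝ)), p.1 ≠ p.2 →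
      arcOf s t P i p.1 '' Set.Ioo 0 1 ∩ arcOf s t P i p.2 '' Set.Ioo 0 1 = ∅ := by
  unfold okEdge at h
  simp only [Bool.and_eq_true, decide_eq_true_eq] at h
  obtain ⟨h1, h2⟩ := h
  set a := P.pt (s i) with ha
  set b := P.bd i with hb
  set c := P.pt (t i) with hc
  set d := P.dr i with hd
  have hor : (ori a b c : ℝ) ≠ 0 := by exact_mod_cast h1
  have e1 : ∀ᶠ p in 𝓝 ((0 : ℝ), (0 : ℝ)), 0 < orC (toC a) (bend b d p.1) (toC c) * (ori a b c : ℝ) :=
    ev_pos (f := fun p => orC (toC a) (bend b d p.1) (toC c) * (ori a b c : ℝ))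
      ((cont1 a b d c).mul continuous_const) (by
        simp only [val1]
        exact mul_self_pos.2 hor)
  have e2 : ∀ᶠ p in 𝓝 ((0 : ℝ), (0 : ℝ)), 0 < orC (toC a) (bend b d p.2) (toC c) * (ori a b c : ℝ) :=
    ev_pos (f := fun p => orC (toC a) (bend b d p.2) (toC c) * (ori a b c : ℝ))
      ((cont1' a b d c).mul continuous_const) (by
        simp only [val1]
        exact mul_self_pos.2 hor)
  filter_upwards [e1, e2] with p h3 h4 hne
  have h2' : (0 : ℝ) < ((b.1 - a.1) * d.2 - (b.2 - a.2) * d.1) *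
      ((c.1 - b.1) * d.2 - (c.2 - b.2) * d.1) := by exact_mod_cast h2
  set σ : ℝ := (b.1 - a.1) * d.2 - (b.2 - a.2) * d.1 with hσ
  set ρ : ℝ := (c.1 - b.1) * d.2 - (c.2 - b.2) * d.1 with hρ
  have hsub : p.2 - p.1 ≠ 0 := sub_ne_zero.2 (Ne.symm hne)
  have hσ0 : σ ≠ 0 := by
    rintro h0
    rw [h0] at h2'
    simp at h2'
  have hρ0 : ρ ≠ 0 := by
    rintro h0
    rw [h0] at h2'
    simp at h2'
  have k1 : orC (toC a) (bend b d p.1) (bend b d p.2) = (p.2 - p.1) * σ := by
    simp only [orC, toC, bend, hσ]; ring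
  have k1' : orC (toC a) (bend b d p.2) (bend b d p.1) = (p.1 - p.2) * σ := by
    simp only [orC, toC, bend, hσ]; ring
  have k2 : orC (toC c) (bend b d p.1) (bend b d p.2) = -((p.2 - p.1) * ρ) := by
    simp only [orC, toC, bend, hρ]; ring
  have k3 : orC (bend b d p.1) (toC c) (bend b d p.2) = (p.2 - p.1) * ρ := by
    simp only [orC, toC, bend, hρ]; ring
  refine brk_copies ?_ ?_ ?_ ?_ ?_
  · rw [k1]; exact mul_ne_zero hsub hσ0
  · rw [k2]; exact neg_ne_zero.2 (mul_ne_zero hsub hρ0)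
  · rw [k1, k3]
    have : (p.2 - p.1) * σ * ((p.2 - p.1) * ρ) = (p.2 - p.1) ^ 2 * (σ * ρ) := by ring
    rw [this]
    exact mul_pos (by positivity) h2'
  · have h5 := mul_pos h3 h4
    have : orC (toC a) (bend b d p.1) (toC c) * (ori a b c : ℝ) *
      (orC (toC a) (bend b d p.2) (toC c) * (ori a b c : ℝ)) =
      orC (toC a) (bend b d p.1) (toC c) * orC (toC a) (bend b d p.2) (toC c) *
        ((ori a b c : ℝ) * (ori a b c : ℝ)) := by ring
    rw [this] at h5
    exact (pos_iff_pos_of_mul_pos h5).2 (mul_self_pos.2 hor)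
  · rw [k1, k1']
    have key : ∀ {X Y o r : ℝ}, 0 < X * o → 0 < Y * o → r ≠ 0 → 0 < r * X ∨ 0 < (-r) * Y := by
      intro X Y o r hX hY hr
      rcases lt_or_gt_of_ne hr with h | h <;> rcases lt_trichotomy o 0 with ho | ho | ho
      · have hX' : X < 0 := by nlinarith
        exact Or.inl (mul_pos_of_neg_of_neg h hX')
      · subst ho; simp at hX
      · have hY' : 0 < Y := by nlinarith
        exact Or.inr (mul_pos (by linarith) hY')
      · have hY' : Y < 0 := by nlinarith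
        exact Or.inr (mul_pos_of_neg_of_neg (by linarith) hY')
      · subst ho; simp at hX
      · have hX' : 0 < X := by nlinarith
        exact Or.inl (mul_pos h hX')
    have := key h3 h4 (mul_ne_zero hsub hσ0)
    have h6 : (p.1 - p.2) * σ = -((p.2 - p.1) * σ) := by ring
    rw [h6]
    exact this

theorem avoidE {n k : ℕ} (s t : Fin k → Fin n) (P : PData n k) (i : Fin k) (v : Fin n)
    (hi : ori (P.pt (s i)) (P.bd i) (P.pt (t i)) ≠ 0)
    (h : (v = s i ∨ v = t i) ∨ (ori (P.pt (s i)) (P.bd i) (P.pt v) ≠ 0 ∧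
      ori (P.pt (t i)) (P.bd i) (P.pt v) ≠ 0)) :
    ∀ᶠ p in 𝓝 ((0 : ℝ), (0 : ℝ)), toC (P.pt v) ∉ arcOf s t P i p.1 '' Set.Ioo 0 1 := by
  have e5 := ev_ne (cont1 (P.pt (s i)) (P.bd i) (P.dr i) (P.pt (t i)))
    (by simp only [val1]; exact_mod_cast hi)
  rcases h with (rfl | rfl) | ⟨h1, h2⟩
  · filter_upwards [e5] with p h5
    exact (brk_ends h5).1
  · filter_upwards [e5] with p h5
    exact (brk_ends h5).2
  · filter_upwards [ev_ne (cont1 (P.pt (s i)) (P.bd i) (P.dr i) (P.pt v))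
      (by simp only [val1]; exact_mod_cast h1),
      ev_ne (cont1 (P.pt (t i)) (P.bd i) (P.dr i) (P.pt v))
      (by simp only [val1]; exact_mod_cast h2)] with p h3 h4
    exact fun hm => brk_avoid h3 h4 (brk_image _ _ _ hm)

theorem geo_sum_fib {k : ℕ} (w : Fin k → ℕ) (i : Fin k) :
    (∑ e : Σ i, Fin (w i), if i = e.1 then 1 else 0) = w i := by
  rw [Fintype.sum_sigma]
  rw [Finset.sum_eq_single i]
  · simp
  · intro b _ hb
    simp [Ne.symm hb]
  · intro h
    exact absurd (Finset.mem_univ i) h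

theorem sum_list {k : ℕ} (w : Fin k → ℕ) (L : List (Fin k × Fin k)) :
    (∑ e : Σ i, Fin (w i), ∑ f : Σ i, Fin (w i), (if (e.1, f.1) ∈ L then 1 else 0)) ≤
      (L.map fun p => w p.1 * w p.2).sum := by
  induction L with
  | nil => simp
  | cons p L ih =>
    have h1 : ∀ e f : Σ i, Fin (w i), (if (e.1, f.1) ∈ p :: L then 1 else 0) ≤
        (if p.1 = e.1 then 1 else 0) * (if p.2 = f.1 then 1 else 0) +
          (if (e.1, f.1) ∈ L then 1 else 0) := by
      intro e f
      by_cases h : (e.1, f.1) ∈ L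
      · simp [h]
      · by_cases h' : (e.1, f.1) = p
        · have : p.1 = e.1 ∧ p.2 = f.1 := by rw [← h']; exact ⟨rfl, rfl⟩
          rw [if_pos this.1, if_pos this.2]
          split_ifs <;> simp
        · rw [if_neg (by simp [h, h'])]
          exact Nat.zero_le _
    refine (Finset.sum_le_sum fun e _ => Finset.sum_le_sum fun f _ => h1 e f).trans ?_
    simp only [Finset.sum_add_distrib]
    rw [List.map_cons, List.sum_cons]
    refine add_le_add (le_of_eq ?_) ih
    rw [← Finset.sum_mul_sum, geo_sum_fib, geo_sum_fib]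

/-- The polygonal drawings give drawings of the multiplications. -/
theorem geo {n k : ℕ} (s t : Fin k → Fin n) (P : PData n k) (L : List (Fin k × Fin k))
    (h : good s t P L = true) (w : Fin k → ℕ) :
    ∃ D : Drawing (mul s w) (mul t w), crossings D ≤ (L.map fun p => w p.1 * w p.2).sum := by
  classical
  unfold good at h
  simp only [Bool.and_eq_true, List.all_eq_true, List.mem_finRange, true_implies,
    Bool.or_eq_true, beq_iff_eq, bne_iff_ne, ne_eq, Bool.not_eq_true', decide_eq_false_iff_not,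
    decide_eq_true_eq, List.contains_iff_mem] at h
  obtain ⟨⟨⟨h1, h2⟩, h3⟩, h4⟩ := h
  have hor : ∀ i, ori (P.pt (s i)) (P.bd i) (P.pt (t i)) ≠ 0 := by
    intro i
    have := h2 i
    unfold okEdge at this
    simp only [Bool.and_eq_true, decide_eq_true_eq] at this
    exact this.1
  have hcnt : ∀ i j : Fin k, i < j → cnt4 s t P i j ≤ if (i, j) ∈ L then 1 else 0 := by
    intro i j hij
    rcases h4 i j with h | h
    · exact absurd hij h
    · exact h
  have hcnt1 : ∀ i j : Fin k, i < j → cnt4 s t P i j ≤ 1 := by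
    intro i j hij
    refine (hcnt i j hij).trans ?_
    split_ifs <;> simp
  have E1 : ∀ᶠ p in 𝓝 ((0 : ℝ), (0 : ℝ)), ∀ i,
      orC (toC (P.pt (s i))) (bend (P.bd i) (P.dr i) p.1) (toC (P.pt (t i))) ≠ 0 :=
    Filter.eventually_all.2 fun i => ev_ne (cont1 (P.pt (s i)) (P.bd i) (P.dr i) (P.pt (t i)))
      (by simp only [val1]; exact_mod_cast hor i)
  have E2 : ∀ᶠ p in 𝓝 ((0 : ℝ), (0 : ℝ)), ∀ i v,
      toC (P.pt v) ∉ arcOf s t P i p.1 '' Set.Ioo 0 1 :=
    Filter.eventually_all.2 fun i => Filter.eventually_all.2 fun v =>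
      avoidE s t P i v (hor i) (h3 i v)
  have E3 : ∀ᶠ p in 𝓝 ((0 : ℝ), (0 : ℝ)), ∀ i, p.1 ≠ p.2 →
      arcOf s t P i p.1 '' Set.Ioo 0 1 ∩ arcOf s t P i p.2 '' Set.Ioo 0 1 = ∅ :=
    Filter.eventually_all.2 fun i => copies s t P i (h2 i)
  have E4 : ∀ᶠ p in 𝓝 ((0 : ℝ), (0 : ℝ)), ∀ i j, i < j →
      (arcOf s t P i p.1 '' Set.Ioo 0 1 ∩ arcOf s t P j p.2 '' Set.Ioo 0 1).encard ≤
        (cnt4 s t P i j : ℕ∞) := by
    refine Filter.eventually_all.2 fun i => Filter.eventually_all.2 fun j => ?_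
    by_cases hij : i < j
    · filter_upwards [inter_le s t P i j (hcnt1 i j hij) (hor i)] with p hp _
      exact hp
    · exact Filter.Eventually.of_forall fun p hp => absurd hp hij
  obtain ⟨δ, hδ, hE⟩ := Metric.eventually_nhds_iff.1 ((E1.and E2).and (E3.and E4))
  have hx : ∀ c : ℕ, 0 < δ / ((c : ℝ) + 2) ∧ δ / ((c : ℝ) + 2) < δ := by
    intro c
    have hc : (0 : ℝ) ≤ c := Nat.cast_nonneg c
    refine ⟨by positivity, ?_⟩
    rw [div_lt_iff₀ (by linarith)]
    nlinarith
  have hxi : ∀ c d : ℕ, δ / ((c : ℝ) + 2) = δ / ((d : ℝ) + 2) → c = d := by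
    intro c d hcd
    have hc : (0 : ℝ) ≤ c := Nat.cast_nonneg c
    have hd : (0 : ℝ) ≤ d := Nat.cast_nonneg d
    rw [div_eq_div_iff (by linarith) (by linarith)] at hcd
    have := mul_left_cancel₀ hδ.ne' hcd
    have h' : (c : ℝ) = d := by linarith
    exact_mod_cast h'
  have hE' : ∀ c d : ℕ, dist ((δ / ((c : ℝ) + 2)), (δ / ((d : ℝ) + 2))) ((0 : ℝ), (0 : ℝ)) < δ := by
    intro c d
    rw [Prod.dist_eq]
    simp only [Real.dist_eq, sub_zero]
    rw [abs_of_pos (hx c).1, abs_of_pos (hx d).1]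
    exact max_lt (hx c).2 (hx d).2
  have hAll := fun c d : ℕ => hE (hE' c d)
  let A : (Σ i, Fin (w i)) → ℝ → ℂ := fun e => arcOf s t P e.1 (δ / (((e.2 : ℕ) : ℝ) + 2))
  have hI : ∀ e f : Σ i, Fin (w i), e ≠ f →
      (A e '' Set.Ioo 0 1 ∩ A f '' Set.Ioo 0 1).encard ≤
        (((if (e.1, f.1) ∈ L then 1 else 0) + (if (f.1, e.1) ∈ L then 1 else 0) : ℕ) : ℕ∞) := by
    rintro ⟨i, c⟩ ⟨j, d⟩ hne
    rcases lt_trichotomy i j with hij | hij | hij
    · refine ((hAll c d).2.2 i j hij).trans ?_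
      have := hcnt i j hij
      have h5 : cnt4 s t P i j ≤
          (if (i, j) ∈ L then 1 else 0) + (if (j, i) ∈ L then 1 else 0) := by omega
      exact_mod_cast h5
    · subst hij
      have hcd : (c : ℕ) ≠ d := by
        intro h
        exact hne (by rw [Fin.ext h])
      have := (hAll c d).2.1 i (fun h => hcd (hxi _ _ h))
      have h6 : A ⟨i, c⟩ '' Set.Ioo 0 1 ∩ A ⟨i, d⟩ '' Set.Ioo 0 1 = ∅ := this
      rw [h6, Set.encard_empty]
      exact zero_le
    · rw [Set.inter_comm]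
      refine ((hAll d c).2.2 j i hij).trans ?_
      have := hcnt j i hij
      have h5 : cnt4 s t P j i ≤
          (if (i, j) ∈ L then 1 else 0) + (if (j, i) ∈ L then 1 else 0) := by omega
      exact_mod_cast h5
  let D : Drawing (mul s w) (mul t w) :=
    { pt := fun v => toC (P.pt v)
      pt_inj := by
        intro v v' hv
        rcases h1 v v' with h | h
        · exact h
        · exact absurd (toC_inj hv) h
      arc := A
      arc_cont := fun e => brk_cont _ _ _
      arc_inj := fun e => brk_inj ((hAll e.2 0).1.1 e.1)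
      arc_zero := fun e => brk_zero _ _ _
      arc_one := fun e => brk_one _ _ _
      avoid := by
        intro e v x hx hv
        exact (hAll e.2 0).1.2 e.1 v ⟨x, hx, hv⟩
      fin := by
        intro e f hef
        exact Set.finite_of_encard_le_coe (hI e f hef) }
  refine ⟨D, ?_⟩
  have hcr : ∀ e f : Σ i, Fin (w i), e ≠ f → cross D e f ≤
      (if (e.1, f.1) ∈ L then 1 else 0) + (if (f.1, e.1) ∈ L then 1 else 0) := by
    intro e f hef
    have h5 := hI e f hef
    have hfin := D.fin e f hef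
    have h6 : ((A e '' Set.Ioo 0 1 ∩ A f '' Set.Ioo 0 1).ncard : ℕ∞) ≤
        (((if (e.1, f.1) ∈ L then 1 else 0) + (if (f.1, e.1) ∈ L then 1 else 0) : ℕ) : ℕ∞) := by
      rw [Set.Finite.cast_ncard_eq hfin]
      exact h5
    exact_mod_cast h6
  have hsum : (∑ e : Σ i, Fin (w i), ∑ f : Σ i, Fin (w i), if e = f then 0 else cross D e f) ≤
      2 * (L.map fun p => w p.1 * w p.2).sum := by
    have h5 : (∑ e : Σ i, Fin (w i), ∑ f : Σ i, Fin (w i), if e = f then 0 else cross D e f) ≤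
        ∑ e : Σ i, Fin (w i), ∑ f : Σ i, Fin (w i),
          ((if (e.1, f.1) ∈ L then 1 else 0) + (if (f.1, e.1) ∈ L then 1 else 0)) := by
      refine Finset.sum_le_sum fun e _ => Finset.sum_le_sum fun f _ => ?_
      by_cases hef : e = f
      · rw [if_pos hef]; exact Nat.zero_le _
      · rw [if_neg hef]; exact hcr e f hef
    refine h5.trans ?_
    simp only [Finset.sum_add_distrib]
    rw [two_mul]
    refine add_le_add (sum_list w L) ?_
    rw [Finset.sum_comm]
    exact sum_list w L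
  unfold crossings
  refine Nat.div_le_of_le_mul ?_
  exact hsum

end Pool.Agent.KUR
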