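import Pool.Agent.KUR.Real0
import Pool.Agent.KUR.Geo

set_option autoImplicit false

open Finset

namespace Pool.Agent.KUR

theorem real_of_good (P : PData 12 20) (L : List (Fin 20 × Fin 20))
    (h : good gs gt P L = true) : Real L := by
  intro w
  obtain ⟨D, hD⟩ := geo gs gt P L h w
  have h1 : crM w ≤ crossings D := Nat.sInf_le (Set.mem_range_self D)
  exact h1.trans hD

end Pool.Agent.KUR
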