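import Pool.Agent.KUR.Real0
import Pool.Agent.KUR.RealG

set_option autoImplicit false

open Finset

namespace Pool.Agent.KUR

theorem real_00_3_3 : Real (pat00 (4, 7) (4, 7)) :=
  real_of_good ⟨![(-152, -98), (149, -128), (51, 102), (68, 60), (12, -79), (22, -2), (-150, -702), (152, -731), (52, -501), (70, -539), (10, -679), (22, -598)],
    ![(-140, -71), (-121, 81), (132, 102), (119, 38), (32, -12), (41, 139), (20, -98), (48, 39), (120, 69), (-140, -669), (-120, -522), (130, -500), (118, -558), (29, -612), (42, -461), (20, -699), (51, -560), (118, -529), (-599, -299), (599, -299)],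
    ![(-1, 1), (-1, 1), (0, 1), (0, 1), (0, -1), (0, -1), (0, -1), (0, -1), (1, 0), (-1, 1), (-1, 1), (0, 1), (0, 1), (0, -1), (0, -1), (0, -1), (0, -1), (1, 0), (1, 0), (1, 0)]⟩ _ (by decide +kernel)

theorem real_10_0 : Real (pat10 4 0 (0, 2)) :=
  real_of_good ⟨![(-799, 2), (798, 1), (2, -498), (-1002, 499), (2, 500), (-1000, -498), (-151, -20), (151, 42), (62, -11), (121, 79), (132, 12), (12, 78)],
    ![(-400, 249), (-899, -249), (401, -248), (-1, 1501), (1, -299), (-499, -538), (-501, 539), (-1040, -1), (-2001, -1202), (128, -139), (-39, 72), (98, -111), (138, 101), (112, 29), (48, -62), (108, 41), (81, 69), (78, 8), (-480, -9), (472, 22)],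
    ![(-1, 0), (0, -1), (-1, 0), (0, 1), (-1, -1), (-1, -1), (-1, 1), (1, -1), (-1, -1), (-1, 1), (-1, 0), (0, 1), (0, 1), (-1, 1), (0, -1), (1, -1), (-1, -1), (-1, -1), (-1, 1), (-1, -1)]⟩ _ (by decide +kernel)

theorem real_10_1 : Real (pat10 4 0 (3, 4)) :=
  real_of_good ⟨![(-800, -1), (799, 1), (2, -499), (-998, 500), (-2, 502), (-1000, -502), (-149, -132), (149, -21), (102, 60), (40, -80), (39, -121), (71, 128)],
    ![(-398, 251), (-899, -251), (400, -249), (0, 1499), (0, -299), (-502, -540), (-502, 539), (-1041, 0), (-2000, -1201), (20, -101), (-60, 48), (72, -69), (80, -132), (82, -8), (110, 138), (29, -102), (28, 1), (80, 109), (-478, -71), (470, -10)],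
    ![(-1, 0), (0, -1), (-1, 0), (0, 1), (-1, -1), (-1, -1), (-1, 1), (1, -1), (-1, -1), (0, 1), (-1, 0), (1, 1), (0, 1), (0, -1), (-1, -1), (1, -1), (-1, -1), (0, -1), (-1, 1), (-1, -1)]⟩ _ (by decide +kernel)

theorem real_10_10 : Real (pat10 4 3 (1, 4)) :=
  real_of_good ⟨![(-798, 2), (798, 1), (0, -501), (-999, 498), (-2, 499), (-998, -498), (-151, -91), (151, -11), (141, 91), (11, -21), (-91, -39), (-18, -20)],
    ![(-402, 250), (-900, -250), (402, -249), (2, 1498), (-2, -298), (-498, -540), (-500, 540), (-1042, -2), (-2001, -1198), (-50, -99), (-130, 99), (118, -12), (111, -51), (-91, -18), (-11, -10), (-12, -82), (38, 18), (58, 30), (-480, -49), (470, -12)],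
    ![(-1, 0), (0, -1), (-1, 0), (0, 1), (-1, -1), (-1, -1), (-1, 1), (1, -1), (-1, -1), (-1, 1), (0, 1), (1, 1), (-1, 1), (1, -1), (0, -1), (0, -1), (-1, -1), (0, -1), (-1, 1), (-1, -1)]⟩ _ (by decide +kernel)

theorem real_10_11 : Real (pat10 4 3 (4, 7)) :=
  real_of_good ⟨![(-799, 2), (800, 0), (-1, -499), (-999, 500), (-2, 498), (-1001, -500), (-149, 1), (148, 142), (10, 119), (98, -1), (-11, -109), (-111, -10)],
    ![(-400, 249), (-899, -249), (399, -251), (0, 1502), (-2, -298), (-498, -542), (-498, 542), (-1038, 2), (-1999, -1199), (-80, -92), (-68, 111), (48, 129), (71, 128), (20, 10), (-91, 38), (82, -119), (-41, -18), (79, 22), (-479, -2), (472, 72)],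
    ![(-1, 0), (0, -1), (-1, 0), (0, 1), (-1, -1), (-1, -1), (-1, 1), (1, -1), (-1, -1), (0, 1), (1, 2), (-1, 0), (-1, 0), (1, -1), (0, -1), (0, -1), (-1, -1), (0, 1), (-1, 1), (-1, -1)]⟩ _ (by decide +kernel)

theorem real_10_12 : Real (pat10 4 4 (0, 2)) :=
  real_of_good ⟨![(-799, 2), (799, 0), (-2, -502), (-1001, 498), (-1, 501), (-1002, -499), (-149, 138), (150, -48), (-101, 89), (12, 20), (-21, 9), (89, 91)],
    ![(-398, 252), (-899, -251), (401, -249), (2, 1499), (-2, -299), (-498, -538), (-502, 541), (-1039, -2), (-2001, -1199), (-68, -30), (121, 100), (82, -130), (140, 52), (-58, 71), (-42, 99), (138, -58), (142, 62), (20, 48), (-481, 72), (468, -28)],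
    ![(-1, 0), (0, -1), (-1, 0), (0, 1), (-1, -1), (-1, -1), (-1, 1), (1, -1), (-1, -1), (0, 1), (1, 0), (0, 1), (0, 1), (0, 1), (-1, 1), (2, -1), (-1, 0), (1, 0), (-1, 0), (-1, -1)]⟩ _ (by decide +kernel)

theorem real_10_13 : Real (pat10 4 4 (1, 2)) :=
  real_of_good ⟨![(-800, 2), (799, -2), (2, -499), (-1001, 498), (0, 500), (-1002, -502), (-150, 118), (148, -82), (-90, -1), (18, 79), (-111, 90), (61, -91)],
    ![(-401, 248), (-902, -249), (400, -252), (1, 1502), (-1, -298), (-498, -542), (-498, 539), (-1041, -2), (-2001, -1200), (-30, 129), (-109, -101), (99, -139), (121, -110), (-51, 102), (21, -78), (81, 142), (60, -8), (19, -11), (-478, 58), (469, -41)],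
    ![(-1, 0), (0, -1), (-1, 0), (0, 1), (-1, -1), (-1, -1), (-1, 1), (1, -1), (-1, -1), (3, 1), (0, 1), (-1, 1), (0, 1), (-1, -1), (-1, 1), (-2, -1), (0, 1), (-1, 1), (-1, 0), (-1, -1)]⟩ _ (by decide +kernel)

theorem real_10_14 : Real (pat10 4 4 (1, 3)) :=
  real_of_good ⟨![(-798, 0), (802, -2), (-2, -500), (-1001, 502), (2, 499), (-998, -502), (-149, 108), (150, 98), (-71, -52), (31, 48), (-109, 22), (110, -28)],
    ![(-398, 248), (-902, -249), (402, -252), (2, 1500), (2, -298), (-501, -538), (-501, 539), (-1038, 0), (-2001, -1199), (-78, 90), (51, 80), (90, -118), (122, 129), (-119, -21), (81, -41), (-81, -40), (28, 39), (-8, -10), (-482, 48), (472, 50)],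
    ![(-1, 0), (0, -1), (-1, 0), (0, 1), (-1, -1), (-1, -1), (-1, 1), (1, -1), (-1, -1), (1, 0), (0, 1), (-1, 1), (0, 1), (-1, -1), (-1, 0), (-1, -1), (1, 0), (-1, 0), (-1, 0), (-1, -1)]⟩ _ (by decide +kernel)

theorem real_10_15 : Real (pat10 4 4 (3, 5)) :=
  real_of_good ⟨![(-799, 0), (799, 0), (-1, -500), (-1000, 502), (-1, 502), (-1002, -500), (-148, -142), (151, 109), (-52, 110), (101, -39), (-79, 61), (122, -31)],
    ![(-399, 249), (-901, -251), (399, -251), (2, 1502), (1, -300), (-502, -540), (-502, 541), (-1041, -2), (-2001, -1201), (-112, -60), (98, -131), (100, 48), (62, -11), (-60, 20), (48, -52), (-51, -118), (78, -70), (-22, -92), (-481, -68), (471, 50)],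
    ![(-1, 0), (0, -1), (-1, 0), (0, 1), (-1, -1), (-1, -1), (-1, 1), (1, -1), (-1, -1), (-1, -1), (-1, 0), (-1, 1), (-1, -1), (0, -1), (0, 1), (-1, -1), (1, 1), (0, 1), (-1, 1), (-1, -1)]⟩ _ (by decide +kernel)

theorem real_10_16 : Real (pat10 4 4 (2, 6)) :=
  real_of_good ⟨![(-801, 0), (798, 0), (0, -498), (-1001, 501), (0, 498), (-998, -499), (-151, 109), (152, -122), (-18, -11), (91, -90), (-79, -68), (122, -28)],
    ![(-399, 251), (-899, -250), (399, -248), (0, 1499), (-1, -299), (-501, -539), (-500, 538), (-1038, -2), (-1998, -1202), (-99, 102), (-52, 142), (20, -142), (41, -119), (-82, 68), (-42, 80), (-60, -20), (78, -52), (11, 28), (-479, 52), (469, -61)],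
    ![(-1, 0), (0, -1), (-1, 0), (0, 1), (-1, -1), (-1, -1), (-1, 1), (1, -1), (-1, -1), (0, 1), (-1, 1), (0, 1), (1, 0), (1, -2), (-1, 1), (0, -1), (-1, 0), (0, 1), (-1, 0), (-1, -1)]⟩ _ (by decide +kernel)

theorem real_10_17 : Real (pat10 4 4 (2, 7)) :=
  real_of_good ⟨![(-801, -2), (802, 2), (0, -499), (-998, 500), (-1, 502), (-1002, -500), (-148, 100), (149, -48), (-21, 90), (98, -8), (-108, -120), (122, 40)],
    ![(-398, 250), (-900, -250), (401, -248), (-1, 1501), (0, -298), (-498, -542), (-499, 538), (-1042, 2), (-1998, -1199), (-142, -119), (78, 129), (118, 0), (91, -131), (-69, 8), (38, 118), (12, -90), (48, 90), (-89, -98), (-478, 51), (468, -28)],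
    ![(-1, 0), (0, -1), (-1, 0), (0, 1), (-1, -1), (-1, -1), (-1, 1), (1, -1), (-1, -1), (0, 1), (0, 1), (0, 1), (1, 2), (0, -1), (-1, 1), (-1, -1), (-1, 1), (1, 1), (-1, 0), (-1, -1)]⟩ _ (by decide +kernel)

theorem real_10_18 : Real (pat10 4 4 (1, 4)) :=
  real_of_good ⟨![(-798, 0), (802, -2), (-2, -499), (-1002, 501), (-1, 498), (-999, -501), (-150, 32), (151, 68), (-108, 138), (89, -32), (-128, -120), (19, -48)],
    ![(-401, 249), (-902, -249), (398, -250), (-2, 1498), (2, -301), (-502, -542), (-499, 541), (-1041, -1), (-2001, -1198), (-90, -58), (-18, -99), (-22, 141), (121, -49), (-22, 42), (8, 20), (-11, -112), (62, -39), (38, 62), (-480, 9), (468, 32)],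
    ![(-1, 0), (0, -1), (-1, 0), (0, 1), (-1, -1), (-1, -1), (-1, 1), (1, -1), (-1, -1), (1, -1), (-1, 1), (-1, 1), (-1, 1), (1, -1), (0, 1), (-1, -1), (-1, -1), (0, 1), (-1, 0), (-1, -1)]⟩ _ (by decide +kernel)

theorem real_10_19 : Real (pat10 4 4 (1, 6)) :=
  real_of_good ⟨![(-799, -2), (799, 0), (0, -502), (-999, 498), (-2, 502), (-999, -499), (-148, -58), (151, -139), (-10, 41), (72, -122), (-22, -48), (20, -112)],
    ![(-400, 252), (-898, -248), (400, -251), (0, 1500), (-2, -299), (-498, -539), (-500, 538), (-1038, 0), (-1998, -1201), (-131, 0), (-38, -50), (120, 101), (81, 2), (-62, 89), (-18, 40), (-129, -100), (18, -51), (38, 50), (-480, -32), (472, -72)],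
    ![(-1, 0), (0, -1), (-1, 0), (0, 1), (-1, -1), (-1, -1), (-1, 1), (1, -1), (-1, -1), (-1, 1), (0, 1), (0, 1), (0, 1), (1, -1), (1, -1), (-1, 0), (1, -2), (0, 1), (-1, 1), (-1, -1)]⟩ _ (by decide +kernel)

theorem real_10_2 : Real (pat10 4 0 (1, 4)) :=
  real_of_good ⟨![(-801, -2), (801, 1), (1, -502), (-1002, 500), (2, 501), (-1002, -502), (-152, -130), (150, 52), (41, 59), (99, -110), (62, -90), (50, 28)],
    ![(-399, 251), (-898, -252), (401, -249), (0, 1501), (-2, -300), (-498, -542), (-501, 541), (-1042, -2), (-1998, -1201), (22, -18), (21, 12), (119, 121), (102, -58), (30, 19), (69, 28), (118, -132), (92, -9), (91, 38), (-479, -70), (472, 19)],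
    ![(-1, 0), (0, -1), (-1, 0), (0, 1), (-1, -1), (-1, -1), (-1, 1), (1, -1), (-1, -1), (0, 1), (-1, 0), (0, 1), (-1, -1), (1, -1), (1, -1), (1, -1), (-1, -1), (0, 1), (-1, 1), (-1, -1)]⟩ _ (by decide +kernel)

theorem real_10_20 : Real (pat10 4 4 (0, 5)) :=
  real_of_good ⟨![(-800, 1), (799, 0), (2, -502), (-999, 499), (0, 502), (-1001, -498), (-148, -100), (149, -10), (-131, 128), (38, 1), (-112, 19), (40, -82)],
    ![(-400, 252), (-900, -248), (400, -251), (2, 1502), (-2, -301), (-502, -542), (-499, 539), (-1039, 1), (-2001, -1199), (-112, 9), (-48, -108), (81, 42), (88, -22), (-89, 29), (-119, -101), (-42, -62), (71, -128), (-88, 89), (-479, -52), (472, -10)],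
    ![(-1, 0), (0, -1), (-1, 0), (0, 1), (-1, -1), (-1, -1), (-1, 1), (1, -1), (-1, -1), (-1, -1), (-1, 1), (-1, 1), (-1, 1), (1, -1), (0, 1), (-1, -1), (1, -2), (-1, 1), (-1, 1), (-1, -1)]⟩ _ (by decide +kernel)

end Pool.Agent.KUR
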