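import Pool.Agent.KUR.Real0
import Pool.Agent.KUR.RealG

set_option autoImplicit false

open Finset

namespace Pool.Agent.KUR

theorem real_10_21 : Real (pat10 4 4 (5, 6)) :=
  real_of_good ⟨![(-800, 2), (798, 0), (-2, -498), (-999, 501), (-1, 502), (-1002, -498), (-149, -111), (148, 140), (-130, 38), (100, -12), (-28, -48), (72, -38)],
    ![(-401, 249), (-899, -248), (400, -248), (1, 1498), (2, -299), (-502, -540), (-502, 542), (-1042, -1), (-1998, -1202), (-130, -92), (60, -100), (12, 68), (51, 59), (-121, -28), (59, -40), (12, -22), (140, -61), (38, 58), (-481, -59), (468, 70)],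
    ![(-1, 0), (0, -1), (-1, 0), (0, 1), (-1, -1), (-1, -1), (-1, 1), (1, -1), (-1, -1), (-1, 0), (-1, 0), (-1, 0), (-1, 0), (0, 1), (-1, 1), (-1, -1), (1, -1), (0, 1), (-1, 1), (-1, -1)]⟩ _ (by decide +kernel)

theorem real_10_22 : Real (pat10 4 8 (0, 2)) :=
  real_of_good ⟨![(-798, 1), (798, 2), (-1, -500), (-1000, 499), (1, 500), (-999, -499), (-152, -18), (152, -118), (-9, 42), (98, -39), (-21, -10), (-138, 129)],
    ![(-398, 248), (-902, -249), (400, -251), (1, 1500), (-1, -300), (-498, -539), (-500, 540), (-1041, -2), (-1999, -1202), (-82, -49), (-128, 98), (-101, -70), (90, -20), (-41, -9), (-81, 19), (-90, -68), (-19, 131), (28, 32), (-480, -8), (470, -62)],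
    ![(-1, 0), (0, -1), (-1, 0), (0, 1), (-1, -1), (-1, -1), (-1, 1), (1, -1), (-1, -1), (-1, 1), (-1, -1), (1, 0), (-1, 2), (1, 0), (-1, -1), (-2, -1), (-1, -1), (0, 1), (-1, 1), (-1, -1)]⟩ _ (by decide +kernel)

theorem real_10_23 : Real (pat10 4 8 (2, 6)) :=
  real_of_good ⟨![(-798, 2), (800, -1), (2, -498), (-1000, 501), (0, 498), (-1001, -498), (-150, -108), (149, 129), (-11, -49), (39, 61), (-118, 1), (-52, -79)],
    ![(-399, 249), (-898, -249), (402, -248), (1, 1502), (-1, -298), (-500, -538), (-501, 542), (-1038, 2), (-2001, -1199), (-100, -22), (-98, -142), (-38, 129), (80, 48), (-71, -12), (-78, -90), (-129, 82), (141, -78), (28, 0), (-478, -62), (469, 59)],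
    ![(-1, 0), (0, -1), (-1, 0), (0, 1), (-1, -1), (-1, -1), (-1, 1), (1, -1), (-1, -1), (-1, -1), (-1, 1), (-1, 1), (-1, 1), (-1, -1), (2, 1), (1, -1), (1, -1), (-1, -1), (-1, 1), (-1, -1)]⟩ _ (by decide +kernel)

theorem real_10_24 : Real (pat10 4 8 (1, 4)) :=
  real_of_good ⟨![(-800, 1), (802, -2), (-1, -500), (-1001, 498), (0, 499), (-1002, -501), (-148, -42), (148, -108), (-51, -130), (142, 60), (-82, 30), (-18, 11)],
    ![(-402, 251), (-899, -252), (398, -252), (0, 1501), (-2, -300), (-501, -540), (-499, 541), (-1039, -2), (-1998, -1201), (-9, 140), (-108, 8), (19, -131), (130, -81), (-141, -71), (-31, -122), (59, 122), (-42, 41), (108, -108), (-481, -20), (468, -62)],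
    ![(-1, 0), (0, -1), (-1, 0), (0, 1), (-1, -1), (-1, -1), (-1, 1), (1, -1), (-1, -1), (2, 3), (-1, 0), (-1, 1), (1, -1), (-1, -1), (-1, 0), (-1, -1), (1, -1), (-1, 0), (-1, 1), (-1, -1)]⟩ _ (by decide +kernel)

theorem real_10_25 : Real (pat10 4 8 (1, 6)) :=
  real_of_good ⟨![(-799, 0), (798, -2), (-2, -502), (-1001, 500), (-2, 500), (-999, -501), (-148, 110), (151, -90), (-109, -141), (82, -31), (-41, -51), (-18, -51)],
    ![(-401, 249), (-901, -252), (401, -248), (1, 1499), (2, -302), (-500, -542), (-499, 540), (-1039, -2), (-2002, -1200), (-42, -40), (-100, 72), (112, -79), (109, -62), (-118, 50), (-100, -71), (121, -21), (-71, -71), (-22, -92), (-479, 52), (470, -50)],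
    ![(-1, 0), (0, -1), (-1, 0), (0, 1), (-1, -1), (-1, -1), (-1, 1), (1, -1), (-1, -1), (0, 1), (0, 1), (-1, 1), (0, 1), (-1, 2), (-1, 0), (-4, -1), (-3, -1), (-1, 0), (-1, 0), (-1, -1)]⟩ _ (by decide +kernel)

theorem real_10_26 : Real (pat10 4 8 (4, 7)) :=
  real_of_good ⟨![(-802, -1), (799, -2), (0, -499), (-1000, 502), (1, 501), (-1002, -500), (-151, 71), (151, 9), (-38, 98), (21, -12), (-39, -52), (-108, 58)],
    ![(-398, 251), (-901, -250), (401, -248), (-2, 1498), (-1, -302), (-499, -541), (-500, 540), (-1041, -2), (-2001, -1202), (-132, -81), (-101, 52), (-52, 130), (81, -59), (-58, 9), (-69, 82), (-12, -1), (-68, 30), (108, -20), (-482, 30), (469, -2)],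
    ![(-1, 0), (0, -1), (-1, 0), (0, 1), (-1, -1), (-1, -1), (-1, 1), (1, -1), (-1, -1), (0, 1), (-2, 1), (-1, 1), (-1, 1), (1, -1), (-1, -1), (0, -1), (-1, -1), (2, -1), (-1, 0), (-1, -1)]⟩ _ (by decide +kernel)

theorem real_10_27 : Real (pat10 4 10 (0, 2)) :=
  real_of_good ⟨![(-798, -1), (798, -1), (2, -500), (-999, 501), (-2, 498), (-1002, -502), (-148, -58), (149, -91), (-69, 48), (-9, -28), (-100, -50), (-102, 109)],
    ![(-399, 248), (-898, -251), (399, -252), (-2, 1498), (2, -299), (-501, -542), (-499, 538), (-1041, -2), (-2002, -1199), (-139, -142), (-130, -18), (-138, -118), (-10, 79), (-88, -39), (-52, 62), (-29, -88), (-62, 92), (-30, -69), (-481, -32), (470, -48)],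
    ![(-1, 0), (0, -1), (-1, 0), (0, 1), (-1, -1), (-1, -1), (-1, 1), (1, -1), (-1, -1), (0, 1), (-1, -1), (1, 1), (-1, 2), (0, -1), (-1, 0), (0, -1), (-1, -1), (0, 1), (-1, 1), (-1, -1)]⟩ _ (by decide +kernel)

theorem real_10_28 : Real (pat10 4 10 (3, 4)) :=
  real_of_good ⟨![(-798, 0), (798, 0), (0, -500), (-999, 499), (-1, 501), (-998, -500), (-148, -52), (148, 69), (-9, -130), (-68, -69), (-32, 132), (-109, -19)],
    ![(-401, 250), (-899, -248), (398, -250), (1, 1502), (2, -300), (-502, -539), (-498, 539), (-1039, -2), (-2001, -1199), (-52, 89), (-110, -121), (88, -39), (29, 98), (-22, -82), (-98, -140), (-78, 1), (-92, -109), (-41, -118), (-478, -31), (469, 32)],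
    ![(-1, 0), (0, -1), (-1, 0), (0, 1), (-1, -1), (-1, -1), (-1, 1), (1, -1), (-1, -1), (-1, -1), (0, 1), (-1, 0), (-1, 1), (-1, -1), (-1, -1), (-1, -1), (0, -1), (-1, -1), (-1, 1), (-1, -1)]⟩ _ (by decide +kernel)

theorem real_10_29 : Real (pat10 4 10 (1, 4)) :=
  real_of_good ⟨![(-798, 0), (801, 0), (-1, -502), (-1000, 502), (-2, 502), (-1000, -499), (-150, 139), (149, -110), (-101, -78), (-10, -39), (-128, 60), (-49, -32)],
    ![(-402, 250), (-901, -252), (401, -252), (-2, 1498), (2, -301), (-499, -539), (-501, 538), (-1041, -1), (-2000, -1198), (-71, 130), (-129, -88), (-11, -130), (22, 109), (-120, 10), (-99, -71), (-101, 31), (-69, 1), (-50, -68), (-482, 69), (470, -60)],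
    ![(-1, 0), (0, -1), (-1, 0), (0, 1), (-1, -1), (-1, -1), (-1, 1), (1, -1), (-1, -1), (1, 0), (0, 1), (-1, 1), (0, 1), (-1, -1), (-1, 0), (-1, -1), (1, -1), (-1, 0), (-1, 0), (-1, -1)]⟩ _ (by decide +kernel)

theorem real_10_3 : Real (pat10 4 0 (4, 7)) :=
  real_of_good ⟨![(-800, 1), (800, -1), (-1, -499), (-999, 500), (-2, 500), (-1002, -498), (-148, -98), (150, -129), (48, 101), (68, 59), (8, -81), (21, 2)],
    ![(-398, 249), (-901, -250), (399, -252), (2, 1501), (-1, -301), (-499, -539), (-498, 539), (-1039, -1), (-2000, -1199), (-142, -69), (-120, 78), (131, 100), (120, 42), (29, -12), (42, 140), (20, -100), (52, 38), (120, 70), (-480, -51), (469, -69)],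
    ![(-1, 0), (0, -1), (-1, 0), (0, 1), (-1, -1), (-1, -1), (-1, 1), (1, -1), (-1, -1), (-1, 1), (-1, 1), (0, 1), (0, 1), (0, -1), (0, -1), (0, -1), (0, -1), (1, 0), (-1, 1), (-1, -1)]⟩ _ (by decide +kernel)

theorem real_10_30 : Real (pat10 4 10 (4, 7)) :=
  real_of_good ⟨![(-798, 0), (800, 0), (2, -501), (-1002, 502), (0, 501), (-999, -502), (-149, -70), (152, -60), (-82, -91), (-10, 40), (-61, 128), (-118, -82)],
    ![(-401, 251), (-900, -249), (401, -250), (1, 1499), (-2, -299), (-500, -542), (-502, 538), (-1042, 1), (-2001, -1199), (-130, 109), (-131, -40), (110, -1), (109, 102), (-111, -70), (-100, -128), (-28, 131), (-118, 110), (-52, -8), (-480, -39), (470, -28)],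
    ![(-1, 0), (0, -1), (-1, 0), (0, 1), (-1, -1), (-1, -1), (-1, 1), (1, -1), (-1, -1), (-1, 0), (0, 1), (0, 1), (0, 1), (-1, -1), (0, -1), (-1, -1), (1, -1), (-1, -1), (-1, 1), (-1, -1)]⟩ _ (by decide +kernel)

theorem real_10_4 : Real (pat10 4 1 (1, 2)) :=
  real_of_good ⟨![(-799, -2), (801, 2), (-2, -500), (-1001, 502), (2, 498), (-998, -502), (-152, -88), (150, -102), (68, 81), (88, 112), (-141, 122), (141, -102)],
    ![(-401, 251), (-900, -252), (398, -252), (-1, 1501), (0, -300), (-501, -540), (-498, 541), (-1038, -1), (-2001, -1201), (-121, 69), (-142, -88), (11, -119), (78, 20), (-118, 91), (39, -32), (79, 138), (72, -9), (59, -21), (-479, -50), (469, -50)],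
    ![(-1, 0), (0, -1), (-1, 0), (0, 1), (-1, -1), (-1, -1), (-1, 1), (1, -1), (-1, -1), (-1, -1), (-1, 1), (1, 1), (1, -1), (-1, -1), (1, 0), (-1, -1), (1, -1), (1, 5), (-1, 1), (-1, -1)]⟩ _ (by decide +kernel)

theorem real_10_5 : Real (pat10 4 1 (3, 4)) :=
  real_of_good ⟨![(-802, 2), (800, 2), (1, -501), (-999, 500), (-2, 498), (-1000, -500), (-149, -110), (152, -30), (109, -82), (60, -71), (-100, 69), (88, -121)],
    ![(-402, 249), (-900, -248), (398, -251), (2, 1502), (0, -298), (-500, -539), (-502, 541), (-1040, 1), (-1999, -1199), (-131, 18), (139, -131), (122, -100), (119, 52), (49, 140), (61, -81), (-79, 60), (31, -119), (102, -71), (-480, -60), (468, -18)],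
    ![(-1, 0), (0, -1), (-1, 0), (0, 1), (-1, -1), (-1, -1), (-1, 1), (1, -1), (-1, -1), (-1, -1), (-6, 1), (0, 1), (0, 1), (-1, -1), (1, -1), (-1, -1), (1, 0), (-1, -1), (-1, 1), (-1, -1)]⟩ _ (by decide +kernel)

theorem real_10_6 : Real (pat10 4 1 (3, 5)) :=
  real_of_good ⟨![(-800, -1), (801, -2), (2, -498), (-998, 501), (-2, 502), (-998, -500), (-151, 58), (152, 111), (42, -121), (88, -39), (-29, -92), (50, 90)],
    ![(-401, 249), (-899, -248), (398, -250), (-1, 1501), (-2, -299), (-500, -538), (-500, 542), (-1041, 2), (-2000, -1201), (-141, -51), (-71, 99), (130, -69), (51, 61), (-131, -121), (131, -18), (-12, 89), (19, 60), (82, -41), (-482, 30), (469, 51)],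
    ![(-1, 0), (0, -1), (-1, 0), (0, 1), (-1, -1), (-1, -1), (-1, 1), (1, -1), (-1, -1), (0, 1), (-1, 1), (-1, 0), (-1, 0), (-4, -1), (-1, -1), (0, -1), (-1, 0), (-1, 0), (-1, 0), (-1, -1)]⟩ _ (by decide +kernel)

theorem real_10_7 : Real (pat10 4 1 (1, 4)) :=
  real_of_good ⟨![(-798, 2), (802, -2), (-1, -499), (-1000, 499), (-2, 501), (-1000, -501), (-152, 52), (149, 61), (29, -40), (81, 141), (-52, 72), (19, 10)],
    ![(-402, 249), (-902, -252), (398, -250), (1, 1501), (-1, -301), (-499, -539), (-499, 538), (-1039, 1), (-2000, -1200), (-61, 61), (-92, -71), (58, -100), (100, 122), (-78, -122), (81, 42), (-119, 79), (21, 38), (92, -38), (-478, 21), (469, 30)],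
    ![(-1, 0), (0, -1), (-1, 0), (0, 1), (-1, -1), (-1, -1), (-1, 1), (1, -1), (-1, -1), (-1, 0), (0, 1), (0, 1), (0, 1), (-1, -1), (-1, -1), (1, 0), (0, -1), (-1, 0), (-1, 0), (-1, -1)]⟩ _ (by decide +kernel)

end Pool.Agent.KUR
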