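import Pool.Agent.KUR.Real0
import Pool.Agent.KUR.RealG

set_option autoImplicit false

open Finset

namespace Pool.Agent.KUR

theorem real_10_8 : Real (pat10 4 1 (4, 7)) :=
  real_of_good ⟨![(-799, 1), (799, -1), (0, -500), (-998, 499), (-1, 501), (-998, -502), (-150, 52), (151, 92), (30, -51), (72, -80), (-100, 0), (60, 102)],
    ![(-398, 250), (-901, -252), (401, -251), (1, 1502), (0, -301), (-502, -540), (-500, 539), (-1041, 0), (-1999, -1201), (-100, -29), (-141, 119), (92, 80), (131, -31), (-48, -31), (81, 78), (-31, -118), (12, -60), (71, -32), (-482, 20), (472, 40)],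
    ![(-1, 0), (0, -1), (-1, 0), (0, 1), (-1, -1), (-1, -1), (-1, 1), (1, -1), (-1, -1), (-1, 2), (-1, 1), (-1, 0), (-1, 0), (-1, -1), (-1, -1), (-1, -1), (-1, -1), (0, 1), (-1, 0), (-1, -1)]⟩ _ (by decide +kernel)

theorem real_10_9 : Real (pat10 4 3 (3, 4)) :=
  real_of_good ⟨![(-801, 1), (799, -2), (1, -500), (-1001, 502), (0, 501), (-1002, -501), (-150, 90), (151, 88), (118, -11), (42, 28), (-42, 78), (-62, 30)],
    ![(-398, 251), (-899, -248), (400, -248), (2, 1500), (1, -299), (-502, -540), (-502, 539), (-1041, 1), (-1998, -1200), (-62, 79), (-101, -48), (128, 59), (110, 119), (32, 110), (41, -70), (-102, 41), (39, 9), (90, -11), (-480, 39), (472, 39)],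
    ![(-1, 0), (0, -1), (-1, 0), (0, 1), (-1, -1), (-1, -1), (-1, 1), (1, -1), (-1, -1), (-1, 1), (0, 1), (-1, -1), (-1, 1), (-1, -1), (-1, -1), (-1, 0), (0, -1), (-1, -1), (-1, 0), (-1, -1)]⟩ _ (by decide +kernel)

theorem real_11_0_0 : Real (pat11 4 4 0 0) :=
  real_of_good ⟨![(-800, 1), (-500, -2001), (1, -499), (-1001, 498), (0, 498), (-1000, -499), (2798, 2), (2501, -2000), (2001, -498), (2998, 501), (1998, 499), (3002, -501)],
    ![(-402, 249), (-899, -250), (-248, -1250), (-2498, 0), (1, -302), (-498, -540), (-500, 538), (-1039, -2), (-1501, -750), (2402, 252), (2900, -251), (2250, -1250), (4502, -2), (2000, -300), (2500, -541), (2498, 539), (3040, 1), (3499, -752), (998, 2), (1002, -2299)],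
    ![(-1, 0), (0, -1), (0, -1), (1, -1), (-1, -1), (-1, -1), (-1, 1), (1, -1), (-1, -1), (-1, -1), (0, 1), (0, 1), (1, 0), (-1, -1), (-1, 1), (-1, -1), (1, -1), (-1, 1), (-1, 1), (-1, 1)]⟩ _ (by decide +kernel)

theorem real_11_0_1 : Real (pat11 4 4 0 1) :=
  real_of_good ⟨![(-802, -1), (-498, -2000), (0, -499), (-999, 499), (-2, 498), (-999, -500), (2499, 1999), (2302, 99), (2001, -502), (2999, 501), (2000, 499), (2998, -499)],
    ![(-400, 249), (-899, -248), (-251, -1248), (-2499, 1), (0, -299), (-500, -540), (-499, 541), (-1041, -2), (-1499, -748), (2249, 1251), (4000, 499), (2148, -199), (2650, 302), (2002, -298), (2500, -542), (2500, 542), (3038, 0), (2700, -198), (400, 41), (600, -1000)],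
    ![(-1, 0), (0, -1), (0, -1), (1, 0), (-1, -1), (-1, -1), (-1, 1), (1, -1), (-1, -1), (0, -1), (1, 0), (-1, -1), (-1, -1), (-1, -1), (-1, 1), (-1, -1), (1, -1), (-1, 0), (-1, 0), (-1, 0)]⟩ _ (by decide +kernel)

theorem real_11_1_0 : Real (pat11 4 4 1 0) :=
  real_of_good ⟨![(-500, 1999), (-298, 98), (1, -498), (-1000, 500), (0, 501), (-1000, -498), (2800, 0), (2500, -2000), (2001, -500), (2999, 501), (2000, 500), (3002, -501)],
    ![(-248, 1249), (-2001, 500), (-149, -200), (-652, 301), (-1, -298), (-498, -538), (-499, 540), (-1038, 2), (-700, -202), (2399, 249), (2902, -249), (2252, -1251), (4499, -1), (1998, -299), (2499, -541), (2498, 539), (3038, 0), (3499, -749), (1599, 42), (1398, -999)],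
    ![(0, 1), (1, 0), (-1, -1), (-1, 1), (-1, -1), (-1, -1), (-1, 1), (1, -1), (-1, -1), (-1, -1), (0, 1), (0, 1), (1, 0), (-1, -1), (-1, 1), (-1, -1), (1, -1), (-1, 1), (-1, 1), (-1, 1)]⟩ _ (by decide +kernel)

theorem real_11_1_1 : Real (pat11 4 4 1 1) :=
  real_of_good ⟨![(-499, 2001), (-301, 102), (2, -500), (-1000, 501), (0, 501), (-1002, -500), (2500, 2001), (2300, 99), (2001, -502), (2998, 502), (2001, 499), (3000, -502)],
    ![(-251, 1251), (-2002, 501), (-148, -198), (-650, 299), (1, -302), (-501, -539), (-500, 539), (-1040, 0), (-699, -198), (2251, 1252), (4002, 498), (2148, -201), (2650, 300), (2002, -300), (2502, -540), (2502, 538), (3041, 0), (2700, -198), (999, 2298), (998, 100)],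
    ![(0, 1), (1, -1), (-1, -1), (-1, 1), (-1, -1), (-1, -1), (-1, 1), (1, -1), (-1, -1), (0, -1), (1, -1), (-1, -1), (-1, -1), (-1, -1), (-1, 1), (-1, -1), (1, -1), (-1, 0), (-1, 1), (-1, 1)]⟩ _ (by decide +kernel)

theorem real_q_0_0 : Real (patq 4 0 (0, 2)) :=
  real_of_good ⟨![(-798, 1), (798, 2), (-1, -502), (-999, 501), (2, 502), (-999, -499), (251, -19), (549, 40), (461, -12), (520, 78), (531, 12), (410, 81)],
    ![(-400, 249), (-901, -249), (402, -249), (0, 1502), (-1, -299), (-498, -538), (-502, 538), (-1041, 0), (-2002, -1202), (528, -140), (361, 68), (501, -109), (538, 98), (508, 29), (452, -62), (509, 40), (481, 69), (479, 12), (-281, -9), (669, 18)],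
    ![(-1, 0), (0, -1), (-1, 0), (0, 1), (-1, -1), (-1, -1), (-1, 1), (1, -1), (-1, -1), (-1, 1), (-1, 0), (0, 1), (0, 1), (-1, 1), (0, -1), (1, -1), (-1, -1), (-1, -1), (-1, 1), (-1, -1)]⟩ _ (by decide +kernel)

theorem real_q_0_1 : Real (patq 4 0 (3, 4)) :=
  real_of_good ⟨![(-798, -1), (798, 2), (-2, -499), (-1002, 500), (-2, 502), (-998, -502), (251, -128), (549, -22), (501, 58), (440, -78), (441, -119), (470, 130)],
    ![(-402, 249), (-900, -251), (402, -248), (0, 1502), (2, -298), (-501, -540), (-502, 542), (-1041, 0), (-2000, -1198), (419, -101), (340, 51), (471, -71), (479, -132), (480, -12), (512, 138), (428, -102), (432, 2), (481, 109), (-279, -69), (671, -10)],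
    ![(-1, 0), (0, -1), (-1, 0), (0, 1), (-1, -1), (-1, -1), (-1, 1), (1, -1), (-1, -1), (-1, 1), (-1, 0), (1, 1), (0, 1), (0, -1), (-1, -1), (1, -1), (-1, -1), (0, -1), (-1, 1), (-1, -1)]⟩ _ (by decide +kernel)

theorem real_q_0_2 : Real (patq 4 0 (1, 4)) :=
  real_of_good ⟨![(-802, 2), (798, 2), (1, -502), (-1001, 501), (-1, 498), (-1002, -499), (249, -131), (552, 51), (440, 59), (500, -110), (462, -90), (451, 31)],
    ![(-401, 250), (-900, -249), (400, -248), (-2, 1502), (2, -301), (-501, -539), (-502, 538), (-1042, -2), (-2001, -1201), (419, -22), (421, 11), (520, 118), (501, -59), (430, 22), (471, 30), (521, -129), (488, -11), (489, 39), (-282, -70), (671, 21)],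
    ![(-1, 0), (0, -1), (-1, 0), (0, 1), (-1, -1), (-1, -1), (-1, 1), (1, -1), (-1, -1), (0, 1), (-1, 0), (0, 1), (-1, -1), (1, -1), (2, -1), (3, -2), (-1, -1), (0, 1), (-1, 1), (-1, -1)]⟩ _ (by decide +kernel)

theorem real_q_0_3 : Real (patq 4 0 (4, 7)) :=
  real_of_good ⟨![(-801, 2), (800, -2), (0, -501), (-1000, 499), (-2, 501), (-1002, -500), (250, -100), (548, -132), (451, 101), (469, 58), (410, -80), (421, -1)],
    ![(-401, 248), (-901, -252), (402, -251), (-2, 1502), (1, -300), (-500, -541), (-499, 540), (-1040, -2), (-1999, -1201), (259, -71), (279, 78), (532, 101), (520, 38), (431, -12), (441, 141), (419, -102), (448, 42), (522, 72), (-280, -52), (668, -71)],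
    ![(-1, 0), (0, -1), (-1, 0), (0, 1), (-1, -1), (-1, -1), (-1, 1), (1, -1), (-1, -1), (-1, 1), (-1, 1), (0, 1), (0, 1), (0, -1), (0, -1), (0, -1), (0, -1), (1, 0), (-1, 1), (-1, -1)]⟩ _ (by decide +kernel)

theorem real_q_1_0 : Real (patq 4 1 (0, 2)) :=
  real_of_good ⟨![(-799, -2), (801, -2), (-1, -502), (-999, 501), (-2, 498), (-1000, -499), (-549, -20), (-252, 38), (-341, -11), (-278, 81), (-271, 12), (-391, 78)],
    ![(-400, 248), (-902, -248), (399, -248), (-2, 1499), (2, -302), (-499, -538), (-500, 541), (-1039, 2), (-1999, -1198), (-271, -142), (-440, 71), (-301, -108), (-262, 99), (-290, 31), (-352, -60), (-289, 40), (-321, 69), (-318, 8), (-679, -11), (268, 21)],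
    ![(-1, 0), (0, -1), (-1, 0), (0, 1), (-1, -1), (-1, -1), (-1, 1), (1, -1), (-1, -1), (-1, 1), (-1, 0), (0, 1), (0, 1), (0, 1), (0, -1), (1, -1), (-1, -1), (-1, 0), (-1, 1), (-1, -1)]⟩ _ (by decide +kernel)

theorem real_q_1_1 : Real (patq 4 1 (3, 4)) :=
  real_of_good ⟨![(-798, -1), (800, -2), (1, -501), (-1002, 499), (0, 500), (-1002, -502), (-549, -130), (-249, -18), (-302, 60), (-361, -78), (-362, -119), (-331, 128)],
    ![(-402, 251), (-900, -252), (401, -248), (-1, 1500), (-2, -300), (-501, -541), (-500, 541), (-1040, 0), (-2002, -1202), (-378, -98), (-462, 48), (-332, -72), (-321, -130), (-319, -10), (-288, 138), (-371, -98), (-369, -1), (-320, 109), (-680, -70), (268, -11)],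
    ![(-1, 0), (0, -1), (-1, 0), (0, 1), (-1, -1), (-1, -1), (-1, 1), (1, -1), (-1, -1), (0, 1), (-1, 0), (1, 1), (0, 1), (0, -1), (-1, -1), (1, -1), (-1, -1), (0, -1), (-1, 1), (-1, -1)]⟩ _ (by decide +kernel)

theorem real_q_1_2 : Real (patq 4 1 (1, 4)) :=
  real_of_good ⟨![(-798, 2), (799, -2), (0, -498), (-998, 499), (-1, 501), (-999, -499), (-552, -130), (-250, 51), (-361, 61), (-298, -109), (-341, -89), (-352, 29)],
    ![(-398, 251), (-899, -248), (398, -252), (-1, 1501), (-2, -301), (-502, -542), (-498, 539), (-1039, 0), (-1999, -1199), (-381, -21), (-380, 9), (-280, 122), (-298, -60), (-371, 20), (-330, 29), (-282, -128), (-309, -9), (-310, 39), (-681, -71), (271, 21)],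
    ![(-1, 0), (0, -1), (-1, 0), (0, 1), (-1, -1), (-1, -1), (-1, 1), (1, -1), (-1, -1), (0, 1), (-1, 0), (0, 1), (-1, -1), (1, -1), (1, -1), (1, -1), (-1, -1), (0, 1), (-1, 1), (-1, -1)]⟩ _ (by decide +kernel)

theorem real_q_1_3 : Real (patq 4 1 (4, 7)) :=
  real_of_good ⟨![(-802, -2), (799, 1), (-2, -500), (-1001, 500), (1, 501), (-998, -498), (-552, -101), (-249, -132), (-352, 102), (-328, 62), (-388, -81), (-379, -2)],
    ![(-400, 248), (-898, -250), (402, -249), (2, 1501), (2, -299), (-499, -538), (-498, 538), (-1038, -1), (-1999, -1200), (-538, -72), (-518, 79), (-270, 100), (-282, 38), (-372, -10), (-358, 142), (-379, -100), (-352, 40), (-281, 68), (-682, -52), (270, -70)],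
    ![(-1, 0), (0, -1), (-1, 0), (0, 1), (-1, -1), (-1, -1), (-1, 1), (1, -1), (-1, -1), (-1, 1), (-1, 1), (0, 1), (0, 1), (0, -1), (0, -1), (0, -1), (0, -1), (1, 0), (-1, 1), (-1, -1)]⟩ _ (by decide +kernel)

theorem ex_good : ∃ (P : PData 12 20) (L : List (Fin 20 × Fin 20)), good gs gt P L = true :=
  ⟨⟨![(-799, 1), (799, -1), (0, -500), (-998, 499), (-1, 501), (-998, -502), (-150, 52), (151, 92), (30, -51), (72, -80), (-100, 0), (60, 102)],
    ![(-398, 250), (-901, -252), (401, -251), (1, 1502), (0, -301), (-502, -540), (-500, 539), (-1041, 0), (-1999, -1201), (-100, -29), (-141, 119), (92, 80), (131, -31), (-48, -31), (81, 78), (-31, -118), (12, -60), (71, -32), (-482, 20), (472, 40)],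
    ![(-1, 0), (0, -1), (-1, 0), (0, 1), (-1, -1), (-1, -1), (-1, 1), (1, -1), (-1, -1), (-1, 2), (-1, 1), (-1, 0), (-1, 0), (-1, -1), (-1, -1), (-1, -1), (-1, -1), (0, 1), (-1, 0), (-1, -1)]⟩, pat10 4 1 (4, 7), by decide +kernel⟩

end Pool.Agent.KUR
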