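import Pool.Agent.KUR.Data0
import Pool.Agent.KUR.Data1
import Pool.Agent.KUR.Data2
import Pool.Agent.KUR.Data3

set_option autoImplicit false

open Finset

namespace Pool.Agent.KUR

theorem reps : Reps := by
  refine ⟨?_, ?_, ?_, ?_⟩
  · intro p hp q hq
    simp only [rpair, List.mem_cons, List.not_mem_nil, or_false] at hp hq
    rcases hp with rfl | rfl | rfl | rfl <;> rcases hq with rfl | rfl | rfl | rfl
    · exact real_00_0_0
    · exact real_00_0_1
    · exact real_00_0_2
    · exact real_00_0_3
    · exact real_00_1_0
    · exact real_00_1_1
    · exact real_00_1_2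
    · exact real_00_1_3
    · exact real_00_2_0
    · exact real_00_2_1
    · exact real_00_2_2
    · exact real_00_2_3
    · exact real_00_3_0
    · exact real_00_3_1
    · exact real_00_3_2
    · exact real_00_3_3
  · intro x hx
    simp only [rep10, List.mem_cons, List.not_mem_nil, or_false] at hx
    rcases hx with rfl | rfl | rfl | rfl | rfl | rfl | rfl | rfl | rfl | rfl | rfl | rfl | rfl |
      rfl | rfl | rfl | rfl | rfl | rfl | rfl | rfl | rfl | rfl | rfl | rfl | rfl | rfl | rfl |
      rfl | rfl | rfl
    · exact real_10_0
    · exact real_10_1
    · exact real_10_2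
    · exact real_10_3
    · exact real_10_4
    · exact real_10_5
    · exact real_10_6
    · exact real_10_7
    · exact real_10_8
    · exact real_10_9
    · exact real_10_10
    · exact real_10_11
    · exact real_10_12
    · exact real_10_13
    · exact real_10_14
    · exact real_10_15
    · exact real_10_16
    · exact real_10_17
    · exact real_10_18
    · exact real_10_19
    · exact real_10_20
    · exact real_10_21
    · exact real_10_22
    · exact real_10_23
    · exact real_10_24
    · exact real_10_25
    · exact real_10_26
    · exact real_10_27
    · exact real_10_28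
    · exact real_10_29
    · exact real_10_30
  · intro g q hq
    simp only [rpair, List.mem_cons, List.not_mem_nil, or_false] at hq
    rcases hq with rfl | rfl | rfl | rfl <;> fin_cases g
    · exact real_q_0_0
    · exact real_q_1_0
    · exact real_q_0_1
    · exact real_q_1_1
    · exact real_q_0_2
    · exact real_q_1_2
    · exact real_q_0_3
    · exact real_q_1_3
  · intro g g'
    fin_cases g <;> fin_cases g'
    · exact real_11_0_0
    · exact real_11_0_1
    · exact real_11_1_0
    · exact real_11_1_1

theorem exists_drawing (m : Fin 20 → ℕ) : Nonempty (Drawing (mul gs m) (mul gt m)) := by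
  obtain ⟨P, L, h⟩ : ∃ (P : PData 12 20) (L : List (Fin 20 × Fin 20)), good gs gt P L = true :=
    ex_good
  obtain ⟨D, _⟩ := geo gs gt P L h m
  exact ⟨D⟩

end Pool.Agent.KUR
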