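import Pool.Agent.KUR.Real0
import Pool.Agent.KUR.RealG

set_option autoImplicit false

open Finset

namespace Pool.Agent.KUR

theorem real_00_0_0 : Real (pat00 (0, 2) (0, 2)) :=
  real_of_good ⟨![(-148, -18), (152, 39), (61, -11), (120, 82), (128, 10), (8, 78), (-149, -621), (152, -562), (60, -611), (121, -519), (129, -588), (11, -522)],
    ![(128, -141), (-41, 68), (98, -110), (139, 100), (112, 28), (52, -59), (110, 39), (82, 72), (78, 10), (128, -742), (-41, -531), (100, -710), (139, -499), (108, -571), (51, -658), (111, -559), (78, -532), (82, -590), (-601, -302), (601, -299)],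
    ![(-1, 1), (-1, 0), (0, 1), (0, 1), (0, 1), (0, -1), (1, -1), (-1, -1), (-1, -1), (-1, 1), (-1, 0), (0, 1), (0, 1), (-1, 1), (0, -1), (1, -1), (-1, -1), (-1, 0), (1, 0), (1, 0)]⟩ _ (by decide +kernel)

theorem real_00_0_1 : Real (pat00 (0, 2) (3, 4)) :=
  real_of_good ⟨![(-150, -22), (151, 40), (58, -12), (121, 80), (129, 10), (11, 79), (-150, -729), (148, -618), (98, -540), (41, -680), (38, -718), (71, -472)],
    ![(129, -139), (-41, 70), (98, -111), (140, 98), (112, 31), (51, -61), (112, 41), (79, 68), (81, 10), (19, -702), (-62, -551), (70, -672), (78, -730), (82, -609), (111, -458), (28, -702), (29, -601), (81, -492), (-599, -298), (598, -300)],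
    ![(-1, 1), (-1, 0), (0, 1), (0, 1), (0, 1), (0, -1), (1, -1), (-1, -1), (-1, 0), (-1, 1), (-1, 0), (1, 1), (0, 1), (0, -1), (-1, -1), (1, -1), (-1, -1), (0, -1), (1, 0), (1, 0)]⟩ _ (by decide +kernel)

theorem real_00_0_2 : Real (pat00 (0, 2) (1, 4)) :=
  real_of_good ⟨![(-148, -19), (152, 38), (58, -11), (121, 82), (131, 12), (12, 82), (-152, -731), (148, -549), (41, -539), (101, -712), (59, -690), (49, -570)],
    ![(129, -139), (-42, 70), (99, -109), (141, 99), (110, 29), (51, -60), (110, 38), (78, 69), (81, 8), (18, -619), (18, -589), (119, -481), (98, -659), (30, -578), (71, -571), (121, -731), (88, -610), (92, -562), (-602, -301), (601, -302)],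
    ![(-1, 1), (-1, 0), (0, 1), (0, 1), (-1, 1), (0, -1), (1, -1), (-1, -1), (-1, 0), (0, 1), (-1, 0), (0, 1), (-1, -1), (1, -1), (1, -1), (3, -2), (-1, -1), (0, 1), (1, 0), (1, 0)]⟩ _ (by decide +kernel)

theorem real_00_0_3 : Real (pat00 (0, 2) (4, 7)) :=
  real_of_good ⟨![(-150, -21), (150, 40), (59, -11), (120, 82), (132, 8), (10, 78), (-152, -699), (150, -730), (50, -499), (72, -538), (11, -681), (22, -601)],
    ![(130, -142), (-38, 68), (101, -111), (139, 101), (108, 28), (48, -61), (111, 39), (82, 72), (79, 10), (-142, -668), (-121, -522), (131, -500), (118, -558), (30, -609), (41, -462), (18, -700), (52, -558), (120, -528), (-598, -299), (601, -300)],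
    ![(-1, 1), (-1, 0), (0, 1), (0, 1), (-1, 1), (0, -1), (1, -1), (-1, -1), (-1, -1), (-1, 1), (-1, 1), (0, 1), (0, 1), (0, -1), (0, -1), (0, -1), (0, -1), (1, 0), (1, 0), (1, 0)]⟩ _ (by decide +kernel)

theorem real_00_1_0 : Real (pat00 (3, 4) (0, 2)) :=
  real_of_good ⟨![(-151, -128), (148, -19), (98, 59), (42, -78), (41, -122), (72, 130), (-148, -620), (151, -561), (61, -610), (118, -519), (128, -588), (12, -521)],
    ![(22, -99), (-62, 48), (68, -72), (80, -131), (80, -10), (110, 140), (31, -101), (28, 0), (80, 108), (130, -739), (-41, -531), (100, -708), (141, -501), (112, -571), (52, -662), (110, -558), (78, -532), (81, -592), (-598, -299), (598, -302)],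
    ![(0, 1), (-1, 0), (1, 1), (0, 1), (0, -1), (-1, -1), (1, -1), (-1, -1), (0, -1), (-1, 1), (-1, 0), (0, 1), (0, 1), (0, 1), (0, -1), (1, -1), (-1, -1), (-1, 0), (1, 0), (1, 0)]⟩ _ (by decide +kernel)

theorem real_00_1_1 : Real (pat00 (3, 4) (3, 4)) :=
  real_of_good ⟨![(-150, -128), (151, -18), (102, 59), (42, -81), (39, -119), (72, 130), (-150, -730), (152, -622), (99, -540), (41, -680), (42, -720), (71, -472)],
    ![(18, -102), (-60, 48), (68, -70), (82, -131), (78, -8), (111, 139), (30, -100), (28, 1), (80, 108), (20, -702), (-60, -550), (71, -669), (78, -732), (80, -612), (109, -462), (28, -698), (31, -602), (81, -489), (-602, -301), (601, -302)],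
    ![(-1, 1), (-1, 0), (1, 1), (0, 1), (0, -1), (-1, -1), (1, -1), (-1, -1), (0, -1), (-1, 1), (-1, 0), (1, 1), (0, 1), (0, -1), (-1, -1), (1, -1), (-1, -1), (0, -1), (1, 0), (1, 0)]⟩ _ (by decide +kernel)

theorem real_00_1_2 : Real (pat00 (3, 4) (1, 4)) :=
  real_of_good ⟨![(-148, -128), (150, -22), (102, 60), (40, -82), (41, -119), (68, 129), (-151, -732), (152, -548), (38, -542), (102, -709), (61, -692), (50, -570)],
    ![(22, -99), (-59, 48), (69, -68), (79, -129), (79, -11), (110, 142), (28, -101), (30, -2), (81, 110), (21, -618), (22, -588), (120, -480), (99, -660), (31, -579), (71, -568), (118, -731), (92, -611), (91, -562), (-599, -301), (599, -301)],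
    ![(0, 1), (-1, 0), (1, 1), (0, 1), (0, -1), (-1, -1), (1, -1), (-1, -1), (0, -1), (0, 1), (-1, 0), (0, 1), (-1, -1), (1, -1), (1, 0), (1, -1), (-1, -1), (0, 1), (1, 0), (1, 0)]⟩ _ (by decide +kernel)

theorem real_00_1_3 : Real (pat00 (3, 4) (4, 7)) :=
  real_of_good ⟨![(-151, -132), (151, -20), (102, 61), (39, -79), (38, -120), (72, 130), (-150, -702), (152, -728), (48, -501), (68, -540), (12, -678), (21, -599)],
    ![(22, -98), (-60, 52), (70, -72), (80, -131), (82, -9), (110, 141), (30, -101), (30, -1), (78, 108), (-139, -671), (-120, -519), (130, -499), (122, -559), (30, -608), (42, -460), (22, -702), (49, -558), (121, -532), (-598, -299), (601, -300)],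
    ![(0, 1), (-1, 0), (1, 1), (0, 1), (0, -1), (-1, -1), (1, -1), (-1, -1), (0, -1), (-1, 1), (-1, 1), (0, 1), (0, 1), (0, -1), (0, -1), (0, -1), (0, -1), (1, 0), (1, 0), (1, 0)]⟩ _ (by decide +kernel)

theorem real_00_2_0 : Real (pat00 (1, 4) (0, 2)) :=
  real_of_good ⟨![(-152, -131), (152, 48), (41, 58), (99, -111), (59, -88), (49, 31), (-152, -619), (151, -561), (60, -612), (119, -521), (132, -592), (12, -520)],
    ![(21, -18), (20, 9), (118, 120), (102, -58), (32, 21), (68, 30), (122, -132), (89, -9), (88, 41), (128, -741), (-41, -532), (99, -709), (141, -499), (111, -570), (52, -662), (108, -558), (82, -529), (82, -588), (-598, -298), (599, -302)],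
    ![(0, 1), (-1, 0), (0, 1), (-1, -1), (1, -1), (1, -1), (4, -3), (-1, -1), (0, 1), (-1, 1), (-1, 0), (0, 1), (0, 1), (0, 1), (0, -1), (1, -1), (-1, -1), (-1, -1), (1, 0), (1, 0)]⟩ _ (by decide +kernel)

theorem real_00_2_1 : Real (pat00 (1, 4) (3, 4)) :=
  real_of_good ⟨![(-149, -128), (149, 48), (40, 59), (98, -108), (60, -92), (49, 29), (-149, -732), (148, -619), (98, -540), (39, -679), (41, -721), (68, -469)],
    ![(19, -21), (19, 11), (121, 119), (101, -62), (30, 21), (72, 29), (120, -132), (89, -9), (91, 42), (21, -701), (-61, -550), (72, -670), (78, -731), (82, -611), (110, -462), (32, -699), (30, -601), (80, -491), (-602, -298), (599, -299)],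
    ![(0, 1), (-1, 0), (0, 1), (-1, -1), (1, -1), (2, -1), (1, -1), (-1, -1), (0, 1), (0, 1), (-1, 0), (1, 1), (0, 1), (0, -1), (-1, -1), (1, -1), (-1, -1), (0, -1), (1, 0), (1, 0)]⟩ _ (by decide +kernel)

theorem real_00_2_2 : Real (pat00 (1, 4) (1, 4)) :=
  real_of_good ⟨![(-152, -132), (152, 51), (40, 58), (101, -111), (60, -92), (48, 32), (-150, -729), (150, -548), (41, -540), (102, -708), (61, -691), (51, -569)],
    ![(22, -19), (18, 9), (121, 120), (98, -58), (28, 22), (71, 29), (118, -128), (90, -12), (88, 40), (21, -621), (20, -590), (118, -480), (98, -658), (28, -582), (68, -569), (122, -729), (89, -609), (90, -561), (-599, -300), (602, -299)],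
    ![(0, 1), (-1, 0), (0, 1), (-1, -1), (1, -1), (2, -1), (3, -2), (-1, -1), (0, 1), (0, 1), (-1, 0), (0, 1), (-1, -1), (1, -1), (1, -1), (1, -1), (-1, -1), (0, 1), (1, 0), (1, 0)]⟩ _ (by decide +kernel)

theorem real_00_2_3 : Real (pat00 (1, 4) (4, 7)) :=
  real_of_good ⟨![(-148, -132), (152, 49), (40, 58), (102, -110), (58, -89), (50, 31), (-152, -701), (150, -729), (48, -500), (69, -540), (8, -679), (20, -602)],
    ![(21, -20), (18, 11), (118, 122), (99, -60), (30, 20), (71, 32), (122, -130), (92, -8), (88, 42), (-138, -669), (-119, -521), (132, -499), (121, -562), (29, -612), (41, -460), (18, -700), (50, -559), (122, -528), (-602, -301), (598, -299)],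
    ![(0, 1), (-1, 0), (0, 1), (-1, -1), (1, -1), (1, 0), (3, -2), (-1, -1), (0, 1), (-1, 1), (-1, 1), (0, 1), (0, 1), (0, -1), (0, -1), (0, -1), (0, -1), (1, 0), (1, 0), (1, 0)]⟩ _ (by decide +kernel)

theorem real_00_3_0 : Real (pat00 (4, 7) (0, 2)) :=
  real_of_good ⟨![(-151, -100), (148, -128), (48, 102), (68, 58), (8, -80), (20, 0), (-149, -621), (148, -559), (61, -610), (119, -520), (132, -588), (12, -519)],
    ![(-139, -68), (-119, 78), (129, 100), (121, 40), (32, -12), (38, 141), (20, -100), (50, 38), (121, 71), (131, -740), (-41, -531), (102, -709), (140, -500), (109, -571), (51, -662), (111, -560), (80, -531), (82, -591), (-599, -298), (602, -299)],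
    ![(-1, 1), (-1, 1), (0, 1), (0, 1), (0, -1), (0, -1), (0, -1), (0, -1), (1, 0), (-1, 1), (-1, 0), (0, 1), (0, 1), (-1, 1), (0, -1), (1, -1), (-1, -1), (-1, 0), (1, 0), (1, 0)]⟩ _ (by decide +kernel)

theorem real_00_3_1 : Real (pat00 (4, 7) (3, 4)) :=
  real_of_good ⟨![(-152, -100), (151, -132), (49, 99), (71, 59), (11, -78), (22, -2), (-152, -728), (150, -622), (100, -540), (42, -680), (39, -722), (68, -471)],
    ![(-139, -72), (-120, 81), (132, 99), (118, 39), (30, -10), (39, 140), (21, -102), (48, 38), (119, 68), (20, -702), (-61, -552), (68, -668), (80, -730), (80, -609), (109, -460), (30, -702), (31, -601), (79, -489), (-602, -300), (601, -301)],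
    ![(-1, 1), (-1, 1), (0, 1), (0, 1), (0, -1), (0, -1), (0, -1), (0, -1), (1, 0), (0, 1), (-1, 0), (1, 1), (0, 1), (0, -1), (-1, -1), (1, -1), (-1, -1), (0, -1), (1, 0), (1, 0)]⟩ _ (by decide +kernel)

theorem real_00_3_2 : Real (pat00 (4, 7) (1, 4)) :=
  real_of_good ⟨![(-152, -98), (149, -129), (52, 98), (70, 61), (8, -80), (18, 1), (-151, -732), (148, -551), (40, -540), (99, -708), (61, -692), (48, -568)],
    ![(-140, -68), (-119, 80), (130, 100), (119, 42), (30, -9), (39, 138), (22, -98), (49, 39), (118, 72), (20, -622), (19, -591), (119, -479), (102, -661), (30, -581), (69, -571), (118, -728), (92, -608), (92, -559), (-601, -299), (600, -300)],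
    ![(-1, 1), (-1, 1), (0, 1), (0, 1), (0, -1), (0, -1), (0, -1), (0, -1), (1, 0), (0, 1), (-1, 0), (0, 1), (-1, -1), (1, -1), (1, -1), (1, -1), (-1, -1), (0, 1), (1, 0), (1, 0)]⟩ _ (by decide +kernel)

end Pool.Agent.KUR
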