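import Mathlib

/-!
# Drawings, crossing numbers, multiplications and Kuratowski edges

A graph is given by a type `V` of vertices, a type `ι` of edges and the two ends `s e`, `t e` of
every edge `e`. Parallel edges are allowed.
-/

set_option autoImplicit false

open Finset

namespace Pool.Agent.KUR

/-- A drawing in the plane of the graph with edges `e` joining `s e` and `t e`: the vertices are
distinct points, each edge is a simple arc joining its ends whose interior avoids the vertices, and
two edges have only finitely many common interior points. -/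
structure Drawing {V ι : Type} (s t : ι → V) where
  pt : V → ℂ
  pt_inj : Function.Injective pt
  arc : ι → ℝ → ℂ
  arc_cont : ∀ e, ContinuousOn (arc e) (Set.Icc 0 1)
  arc_inj : ∀ e, Set.InjOn (arc e) (Set.Icc 0 1)
  arc_zero : ∀ e, arc e 0 = pt (s e)
  arc_one : ∀ e, arc e 1 = pt (t e)
  avoid : ∀ e v, ∀ x ∈ Set.Ioo (0 : ℝ) 1, arc e x ≠ pt v
  fin : ∀ e f, e ≠ f → (arc e '' Set.Ioo 0 1 ∩ arc f '' Set.Ioo 0 1).Finite

/-- The number of crossings of the edges `e` and `f` in a drawing: the number of common interior
points. -/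
noncomputable def cross {V ι : Type} {s t : ι → V} (D : Drawing s t) (e f : ι) : ℕ :=
  (D.arc e '' Set.Ioo 0 1 ∩ D.arc f '' Set.Ioo 0 1).ncard

/-- The number of crossings of a drawing: the sum over the ordered pairs of different edges counts
every crossing twice. -/
noncomputable def crossings {V ι : Type} [Fintype ι] [DecidableEq ι] {s t : ι → V}
    (D : Drawing s t) : ℕ :=
  (∑ e, ∑ f, if e = f then 0 else cross D e f) / 2

/-- The crossing number. -/
noncomputable def cr {V ι : Type} [Fintype ι] [DecidableEq ι] (s t : ι → V) : ℕ :=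
  sInf (Set.range fun D : Drawing s t => crossings D)

/-- A graph is crossing-critical if deleting any single edge lowers the crossing number. -/
def CrossingCritical {V ι : Type} [Fintype ι] [DecidableEq ι] (s t : ι → V) : Prop :=
  ∀ e : ι, cr (fun f : {f : ι // f ≠ e} => s f) (fun f : {f : ι // f ≠ e} => t f) < cr s t

/-- The ends of the edges of the multiplication in which the edge `i` is replaced by `m i`
parallel edges. The edges of the multiplication are the pairs of an edge `i` and an element of
`Fin (m i)`. -/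
def mul {V ι : Type} (s : ι → V) (m : ι → ℕ) : (Σ i, Fin (m i)) → V := fun e => s e.1

/-- The edges `i` and `j` have no common end. -/
def Indep {n k : ℕ} (s t : Fin k → Fin n) (i j : Fin k) : Prop :=
  s i ≠ s j ∧ s i ≠ t j ∧ t i ≠ s j ∧ t i ≠ t j

instance {n k : ℕ} (s t : Fin k → Fin n) (i j : Fin k) : Decidable (Indep s t i j) := by
  unfold Indep; infer_instance

/-- The crossing parity of the chords `i` and `j` of a convex polygon with vertices
`0, 1, ..., n - 1`. -/
def X0 {V ι : Type} [LinearOrder V] (s t : ι → V) (i j : ι) : ZMod 2 :=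
  (if s j < s i then 1 else 0) + (if s j < t i then 1 else 0) + (if t j < s i then 1 else 0) +
    (if t j < t i then 1 else 0)

/-- The crossing parity obtained from the convex one by the switches `κ`. -/
def Xof {V ι : Type} [LinearOrder V] (s t : ι → V) (κ : V → ι → ZMod 2) (i j : ι) : ZMod 2 :=
  X0 s t i j + κ (s i) j + κ (t i) j + κ (s j) i + κ (t j) i

/-- The weighted number of the pairs of independent edges with odd crossing parity. -/
def Cost {n k : ℕ} (s t : Fin k → Fin n) (κ : Fin n → Fin k → ZMod 2) (w : Fin k → ℕ) : ℕ :=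
  ∑ i, ∑ j, if i < j ∧ Indep s t i j ∧ Xof s t κ i j ≠ 0 then w i * w j else 0

/-- The sizes of the fibres of a map. -/
def fib {ι : Type} [Fintype ι] {k : ℕ} (π : ι → Fin k) (i : Fin k) : ℕ :=
  (univ.filter fun e => π e = i).card

/-! ### The graph

Vertices `0, ..., 5` form the left piece (`u = 0`, `v = 1`, `1 = 2`, `2 = 3`, `4 = 4`, `5 = 5`),
vertices `6, ..., 11` the right piece. -/

/-- First ends of the edges of the piece. -/
def ps : Fin 9 → Fin 6 := ![0, 0, 2, 3, 2, 2, 3, 3, 2]

/-- Second ends of the edges of the piece. -/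
def pt : Fin 9 → Fin 6 := ![4, 5, 1, 1, 4, 5, 4, 5, 3]

/-- First ends of the edges of the graph. -/
def gs : Fin 20 → Fin 12 :=
  ![0, 0, 2, 3, 2, 2, 3, 3, 2, 6, 6, 8, 9, 8, 8, 9, 9, 8, 0, 1]

/-- Second ends of the edges of the graph. -/
def gt : Fin 20 → Fin 12 :=
  ![4, 5, 1, 1, 4, 5, 4, 5, 3, 10, 11, 7, 7, 10, 11, 10, 11, 9, 6, 7]

/-- The crossing number of a multiplication of the graph. -/
noncomputable def crM (w : Fin 20 → ℕ) : ℕ := cr (mul gs w) (mul gt w)

/-- The left edges. -/
def lf (i : Fin 9) : Fin 20 := ⟨i.1, by omega⟩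

/-- The right edges. -/
def rt (i : Fin 9) : Fin 20 := ⟨i.1 + 9, by omega⟩

/-- The two connecting edges. -/
def cn (i : Fin 2) : Fin 20 := ⟨i.1 + 18, by omega⟩

/-- The edges of the 4-cycle of the piece that avoids `u` and `v`. -/
def CC : List (Fin 9) := [4, 5, 6, 7]

/-- The pairs of independent edges of the piece (without the extra edge 8). -/
def II : List (Fin 9 × Fin 9) :=
  [(0, 2), (0, 3), (1, 2), (1, 3), (3, 4), (3, 5), (2, 6), (2, 7), (1, 4), (1, 6), (0, 5), (0, 7),
    (4, 7), (5, 6)]

/-- The eleven edge cuts of the piece that separate `u` from `v` into connected parts. -/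
def cuts : List (List (Fin 9)) :=
  [[0, 1], [1, 4, 6], [0, 5, 7], [4, 5, 6, 7], [1, 2, 5, 6, 8], [1, 3, 4, 7, 8], [0, 2, 4, 7, 8],
    [0, 3, 5, 6, 8], [2, 6, 7, 8], [3, 4, 5, 8], [2, 3]]

/-- The weight of a set of edges. -/
def wt (w : Fin 9 → ℕ) (S : List (Fin 9)) : ℕ := (S.map w).sum

/-- The least weight of a cut. -/
def lam (w : Fin 9 → ℕ) : ℕ := (cuts.map (wt w)).foldr min (w 0 + w 1)

/-- The weight of the edges with the extra edge lowered by one. -/
def low (w : Fin 9 → ℕ) : Fin 9 → ℕ := Function.update w 8 (w 8 - 1)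

end Pool.Agent.KUR
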