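import Pool.Agent.KUR.Defs

set_option autoImplicit false

open Finset

namespace Pool.Agent.KUR

/-- Data for a drawing in which the edge `i` is a polygonal line with the one bend `bd i`. The
copies of the edge `i` have bends `bd i + ε • dr i` with small `ε ≥ 0`. -/
structure PData (n k : ℕ) where
  pt : Fin n → ℤ × ℤ
  bd : Fin k → ℤ × ℤ
  dr : Fin k → ℤ × ℤ

/-- The orientation of a triangle. -/
def ori (a b c : ℤ × ℤ) : ℤ := (b.1 - a.1) * (c.2 - a.2) - (b.2 - a.2) * (c.1 - a.1)

/-- A certificate that the segments `ab` and `cd` are disjoint: one of them lies strictly on one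
side of the line through the other one. -/
def dis (a b c d : ℤ × ℤ) : Bool :=
  (decide (0 < ori a b c) && decide (0 < ori a b d)) ||
  (decide (ori a b c < 0) && decide (ori a b d < 0)) ||
  (decide (0 < ori c d a) && decide (0 < ori c d b)) ||
  (decide (ori c d a < 0) && decide (ori c d b < 0))

/-- The conditions on a single edge with ends `a`, `c`, bend `b` and direction `d`. -/
def okEdge (a b c d : ℤ × ℤ) : Bool :=
  decide (ori a b c ≠ 0) &&
  decide (0 < ((b.1 - a.1) * d.2 - (b.2 - a.2) * d.1) * ((c.1 - b.1) * d.2 - (c.2 - b.2) * d.1))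

/-- The number of crossings counted for the segments `ab` and `cd` of two edges, where the first end
`a` of the first segment and the first end `c` of the second one are vertices (`b` and `d` are
bends); `eq` says that the two vertices are the same. The value `2` means that the configuration is
not allowed. -/
def cnt (eq : Bool) (a b c d : ℤ × ℤ) : ℕ :=
  if eq then (if ori a b d ≠ 0 then 0 else 2)
  else if dis a b c d then 0 else if ori a b c ≠ 0 then 1 else 2

/-- The number of crossings counted for two edges: `i` with ends `s i`, `t i`. -/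
def cnt4 {n k : ℕ} (s t : Fin k → Fin n) (P : PData n k) (i j : Fin k) : ℕ :=
  cnt (s i == s j) (P.pt (s i)) (P.bd i) (P.pt (s j)) (P.bd j) +
  cnt (s i == t j) (P.pt (s i)) (P.bd i) (P.pt (t j)) (P.bd j) +
  cnt (t i == s j) (P.pt (t i)) (P.bd i) (P.pt (s j)) (P.bd j) +
  cnt (t i == t j) (P.pt (t i)) (P.bd i) (P.pt (t j)) (P.bd j)

/-- The check: `L` is the list of the crossing pairs. -/
def good {n k : ℕ} (s t : Fin k → Fin n) (P : PData n k) (L : List (Fin k × Fin k)) : Bool :=
  (List.finRange n).all (fun v => (List.finRange n).all fun w => v == w || P.pt v != P.pt w) &&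
  (List.finRange k).all (fun i => okEdge (P.pt (s i)) (P.bd i) (P.pt (t i)) (P.dr i)) &&
  (List.finRange k).all (fun i => (List.finRange n).all fun v => v == s i || v == t i ||
    (ori (P.pt (s i)) (P.bd i) (P.pt v) != 0 && ori (P.pt (t i)) (P.bd i) (P.pt v) != 0)) &&
  (List.finRange k).all (fun i => (List.finRange k).all fun j => !(decide (i < j)) ||
    decide (cnt4 s t P i j ≤ if L.contains (i, j) then 1 else 0))

end Pool.Agent.KUR
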