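import Pool.Agent.KUR.Geo0

set_option autoImplicit false

open Finset

namespace Pool.Agent.KUR

/-- The orientation of three points of the plane. -/
def orC (a b c : ℂ) : ℝ := (b.re - a.re) * (c.im - a.im) - (b.im - a.im) * (c.re - a.re)

/-- The polygonal line with vertices `a`, `b`, `c`. -/
noncomputable def brk (a b c : ℂ) (x : ℝ) : ℂ :=
  if x ≤ 1 / 2 then a + ((2 * x : ℝ) : ℂ) * (b - a) else b + ((2 * x - 1 : ℝ) : ℂ) * (c - b)

theorem orC_line (a b c d : ℂ) (t : ℝ) :
    orC a b (c + (t : ℂ) * (d - c)) = (1 - t) * orC a b c + t * orC a b d := by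
  simp [orC]
  ring

theorem orC_self_right (a b : ℂ) : orC a b b = 0 := by
  simp [orC]; ring

theorem orC_self_left (a b : ℂ) : orC a b a = 0 := by
  simp [orC]

theorem mem_seg {a b z : ℂ} (h : z ∈ segment ℝ a b) :
    ∃ t : ℝ, 0 ≤ t ∧ t ≤ 1 ∧ z = a + (t : ℂ) * (b - a) := by
  rw [segment_eq_image_lineMap] at h
  obtain ⟨t, ht, rfl⟩ := h
  refine ⟨t, ht.1, ht.2, ?_⟩
  simp [AffineMap.lineMap_apply]
  ring

theorem seg_of {a b : ℂ} {t : ℝ} (h0 : 0 ≤ t) (h1 : t ≤ 1) :
    a + (t : ℂ) * (b - a) ∈ segment ℝ a b := by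
  rw [segment_eq_image_lineMap]
  refine ⟨t, ⟨h0, h1⟩, ?_⟩
  simp [AffineMap.lineMap_apply]
  ring

theorem seg_line {a b z : ℂ} (h : z ∈ segment ℝ a b) : orC a b z = 0 := by
  obtain ⟨t, -, -, rfl⟩ := mem_seg h
  rw [orC_line, orC_self_left, orC_self_right]; ring

theorem seg_disj {a b c d : ℂ}
    (h : (0 < orC a b c ∧ 0 < orC a b d) ∨ (orC a b c < 0 ∧ orC a b d < 0)) :
    Disjoint (segment ℝ a b) (segment ℝ c d) := by
  rw [Set.disjoint_left]
  intro z hz hz'
  have h0 := seg_line hz
  obtain ⟨t, ht0, ht1, rfl⟩ := mem_seg hz'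
  rw [orC_line] at h0
  rcases h with ⟨hc, hd⟩ | ⟨hc, hd⟩
  · rcases eq_or_lt_of_le ht0 with h | h
    · subst h; simp at h0; linarith
    · have := mul_pos h hd
      have := mul_nonneg (sub_nonneg.2 ht1) hc.le
      linarith
  · rcases eq_or_lt_of_le ht0 with h | h
    · subst h; simp at h0; linarith
    · have := mul_neg_of_pos_of_neg h hd
      have := mul_nonpos_of_nonneg_of_nonpos (sub_nonneg.2 ht1) hc.le
      linarith

theorem seg_subsingleton {a b c d : ℂ} (h : orC a b c ≠ 0) :
    (segment ℝ a b ∩ segment ℝ c d).Subsingleton := by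
  rintro z ⟨hz, hz'⟩ w ⟨hw, hw'⟩
  have h1 := seg_line hz
  have h2 := seg_line hw
  obtain ⟨t, ht0, ht1, rfl⟩ := mem_seg hz'
  obtain ⟨r, hr0, hr1, rfl⟩ := mem_seg hw'
  rw [orC_line] at h1 h2
  have h3 : (t - r) * (orC a b d - orC a b c) = 0 := by linear_combination h1 - h2
  rcases mul_eq_zero.1 h3 with h4 | h4
  · rw [sub_eq_zero.1 h4]
  · exfalso
    rw [sub_eq_zero.1 h4] at h1
    apply h
    linear_combination h1

theorem seg_end {a b d : ℂ} (h : orC a b d ≠ 0) : segment ℝ a b ∩ segment ℝ a d = {a} := by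
  apply Set.Subset.antisymm
  · rintro z ⟨hz, hz'⟩
    have h1 := seg_line hz
    obtain ⟨t, ht0, ht1, rfl⟩ := mem_seg hz'
    rw [orC_line, orC_self_left] at h1
    have h2 : t * orC a b d = 0 := by linear_combination h1
    rcases mul_eq_zero.1 h2 with h3 | h3
    · subst h3; simp
    · exact absurd h3 h
  · rintro z rfl
    exact ⟨left_mem_segment ℝ _ _, left_mem_segment ℝ _ _⟩

theorem brk_continuous (a b c : ℂ) : Continuous (brk a b c) := by
  unfold brk
  refine Continuous.if_le ?_ ?_ continuous_id continuous_const ?_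
  · fun_prop
  · fun_prop
  · rintro x rfl
    norm_num

theorem brk_cont (a b c : ℂ) : ContinuousOn (brk a b c) (Set.Icc 0 1) :=
  (brk_continuous a b c).continuousOn

theorem ne_of_orC {a b c : ℂ} (h : orC a b c ≠ 0) : a ≠ b ∧ b ≠ c ∧ a ≠ c := by
  refine ⟨?_, ?_, ?_⟩
  · rintro rfl; exact h (by simp [orC])
  · rintro rfl; exact h (orC_self_right _ _)
  · rintro rfl; exact h (orC_self_left _ _)

theorem brk_inj {a b c : ℂ} (h : orC a b c ≠ 0) : Set.InjOn (brk a b c) (Set.Icc 0 1) := by
  obtain ⟨hab, hbc, -⟩ := ne_of_orC h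
  have key : ∀ x y : ℝ, x ≤ 1 / 2 → ¬ y ≤ 1 / 2 → brk a b c x ≠ brk a b c y := by
    intro x y hx hy he
    simp only [brk, hx, hy, if_true, if_false] at he
    have h1 := congrArg (orC a b) he
    rw [orC_line, orC_line, orC_self_left, orC_self_right] at h1
    have h2 : (2 * y - 1) * orC a b c = 0 := by linear_combination -h1
    rcases mul_eq_zero.1 h2 with h3 | h3
    · exact hy (by linarith)
    · exact h h3
  rintro x ⟨hx0, hx1⟩ y ⟨hy0, hy1⟩ he
  by_cases hx : x ≤ 1 / 2
  · by_cases hy : y ≤ 1 / 2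
    · simp only [brk, hx, hy, if_true] at he
      have h1 : (((2 * x - 2 * y : ℝ)) : ℂ) * (b - a) = 0 := by
        push_cast at he ⊢
        linear_combination he
      rcases mul_eq_zero.1 h1 with h2 | h2
      · have h3 : (2 * x - 2 * y : ℝ) = 0 := by exact_mod_cast h2
        linarith
      · exact absurd (sub_eq_zero.1 h2).symm hab
    · exact absurd he (key x y hx hy)
  · by_cases hy : y ≤ 1 / 2
    · exact absurd he.symm (key y x hy hx)
    · simp only [brk, hx, hy, if_false] at he
      have h1 : (((2 * x - 2 * y : ℝ)) : ℂ) * (c - b) = 0 := by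
        push_cast at he ⊢
        linear_combination he
      rcases mul_eq_zero.1 h1 with h2 | h2
      · have h3 : (2 * x - 2 * y : ℝ) = 0 := by exact_mod_cast h2
        linarith
      · exact absurd (sub_eq_zero.1 h2).symm hbc

theorem brk_zero (a b c : ℂ) : brk a b c 0 = a := by
  simp [brk]

theorem brk_one (a b c : ℂ) : brk a b c 1 = c := by
  have h : ¬ ((1 : ℝ) ≤ 1 / 2) := by norm_num
  rw [brk, if_neg h]
  norm_num

theorem brk_image (a b c : ℂ) :
    brk a b c '' Set.Ioo 0 1 ⊆ (segment ℝ a b ∪ segment ℝ b c) := by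
  rintro z ⟨x, ⟨hx0, hx1⟩, rfl⟩
  by_cases hx : x ≤ 1 / 2
  · left
    simp only [brk, hx, if_true]
    exact seg_of (by linarith) (by linarith)
  · right
    simp only [brk, hx, if_false]
    push Not at hx
    exact seg_of (by linarith) (by linarith)

/-- The interior of the polygonal line does not contain the ends. -/
theorem brk_ends {a b c : ℂ} (h : orC a b c ≠ 0) :
    a ∉ brk a b c '' Set.Ioo 0 1 ∧ c ∉ brk a b c '' Set.Ioo 0 1 := by
  constructor
  · rintro ⟨x, hx, he⟩
    have h1 : brk a b c x = brk a b c 0 := by rw [he, brk_zero]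
    have h2 := brk_inj h ⟨hx.1.le, hx.2.le⟩ ⟨le_refl _, zero_le_one⟩ h1
    exact hx.1.ne' h2
  · rintro ⟨x, hx, he⟩
    have h1 : brk a b c x = brk a b c 1 := by rw [he, brk_one]
    have h2 := brk_inj h ⟨hx.1.le, hx.2.le⟩ ⟨zero_le_one, le_refl _⟩ h1
    exact hx.2.ne h2

/-- The polygonal line does not contain a point off the two lines. -/
theorem brk_avoid {a b c v : ℂ} (h : orC a b v ≠ 0) (h' : orC c b v ≠ 0) :
    v ∉ segment ℝ a b ∪ segment ℝ b c := by
  rintro (hv | hv)
  · exact h (seg_line hv)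
  · rw [segment_symm] at hv
    exact h' (seg_line hv)

/-- Two copies of an edge, with bends `b` and `b'`, where `b' - b` is a multiple of the
direction. -/
theorem brk_copies {a b b' c : ℂ} (h1 : orC a b b' ≠ 0) (h2 : orC c b b' ≠ 0)
    (h3 : 0 < orC a b b' * orC b c b') (h4 : 0 < orC a b c * orC a b' c)
    (h5 : 0 < orC a b b' * orC a b c ∨ 0 < orC a b' b * orC a b' c) :
    brk a b c '' Set.Ioo 0 1 ∩ brk a b' c '' Set.Ioo 0 1 = ∅ := by
  have hne : orC a b c ≠ 0 := by
    intro h; rw [h] at h4; simp at h4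
  have same : ∀ x y : ℝ, 0 < x * y → (0 < x ∧ 0 < y) ∨ (x < 0 ∧ y < 0) := fun x y h =>
    mul_pos_iff.1 h
  have d1 : Disjoint (segment ℝ a b) (segment ℝ b' c) ∧
      Disjoint (segment ℝ b c) (segment ℝ a b') := by
    rcases h5 with h5 | h5
    · constructor
      · exact seg_disj (same _ _ h5)
      · have e1 : orC b c a = orC a b c := by simp [orC]; ring
        have h6 : 0 < orC b c a * orC b c b' := by
          rw [e1]
          rcases same _ _ h3 with ⟨p, q⟩ | ⟨p, q⟩ <;> rcases same _ _ h5 with ⟨r, s⟩ | ⟨r, s⟩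
          · positivity
          · linarith
          · linarith
          · exact mul_pos_of_neg_of_neg s q
        exact seg_disj (same _ _ h6)
    · have e2 : orC a b' b = - orC a b b' := by simp [orC]; ring
      have e3 : orC b' c b = - orC b c b' := by simp [orC]; ring
      have e4 : orC b' c a = orC a b' c := by simp [orC]; ring
      constructor
      · have h6 : 0 < orC b' c a * orC b' c b := by
          rw [e3, e4]
          rw [e2] at h5
          rcases same _ _ h3 with ⟨p, q⟩ | ⟨p, q⟩ <;> rcases same _ _ h5 with ⟨r, s⟩ | ⟨r, s⟩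
          · linarith
          · exact mul_pos_of_neg_of_neg s (by linarith)
          · exact mul_pos s (by linarith)
          · linarith
        exact (seg_disj (same _ _ h6)).symm
      · exact (seg_disj (same _ _ h5)).symm
  rw [Set.eq_empty_iff_forall_notMem]
  rintro z ⟨hz, hz'⟩
  obtain ⟨hza, hzc⟩ := brk_ends hne
  rcases brk_image _ _ _ hz with hs | hs <;> rcases brk_image _ _ _ hz' with hs' | hs'
  · have : z ∈ segment ℝ a b ∩ segment ℝ a b' := ⟨hs, hs'⟩
    rw [seg_end h1] at this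
    rw [Set.mem_singleton_iff] at this
    exact hza (this ▸ hz)
  · exact Set.disjoint_left.1 d1.1 hs hs'
  · exact Set.disjoint_left.1 d1.2 hs hs'
  · rw [segment_symm] at hs hs'
    have : z ∈ segment ℝ c b ∩ segment ℝ c b' := ⟨hs, hs'⟩
    rw [seg_end h2] at this
    rw [Set.mem_singleton_iff] at this
    exact hzc (this ▸ hz)

end Pool.Agent.KUR
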