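import Pool.Agent.KUR.Defs

set_option autoImplicit false

open Finset

namespace Pool.Agent.KUR

theorem one_sub_image_Ioo (g : ℝ → ℂ) :
    (fun x => g (1 - x)) '' Set.Ioo 0 1 = g '' Set.Ioo 0 1 := by
  ext z
  constructor
  · rintro ⟨x, hx, rfl⟩
    exact ⟨1 - x, ⟨by linarith [hx.2], by linarith [hx.1]⟩, rfl⟩
  · rintro ⟨x, hx, rfl⟩
    refine ⟨1 - x, ⟨by linarith [hx.2], by linarith [hx.1]⟩, ?_⟩
    simp

/-- The arc of a drawing, possibly run backwards. -/
noncomputable def turn (b : Bool) (g : ℝ → ℂ) : ℝ → ℂ := if b then g else fun x => g (1 - x)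

theorem turn_image (b : Bool) (g : ℝ → ℂ) : turn b g '' Set.Ioo 0 1 = g '' Set.Ioo 0 1 := by
  cases b
  · exact one_sub_image_Ioo g
  · rfl

theorem turn_cont (b : Bool) (g : ℝ → ℂ) (hg : ContinuousOn g (Set.Icc 0 1)) :
    ContinuousOn (turn b g) (Set.Icc 0 1) := by
  cases b
  · have : ContinuousOn (fun x : ℝ => g (1 - x)) (Set.Icc 0 1) := by
      refine hg.comp (by fun_prop) ?_
      intro x hx
      exact ⟨by linarith [hx.2], by linarith [hx.1]⟩
    exact this
  · exact hg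

theorem turn_inj (b : Bool) (g : ℝ → ℂ) (hg : Set.InjOn g (Set.Icc 0 1)) :
    Set.InjOn (turn b g) (Set.Icc 0 1) := by
  cases b
  · intro x hx y hy hxy
    have h1 : (1 : ℝ) - x ∈ Set.Icc (0 : ℝ) 1 := ⟨by linarith [hx.2], by linarith [hx.1]⟩
    have h2 : (1 : ℝ) - y ∈ Set.Icc (0 : ℝ) 1 := ⟨by linarith [hy.2], by linarith [hy.1]⟩
    have h3 : g (1 - x) = g (1 - y) := hxy
    have := hg h1 h2 h3
    linarith
  · exact hg

theorem turn_avoid (b : Bool) (g : ℝ → ℂ) (z : ℂ) (hg : ∀ x ∈ Set.Ioo (0 : ℝ) 1, g x ≠ z) :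
    ∀ x ∈ Set.Ioo (0 : ℝ) 1, turn b g x ≠ z := by
  cases b
  · intro x hx
    exact hg (1 - x) ⟨by linarith [hx.2], by linarith [hx.1]⟩
  · exact hg

/-- Transport of a drawing along an isomorphism. -/
theorem drawing_iso {V V' ι ι' : Type} [Fintype ι] [DecidableEq ι] [Fintype ι'] [DecidableEq ι']
    {s t : ι → V} {s' t' : ι' → V'} (φ : V ≃ V') (ψ : ι ≃ ι')
    (h : ∀ e, (s' (ψ e) = φ (s e) ∧ t' (ψ e) = φ (t e)) ∨
      (s' (ψ e) = φ (t e) ∧ t' (ψ e) = φ (s e))) (D : Drawing s t) :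
    ∃ D' : Drawing s' t', crossings D' = crossings D := by
  classical
  have hb : ∀ e' : ι', ∃ b : Bool,
      (b = true → s' e' = φ (s (ψ.symm e')) ∧ t' e' = φ (t (ψ.symm e'))) ∧
      (b = false → s' e' = φ (t (ψ.symm e')) ∧ t' e' = φ (s (ψ.symm e'))) := by
    intro e'
    have h1 := h (ψ.symm e')
    rw [Equiv.apply_symm_apply] at h1
    rcases h1 with h1 | h1
    · exact ⟨true, fun _ => h1, fun hf => absurd hf (by decide)⟩
    · exact ⟨false, fun hf => absurd hf (by decide), fun _ => h1⟩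
  choose b hb1 hb2 using hb
  refine ⟨{
    pt := fun v => D.pt (φ.symm v)
    pt_inj := D.pt_inj.comp φ.symm.injective
    arc := fun e' => turn (b e') (D.arc (ψ.symm e'))
    arc_cont := fun e' => turn_cont _ _ (D.arc_cont _)
    arc_inj := fun e' => turn_inj _ _ (D.arc_inj _)
    arc_zero := ?_
    arc_one := ?_
    avoid := fun e' v => turn_avoid _ _ _ (D.avoid _ _)
    fin := ?_ }, ?_⟩
  · intro e'
    cases hbe : b e'
    · have h1 := (hb2 e' hbe).1
      show D.arc (ψ.symm e') (1 - 0) = D.pt (φ.symm (s' e'))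
      rw [h1, Equiv.symm_apply_apply, sub_zero, D.arc_one]
    · have h1 := (hb1 e' hbe).1
      show D.arc (ψ.symm e') 0 = D.pt (φ.symm (s' e'))
      rw [h1, Equiv.symm_apply_apply, D.arc_zero]
  · intro e'
    cases hbe : b e'
    · have h1 := (hb2 e' hbe).2
      show D.arc (ψ.symm e') (1 - 1) = D.pt (φ.symm (t' e'))
      rw [h1, Equiv.symm_apply_apply, sub_self, D.arc_zero]
    · have h1 := (hb1 e' hbe).2
      show D.arc (ψ.symm e') 1 = D.pt (φ.symm (t' e'))
      rw [h1, Equiv.symm_apply_apply, D.arc_one]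
  · intro e' f' hne
    rw [turn_image, turn_image]
    exact D.fin _ _ fun h => hne (ψ.symm.injective h)
  · unfold crossings
    congr 1
    refine Fintype.sum_equiv ψ.symm _ _ fun e' => ?_
    refine Fintype.sum_equiv ψ.symm _ _ fun f' => ?_
    by_cases hne : e' = f'
    · subst hne
      rw [if_pos rfl, if_pos rfl]
    · rw [if_neg hne, if_neg fun h => hne (ψ.symm.injective h)]
      unfold cross
      show ((turn (b e') (D.arc (ψ.symm e'))) '' Set.Ioo 0 1 ∩
        (turn (b f') (D.arc (ψ.symm f'))) '' Set.Ioo 0 1).ncard = _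
      rw [turn_image, turn_image]

/-- Isomorphic graphs have the same crossing number. -/
theorem cr_iso {V V' ι ι' : Type} [Fintype ι] [DecidableEq ι] [Fintype ι'] [DecidableEq ι']
    {s t : ι → V} {s' t' : ι' → V'} (φ : V ≃ V') (ψ : ι ≃ ι')
    (h : ∀ e, (s' (ψ e) = φ (s e) ∧ t' (ψ e) = φ (t e)) ∨
      (s' (ψ e) = φ (t e) ∧ t' (ψ e) = φ (s e))) : cr s t = cr s' t' := by
  unfold cr
  congr 1
  ext n
  constructor
  · rintro ⟨D, rfl⟩
    obtain ⟨D', hD'⟩ := drawing_iso φ ψ h D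
    exact ⟨D', hD'⟩
  · rintro ⟨D', rfl⟩
    have h' : ∀ e', (s (ψ.symm e') = φ.symm (s' e') ∧ t (ψ.symm e') = φ.symm (t' e')) ∨
        (s (ψ.symm e') = φ.symm (t' e') ∧ t (ψ.symm e') = φ.symm (s' e')) := by
      intro e'
      have h1 := h (ψ.symm e')
      rw [Equiv.apply_symm_apply] at h1
      rcases h1 with ⟨h1, h2⟩ | ⟨h1, h2⟩
      · left
        rw [h1, h2, Equiv.symm_apply_apply, Equiv.symm_apply_apply]
        exact ⟨rfl, rfl⟩
      · right
        rw [h1, h2, Equiv.symm_apply_apply, Equiv.symm_apply_apply]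
        exact ⟨rfl, rfl⟩
    obtain ⟨D, hD⟩ := drawing_iso φ.symm ψ.symm h' D'
    exact ⟨D, hD⟩

/-- A subgraph of a graph that has a drawing has a drawing. -/
theorem drawing_sub {V ι : Type} {s t : ι → V} (D : Drawing s t) (P : ι → Prop) :
    Nonempty (Drawing (fun f : {f : ι // P f} => s f) (fun f : {f : ι // P f} => t f)) :=
  ⟨{
    pt := D.pt
    pt_inj := D.pt_inj
    arc := fun e => D.arc e.1
    arc_cont := fun e => D.arc_cont e.1
    arc_inj := fun e => D.arc_inj e.1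
    arc_zero := fun e => D.arc_zero e.1
    arc_one := fun e => D.arc_one e.1
    avoid := fun e => D.avoid e.1
    fin := fun e f hne => D.fin e.1 f.1 fun h => hne (Subtype.ext h) }⟩

/-- Automorphisms of the graph preserve the crossing numbers of the multiplications. -/
theorem crM_comp (φ : Equiv.Perm (Fin 12)) (σ : Equiv.Perm (Fin 20))
    (h : ∀ i, (gs (σ i) = φ (gs i) ∧ gt (σ i) = φ (gt i)) ∨
      (gs (σ i) = φ (gt i) ∧ gt (σ i) = φ (gs i))) (w : Fin 20 → ℕ) :
    crM (fun i => w (σ i)) = crM w := by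
  unfold crM
  exact cr_iso φ (Equiv.sigmaCongrLeft (β := fun i => Fin (w i)) σ) fun e => h e.1

end Pool.Agent.KUR
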