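import Pool.Agent.KUR.Defs

/-!
# Kuratowski edges
-/

set_option autoImplicit false

open Finset

namespace Pool.Agent.KUR

/-- The edge `e` joins the vertices `a` and `b`. -/
def Joins {V ι : Type} (s t : ι → V) (e : ι) (a b : V) : Prop :=
  (s e = a ∧ t e = b) ∨ (s e = b ∧ t e = a)

instance {V ι : Type} [DecidableEq V] (s t : ι → V) (e : ι) (a b : V) :
    Decidable (Joins s t e a b) := by
  unfold Joins; infer_instance

/-- A list of steps `(e, c)` is a walk from `a` to `b`: the first step goes from `a` along the edge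
`e` to the vertex `c`, and so on, and the last step ends at `b`. -/
def IsWalk {V ι : Type} (s t : ι → V) : V → List (ι × V) → V → Prop
  | a, [], b => a = b
  | a, (e, c) :: l, b => Joins s t e a c ∧ IsWalk s t c l b

instance IsWalk.dec {V ι : Type} [DecidableEq V] (s t : ι → V) :
    ∀ (a : V) (l : List (ι × V)) (b : V), Decidable (IsWalk s t a l b)
  | a, [], b => inferInstanceAs (Decidable (a = b))
  | a, (e, c) :: l, b =>
    have := IsWalk.dec s t c l b
    inferInstanceAs (Decidable (Joins s t e a c ∧ IsWalk s t c l b))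

/-- The inner vertices of a walk: all vertices except the first and the last one. -/
def inner {V ι : Type} (l : List (ι × V)) : List V := (l.map Prod.snd).dropLast

/-- The graph with vertices `V`, edges `ι` and ends `s`, `t` contains a subdivision of the graph with
vertices `W`, edges `κ` and ends `hs`, `ht`: the branch vertices `br w` are distinct, and
for every edge `k` there is a path `P k` joining the branch vertices of the ends of `k`; the inner
vertices of a path are not branch vertices and do not lie on the other paths. -/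
def IsSubdivision {W κ V ι : Type} (hs ht : κ → W) (s t : ι → V) (br : W → V)
    (P : κ → List (ι × V)) : Prop :=
  (∀ w w', br w = br w' → w = w') ∧
  (∀ k, IsWalk s t (br (hs k)) (P k) (br (ht k))) ∧
  (∀ k, (br (hs k) :: (P k).map Prod.snd).Nodup) ∧
  (∀ k, ∀ x ∈ inner (P k), ∀ w, x ≠ br w) ∧
  (∀ k l, k ≠ l → ∀ x ∈ inner (P k), x ∉ inner (P l))

/-- The graph with ends `s`, `t` has a subgraph that contains the edge `e` and is a subdivision of
the graph with ends `hs`, `ht`. -/
def InSubdivision {W κ V ι : Type} (hs ht : κ → W) (s t : ι → V) (e : ι) : Prop :=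
  ∃ (br : W → V) (P : κ → List (ι × V)), IsSubdivision hs ht s t br P ∧
    ∃ k, e ∈ (P k).map Prod.fst

/-- The edges of `K5` are the pairs `i < j` of elements of `Fin 5`. -/
abbrev E5 : Type := {p : Fin 5 × Fin 5 // p.1 < p.2}

/-- A Kuratowski edge: some subgraph that contains the edge `e` is homeomorphic to (a subdivision
of) `K5` or `K33`. The vertices of `K33` are `Sum.inl i` and `Sum.inr j` with `i j : Fin 3`, its
edges are the pairs `(i, j)`. -/
def IsKuratowski {V ι : Type} (s t : ι → V) (e : ι) : Prop :=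
  InSubdivision (fun k : E5 => k.1.1) (fun k : E5 => k.1.2) s t e ∨
  InSubdivision (fun k : Fin 3 × Fin 3 => (Sum.inl k.1 : Fin 3 ⊕ Fin 3))
    (fun k : Fin 3 × Fin 3 => (Sum.inr k.2 : Fin 3 ⊕ Fin 3)) s t e

/-- The graph is simple: there are no loops and no parallel edges. -/
def IsSimple {V ι : Type} (s t : ι → V) : Prop :=
  (∀ e, s e ≠ t e) ∧ ∀ e f, Joins s t f (s e) (t e) → e = f

/-- The branch vertices in the left piece. -/
def brL : Fin 3 ⊕ Fin 3 → Fin 12 := Sum.elim ![0, 2, 3] ![1, 4, 5]

/-- The paths of the subdivision of `K33` with branch vertices in the left piece. -/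
def PL (k : Fin 3 × Fin 3) : List (Fin 20 × Fin 12) :=
  (![![[(18, 6), (9, 10), (13, 8), (17, 9), (12, 7), (19, 1)], [(0, 4)], [(1, 5)]],
    ![[(2, 1)], [(4, 4)], [(5, 5)]],
    ![[(3, 1)], [(6, 4)], [(7, 5)]]] : Fin 3 → Fin 3 → List (Fin 20 × Fin 12)) k.1 k.2

/-- The branch vertices in the right piece. -/
def brR : Fin 3 ⊕ Fin 3 → Fin 12 := Sum.elim ![6, 8, 9] ![7, 10, 11]

/-- The paths of the subdivision of `K33` with branch vertices in the right piece. -/
def PR (k : Fin 3 × Fin 3) : List (Fin 20 × Fin 12) :=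
  (![![[(18, 0), (0, 4), (4, 2), (8, 3), (3, 1), (19, 7)], [(9, 10)], [(10, 11)]],
    ![[(11, 7)], [(13, 10)], [(14, 11)]],
    ![[(12, 7)], [(15, 10)], [(16, 11)]]] : Fin 3 → Fin 3 → List (Fin 20 × Fin 12)) k.1 k.2

theorem subL : IsSubdivision (fun k : Fin 3 × Fin 3 => (Sum.inl k.1 : Fin 3 ⊕ Fin 3))
    (fun k : Fin 3 × Fin 3 => (Sum.inr k.2 : Fin 3 ⊕ Fin 3)) gs gt brL PL := by
  refine ⟨by decide, by decide, by decide, by decide, by decide⟩

theorem subR : IsSubdivision (fun k : Fin 3 × Fin 3 => (Sum.inl k.1 : Fin 3 ⊕ Fin 3))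
    (fun k : Fin 3 × Fin 3 => (Sum.inr k.2 : Fin 3 ⊕ Fin 3)) gs gt brR PR := by
  refine ⟨by decide, by decide, by decide, by decide, by decide⟩

theorem all_in : ∀ e : Fin 20, (∃ k, e ∈ (PL k).map Prod.fst) ∨ (∃ k, e ∈ (PR k).map Prod.fst) := by
  decide

/-- All edges of the graph are Kuratowski edges. -/
theorem all_kuratowski (e : Fin 20) : IsKuratowski gs gt e := by
  rcases all_in e with h | h
  · exact Or.inr ⟨brL, PL, subL, h⟩
  · exact Or.inr ⟨brR, PR, subR, h⟩

/-- The graph is simple. -/
theorem simple_g : IsSimple gs gt := ⟨by decide, by decide⟩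

end Pool.Agent.KUR
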