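import Pool.Agent.KUR.Comb0

set_option autoImplicit false

open Finset

namespace Pool.Agent.KUR

/-- The sum of the values of `X` over a list of pairs. -/
def ev (X : Fin 20 → Fin 20 → ZMod 2) (L : List (Fin 20 × Fin 20)) : ZMod 2 :=
  (L.map fun p => X p.1 p.2).sum

/-- The coefficient of the switch `(v, e)` in the sum over a list of pairs. -/
def coef (L : List (Fin 20 × Fin 20)) (v : Fin 12) (e : Fin 20) : ZMod 2 :=
  (L.map fun p => (if gs p.1 = v ∧ p.2 = e then 1 else 0) + (if gt p.1 = v ∧ p.2 = e then 1 else 0) +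
    (if gs p.2 = v ∧ p.1 = e then 1 else 0) + (if gt p.2 = v ∧ p.1 = e then 1 else 0)).sum

theorem single (κ : Fin 12 → Fin 20 → ZMod 2) (a : Fin 12) (b : Fin 20) :
    ∑ v, ∑ e, κ v e * (if a = v ∧ b = e then 1 else 0) = κ a b := by
  have h : ∀ v e, κ v e * (if a = v ∧ b = e then (1 : ZMod 2) else 0) =
      if a = v then (if b = e then κ v e else 0) else 0 := by
    intro v e
    by_cases h1 : a = v <;> by_cases h2 : b = e <;> simp [h1, h2]
  simp_rw [h]
  have h' : ∀ v, (∑ e, if a = v then (if b = e then κ v e else 0) else 0) =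
      if a = v then κ v b else 0 := by
    intro v
    by_cases h1 : a = v <;> simp [h1]
  simp_rw [h']
  simp

theorem ev_Xof (κ : Fin 12 → Fin 20 → ZMod 2) (L : List (Fin 20 × Fin 20)) :
    ev (Xof gs gt κ) L = ev (X0 gs gt) L + ∑ v, ∑ e, κ v e * coef L v e := by
  induction L with
  | nil => simp [ev, coef]
  | cons p L ih =>
    have h1 : ev (Xof gs gt κ) (p :: L) = Xof gs gt κ p.1 p.2 + ev (Xof gs gt κ) L := by
      simp [ev]
    have h2 : ev (X0 gs gt) (p :: L) = X0 gs gt p.1 p.2 + ev (X0 gs gt) L := by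
      simp [ev]
    have h3 : ∀ v e, κ v e * coef (p :: L) v e =
        κ v e * (if gs p.1 = v ∧ p.2 = e then 1 else 0) +
        κ v e * (if gt p.1 = v ∧ p.2 = e then 1 else 0) +
        κ v e * (if gs p.2 = v ∧ p.1 = e then 1 else 0) +
        κ v e * (if gt p.2 = v ∧ p.1 = e then 1 else 0) + κ v e * coef L v e := by
      intro v e
      simp only [coef, List.map_cons, List.sum_cons]
      ring
    rw [h1, h2, ih]
    simp_rw [h3, Finset.sum_add_distrib, single]
    unfold Xof
    ring

theorem ev_eq (κ : Fin 12 → Fin 20 → ZMod 2) (L : List (Fin 20 × Fin 20)) (c : ZMod 2)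
    (h0 : ev (X0 gs gt) L = c) (h : ∀ v e, coef L v e = 0) : ev (Xof gs gt κ) L = c := by
  rw [ev_Xof, h0]
  simp [h]

/-- Product of two lists of left and right edges. -/
def prodLR (c d : List (Fin 9)) : List (Fin 20 × Fin 20) :=
  c.flatMap fun e => d.map fun f => (lf e, rt f)

theorem ev_prodLR (X : Fin 20 → Fin 20 → ZMod 2) (c d : List (Fin 9)) :
    (c.map fun e => (d.map fun f => X (lf e) (rt f)).sum).sum = ev X (prodLR c d) := by
  induction c with
  | nil => simp [ev, prodLR]
  | cons e c ih =>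
    have h : prodLR (e :: c) d = (d.map fun f => (lf e, rt f)) ++ prodLR c d := by
      simp [prodLR]
    rw [h]
    simp only [List.map_cons, List.sum_cons]
    rw [ih]
    simp [ev, List.map_append, List.sum_append, Function.comp_def]

def listL : List (Fin 20 × Fin 20) :=
  (II.map fun p => (lf p.1, lf p.2)) ++
    CC.flatMap fun c => (lf c, cn 0) :: (lf c, cn 1) :: Q0.map fun f => (lf c, rt f)

def listR : List (Fin 20 × Fin 20) :=
  (II.map fun p => (rt p.1, rt p.2)) ++
    CC.flatMap fun d => (rt d, cn 0) :: (rt d, cn 1) :: Q0.map fun e => (lf e, rt d)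

theorem listL0 : ev (X0 gs gt) listL = 1 := by decide +kernel
theorem listR0 : ev (X0 gs gt) listR = 1 := by decide +kernel
theorem listL1 : ∀ v e, coef listL v e = 0 := by decide +kernel
theorem listR1 : ∀ v e, coef listR v e = 0 := by decide +kernel

theorem cyc0 : ∀ c ∈ cyc4, ∀ d ∈ cyc4, ev (X0 gs gt) (prodLR c d) = 0 := by decide +kernel
theorem cyc1 : ∀ c ∈ cyc4, ∀ d ∈ cyc4, ∀ v e, coef (prodLR c d) v e = 0 := by decide +kernel
theorem czR0 : ev (X0 gs gt) (prodLR CC tri) = 0 := by decide +kernel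
theorem czR1 : ∀ v e, coef (prodLR CC tri) v e = 0 := by decide +kernel
theorem czL0 : ev (X0 gs gt) (prodLR tri CC) = 0 := by decide +kernel
theorem czL1 : ∀ v e, coef (prodLR tri CC) v e = 0 := by decide +kernel

theorem facts_of (κ : Fin 12 → Fin 20 → ZMod 2) :
    Facts (fun i j => Xof gs gt κ (lf i) (lf j)) (fun i j => Xof gs gt κ (rt i) (rt j))
      (fun i j => Xof gs gt κ (lf i) (rt j)) (fun i g => Xof gs gt κ (lf i) (cn g))
      (fun i g => Xof gs gt κ (rt i) (cn g)) := by
  refine ⟨?_, ?_, ?_, ?_, ?_⟩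
  · rw [← ev_eq κ listL 1 listL0 listL1]
    simp only [ev, listL, II, CC, Q0, List.map_cons, List.map_nil, List.sum_cons, List.sum_nil,
      List.flatMap_cons, List.flatMap_nil, List.cons_append, List.nil_append]
    ring
  · rw [← ev_eq κ listR 1 listR0 listR1]
    simp only [ev, listR, II, CC, Q0, List.map_cons, List.map_nil, List.sum_cons, List.sum_nil,
      List.flatMap_cons, List.flatMap_nil, List.cons_append, List.nil_append]
    ring
  · intro c hc d hd
    rw [ev_prodLR (Xof gs gt κ) c d]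
    exact ev_eq κ _ 0 (cyc0 c hc d hd) (cyc1 c hc d hd)
  · rw [ev_prodLR (Xof gs gt κ) CC tri]
    exact ev_eq κ _ 0 czR0 czR1
  · rw [ev_prodLR (Xof gs gt κ) tri CC]
    exact ev_eq κ _ 0 czL0 czL1

theorem sum_swap (X : Fin 9 → Fin 9 → ZMod 2) (c d : List (Fin 9)) :
    (c.map fun e => (d.map fun f => X e f).sum).sum =
      (d.map fun f => (c.map fun e => X e f).sum).sum := by
  induction c with
  | nil => simp
  | cons e c ih =>
    simp only [List.map_cons, List.sum_cons]
    rw [ih, ← List.sum_map_add]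

theorem Facts.swap {XL XR XM : Fin 9 → Fin 9 → ZMod 2} {AL AR : Fin 9 → Fin 2 → ZMod 2}
    (h : Facts XL XR XM AL AR) : Facts XR XL (fun i j => XM j i) AR AL where
  fL := h.fR
  fR := h.fL
  cyc := by
    intro c hc d hd
    rw [sum_swap]
    exact h.cyc d hd c hc
  czR := by
    rw [sum_swap]
    exact h.czL
  czL := by
    rw [sum_swap]
    exact h.czR

/-- The pairs of the bound, for the left extra edge lowered. -/
def pairs : List (Fin 20 × Fin 20) :=
  (II.map fun p => (lf p.1, lf p.2)) ++ (II.map fun p => (rt p.1, rt p.2)) ++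
    (CC.flatMap fun c => [(lf c, cn 0), (lf c, cn 1)]) ++
    (CC.flatMap fun c => [(rt c, cn 0), (rt c, cn 1)]) ++
    prodLR (List.finRange 9) (List.finRange 9)

theorem pairs_nodup : pairs.Nodup := by decide +kernel

theorem pairs_ok : ∀ p ∈ pairs, p.1 < p.2 ∧ Indep gs gt p.1 p.2 := by decide +kernel

theorem pairs_le (κ : Fin 12 → Fin 20 → ZMod 2) (w : Fin 20 → ℕ) :
    (pairs.map fun p => if Xof gs gt κ p.1 p.2 ≠ 0 then w p.1 * w p.2 else 0).sum ≤
      Cost gs gt κ w := by
  unfold Cost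
  rw [← Finset.sum_product']
  have h1 : (pairs.map fun p => if Xof gs gt κ p.1 p.2 ≠ 0 then w p.1 * w p.2 else 0).sum =
      ∑ p ∈ pairs.toFinset, if p.1 < p.2 ∧ Indep gs gt p.1 p.2 ∧ Xof gs gt κ p.1 p.2 ≠ 0 then
        w p.1 * w p.2 else 0 := by
    rw [List.sum_toFinset _ pairs_nodup]
    congr 1
    refine List.map_congr_left fun p hp => ?_
    obtain ⟨h1, h2⟩ := pairs_ok p hp
    simp [h1, h2]
  rw [h1]
  refine Finset.sum_le_sum_of_subset_of_nonneg (Finset.subset_univ _) ?_
  intro p _ _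
  exact Nat.zero_le _

theorem sum_prodLR (H : Fin 20 × Fin 20 → ℕ) (c d : List (Fin 9)) :
    ((prodLR c d).map H).sum = (c.map fun e => (d.map fun f => H (lf e, rt f)).sum).sum := by
  induction c with
  | nil => simp [prodLR]
  | cons e c ih =>
    have h : prodLR (e :: c) d = (d.map fun f => (lf e, rt f)) ++ prodLR c d := by
      simp [prodLR]
    rw [h, List.map_append, List.sum_append, ih]
    simp [Function.comp_def]

theorem sum_pairs (H : Fin 20 × Fin 20 → ℕ) :
    (pairs.map H).sum = (II.map fun p => H (lf p.1, lf p.2)).sum +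
      (II.map fun p => H (rt p.1, rt p.2)).sum +
      (CC.map fun c => ∑ g, H (lf c, cn g)).sum + (CC.map fun c => ∑ g, H (rt c, cn g)).sum +
      ∑ e, ∑ f, H (lf e, rt f) := by
  unfold pairs
  rw [List.map_append, List.map_append, List.map_append, List.map_append, List.sum_append,
    List.sum_append, List.sum_append, List.sum_append, sum_prodLR]
  have h5 : ∑ e, ∑ f, H (lf e, rt f) =
      ((List.finRange 9).map fun e => ((List.finRange 9).map fun f => H (lf e, rt f)).sum).sum := by
    rw [Fin.sum_univ_def]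
    congr 1
  have h3 : ((CC.flatMap fun c => [(lf c, cn 0), (lf c, cn 1)]).map H).sum =
      (CC.map fun c => ∑ g, H (lf c, cn g)).sum := by
    simp only [CC, List.flatMap_cons, List.flatMap_nil, List.cons_append, List.nil_append,
      List.map_cons, List.map_nil, List.sum_cons, List.sum_nil, Fin.sum_univ_two]
    ring
  have h4 : ((CC.flatMap fun c => [(rt c, cn 0), (rt c, cn 1)]).map H).sum =
      (CC.map fun c => ∑ g, H (rt c, cn g)).sum := by
    simp only [CC, List.flatMap_cons, List.flatMap_nil, List.cons_append, List.nil_append,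
      List.map_cons, List.map_nil, List.sum_cons, List.sum_nil, Fin.sum_univ_two]
    ring
  rw [h3, h4, h5, List.map_map, List.map_map]
  rfl

theorem II_ne : ∀ p ∈ II, lf p.1 ≠ 8 ∧ lf p.2 ≠ 8 ∧ rt p.1 ≠ 8 ∧ rt p.2 ≠ 8 ∧
    lf p.1 ≠ 17 ∧ lf p.2 ≠ 17 ∧ rt p.1 ≠ 17 ∧ rt p.2 ≠ 17 := by decide +kernel

theorem CC_ne : ∀ p ∈ CC, lf p ≠ 8 ∧ rt p ≠ 8 ∧ lf p ≠ 17 ∧ rt p ≠ 17 := by decide +kernel

theorem cn_ne : ∀ g, cn g ≠ 8 ∧ cn g ≠ 17 := by decide +kernel

theorem rt_ne8 : ∀ f, rt f ≠ 8 := by decide +kernel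

theorem lf_ne17 : ∀ f, lf f ≠ 17 := by decide +kernel

theorem low_lf (m : Fin 20 → ℕ) : ∀ e, low (fun i => m (lf i)) e =
    Function.update m 8 (m 8 - 1) (lf e) := by
  intro e
  by_cases h : e = 8
  · subst h
    simp [low]
    rfl
  · have h' : lf e ≠ 8 := by
      revert h
      revert e
      decide +kernel
    simp [low, h, h']

theorem low_rt (m : Fin 20 → ℕ) : ∀ e, low (fun i => m (rt i)) e =
    Function.update m 17 (m 17 - 1) (rt e) := by
  intro e
  by_cases h : e = 8
  · subst h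
    simp [low]
    rfl
  · have h' : rt e ≠ 17 := by
      revert h
      revert e
      decide +kernel
    simp [low, h, h']

theorem bcost_le_left (κ : Fin 12 → Fin 20 → ZMod 2) (m : Fin 20 → ℕ) :
    bcost (fun i j => Xof gs gt κ (lf i) (lf j)) (fun i j => Xof gs gt κ (rt i) (rt j))
      (fun i j => Xof gs gt κ (lf i) (rt j)) (fun i g => Xof gs gt κ (lf i) (cn g))
      (fun i g => Xof gs gt κ (rt i) (cn g)) (fun i => m (lf i)) (fun i => m (rt i))
      (fun g => m (cn g)) ≤ Cost gs gt κ (Function.update m 8 (m 8 - 1)) := by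
  refine le_trans (le_of_eq ?_) (pairs_le κ _)
  rw [sum_pairs]
  unfold bcost
  have h5 : (∑ e, ∑ f, if Xof gs gt κ (lf e) (rt f) ≠ 0 then
      low (fun i => m (lf i)) e * m (rt f) else 0) =
      ∑ e, ∑ f, if Xof gs gt κ (lf e) (rt f) ≠ 0 then
        Function.update m 8 (m 8 - 1) (lf e) * Function.update m 8 (m 8 - 1) (rt f) else 0 := by
    refine Finset.sum_congr rfl fun e _ => Finset.sum_congr rfl fun f _ => ?_
    rw [low_lf]
    simp [rt_ne8]
  have h1 : (II.map fun p => if Xof gs gt κ (rt p.1) (rt p.2) ≠ 0 then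
      m (rt p.1) * m (rt p.2) else 0).sum =
      (II.map fun p => if Xof gs gt κ (rt p.1) (rt p.2) ≠ 0 then
        Function.update m 8 (m 8 - 1) (rt p.1) * Function.update m 8 (m 8 - 1) (rt p.2)
        else 0).sum := by
    refine congrArg List.sum (List.map_congr_left fun p hp => ?_)
    simp [rt_ne8]
  have h2 : (II.map fun p => if Xof gs gt κ (lf p.1) (lf p.2) ≠ 0 then
      m (lf p.1) * m (lf p.2) else 0).sum =
      (II.map fun p => if Xof gs gt κ (lf p.1) (lf p.2) ≠ 0 then
        Function.update m 8 (m 8 - 1) (lf p.1) * Function.update m 8 (m 8 - 1) (lf p.2)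
        else 0).sum := by
    refine congrArg List.sum (List.map_congr_left fun p hp => ?_)
    obtain ⟨h1, h2, h3, h4, h5, h6, h7, h8⟩ := II_ne p hp
    simp [h1, h2]
  have h3 : (CC.map fun c => ∑ g, if Xof gs gt κ (rt c) (cn g) ≠ 0 then
      m (rt c) * m (cn g) else 0).sum =
      (CC.map fun c => ∑ g, if Xof gs gt κ (rt c) (cn g) ≠ 0 then
        Function.update m 8 (m 8 - 1) (rt c) * Function.update m 8 (m 8 - 1) (cn g)
        else 0).sum := by
    refine congrArg List.sum (List.map_congr_left fun p hp => ?_)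
    simp [rt_ne8, (cn_ne _).1]
  have h4 : (CC.map fun c => ∑ g, if Xof gs gt κ (lf c) (cn g) ≠ 0 then
      m (lf c) * m (cn g) else 0).sum =
      (CC.map fun c => ∑ g, if Xof gs gt κ (lf c) (cn g) ≠ 0 then
        Function.update m 8 (m 8 - 1) (lf c) * Function.update m 8 (m 8 - 1) (cn g)
        else 0).sum := by
    refine congrArg List.sum (List.map_congr_left fun p hp => ?_)
    obtain ⟨h1, h2, h3, h4⟩ := CC_ne p hp
    simp [h1, (cn_ne _).1]
  dsimp only
  rw [h1, h2, h3, h4, h5]

theorem bcost_le_right (κ : Fin 12 → Fin 20 → ZMod 2) (m : Fin 20 → ℕ) :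
    bcost (fun i j => Xof gs gt κ (rt i) (rt j)) (fun i j => Xof gs gt κ (lf i) (lf j))
      (fun i j => Xof gs gt κ (lf j) (rt i)) (fun i g => Xof gs gt κ (rt i) (cn g))
      (fun i g => Xof gs gt κ (lf i) (cn g)) (fun i => m (rt i)) (fun i => m (lf i))
      (fun g => m (cn g)) ≤ Cost gs gt κ (Function.update m 17 (m 17 - 1)) := by
  refine le_trans (le_of_eq ?_) (pairs_le κ _)
  rw [sum_pairs]
  unfold bcost
  have h5 : (∑ e, ∑ f, if Xof gs gt κ (lf f) (rt e) ≠ 0 then
      low (fun i => m (rt i)) e * m (lf f) else 0) =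
      ∑ e, ∑ f, if Xof gs gt κ (lf e) (rt f) ≠ 0 then
        Function.update m 17 (m 17 - 1) (lf e) * Function.update m 17 (m 17 - 1) (rt f) else 0 := by
    rw [Finset.sum_comm]
    refine Finset.sum_congr rfl fun e _ => Finset.sum_congr rfl fun f _ => ?_
    rw [low_rt]
    simp [lf_ne17, mul_comm]
  have h1 : (II.map fun p => if Xof gs gt κ (rt p.1) (rt p.2) ≠ 0 then
      m (rt p.1) * m (rt p.2) else 0).sum =
      (II.map fun p => if Xof gs gt κ (rt p.1) (rt p.2) ≠ 0 then
        Function.update m 17 (m 17 - 1) (rt p.1) * Function.update m 17 (m 17 - 1) (rt p.2)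
        else 0).sum := by
    refine congrArg List.sum (List.map_congr_left fun p hp => ?_)
    obtain ⟨h1, h2, h3, h4, h5, h6, h7, h8⟩ := II_ne p hp
    simp [h7, h8]
  have h2 : (II.map fun p => if Xof gs gt κ (lf p.1) (lf p.2) ≠ 0 then
      m (lf p.1) * m (lf p.2) else 0).sum =
      (II.map fun p => if Xof gs gt κ (lf p.1) (lf p.2) ≠ 0 then
        Function.update m 17 (m 17 - 1) (lf p.1) * Function.update m 17 (m 17 - 1) (lf p.2)
        else 0).sum := by
    refine congrArg List.sum (List.map_congr_left fun p hp => ?_)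
    simp [lf_ne17]
  have h3 : (CC.map fun c => ∑ g, if Xof gs gt κ (rt c) (cn g) ≠ 0 then
      m (rt c) * m (cn g) else 0).sum =
      (CC.map fun c => ∑ g, if Xof gs gt κ (rt c) (cn g) ≠ 0 then
        Function.update m 17 (m 17 - 1) (rt c) * Function.update m 17 (m 17 - 1) (cn g)
        else 0).sum := by
    refine congrArg List.sum (List.map_congr_left fun p hp => ?_)
    obtain ⟨h1, h2, h3, h4⟩ := CC_ne p hp
    simp [h4, (cn_ne _).2]
  have h4 : (CC.map fun c => ∑ g, if Xof gs gt κ (lf c) (cn g) ≠ 0 then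
      m (lf c) * m (cn g) else 0).sum =
      (CC.map fun c => ∑ g, if Xof gs gt κ (lf c) (cn g) ≠ 0 then
        Function.update m 17 (m 17 - 1) (lf c) * Function.update m 17 (m 17 - 1) (cn g)
        else 0).sum := by
    refine congrArg List.sum (List.map_congr_left fun p hp => ?_)
    simp [lf_ne17, (cn_ne _).2]
  dsimp only
  rw [h1, h2, h3, h4, h5]
  ring

end Pool.Agent.KUR
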