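import Pool.Agent.KUR.Top
import Pool.Agent.KUR.Avg

set_option autoImplicit false

open Finset

namespace Pool.Agent.KUR

theorem lower {n k : ℕ} (s t : Fin k → Fin n) {ι : Type} [Fintype ι] [DecidableEq ι]
    (π : ι → Fin k) (D : Drawing (fun e => s (π e)) (fun e => t (π e))) :
    ∃ κ : Fin n → Fin k → ZMod 2, Cost s t κ (fib π) ≤ crossings D := by
  classical
  obtain ⟨κ, hκ⟩ := vanKampen (fun e => s (π e)) (fun e => t (π e)) D
  obtain ⟨κ', h'⟩ := average s t π κ
  refine ⟨κ', ?_⟩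
  unfold crossings
  rw [Nat.le_div_iff_mul_le (by norm_num)]
  rw [mul_comm]
  refine h'.trans ?_
  refine Finset.sum_le_sum fun e _ => Finset.sum_le_sum fun f _ => ?_
  by_cases h : Indep s t (π e) (π f) ∧ Xof (fun e => s (π e)) (fun e => t (π e)) κ e f ≠ 0
  · rw [if_pos h]
    have hne : e ≠ f := by
      rintro rfl
      exact h.1.1 rfl
    rw [if_neg hne]
    by_contra hc
    have h0 : cross D e f = 0 := by omega
    exact h.2 (hκ e f h.1.1 h.1.2.1 h.1.2.2.1 h.1.2.2.2 h0)
  · rw [if_neg h]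
    exact Nat.zero_le _

end Pool.Agent.KUR
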