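import Pool.Agent.KUR.Defs

/-!
# Deleting an edge
-/

set_option autoImplicit false

open Finset

namespace Pool.Agent.KUR

/-- The numbers of copies after the deletion of the copy `e`. -/
theorem fib_sub (m : Fin 20 → ℕ) (e : Σ i, Fin (m i)) :
    fib (fun f : {f : Σ i, Fin (m i) // f ≠ e} => f.1.1) = Function.update m e.1 (m e.1 - 1) := by
  classical
  funext i
  have hall : (univ.filter fun f : Σ i, Fin (m i) => f.1 = i).card = m i := by
    rw [← Fintype.card_subtype, Fintype.card_congr (Equiv.sigmaSubtype i)]
    simp
  have h1 : (univ.filter fun f : {f : Σ i, Fin (m i) // f ≠ e} => f.1.1 = i).card =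
      ((univ.filter fun f : Σ i, Fin (m i) => f.1 = i).erase e).card := by
    refine Finset.card_bij (fun f _ => f.1) ?_ ?_ ?_
    · intro f hf
      simp only [mem_filter, mem_univ, true_and] at hf
      simp only [mem_erase, mem_filter, mem_univ, true_and]
      exact ⟨f.2, hf⟩
    · intro f _ g _ h
      exact Subtype.ext h
    · intro f hf
      simp only [mem_erase, mem_filter, mem_univ, true_and] at hf
      exact ⟨⟨f, hf.1⟩, by simpa using hf.2, rfl⟩
  unfold fib
  rw [h1]
  by_cases h : i = e.1
  · subst h
    rw [Finset.card_erase_of_mem (by simp), hall]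
    simp
  · rw [Finset.erase_eq_of_notMem, hall, Function.update_of_ne h]
    simp only [mem_filter, mem_univ, true_and]
    exact fun h' => h h'.symm

/-- The restriction of a drawing to a set of edges. -/
def restr {V ι : Type} {s t : ι → V} (D : Drawing s t) (P : ι → Prop) :
    Drawing (fun f : {f : ι // P f} => s f) (fun f : {f : ι // P f} => t f) where
  pt := D.pt
  pt_inj := D.pt_inj
  arc := fun f => D.arc f
  arc_cont := fun f => D.arc_cont f
  arc_inj := fun f => D.arc_inj f
  arc_zero := fun f => D.arc_zero f
  arc_one := fun f => D.arc_one f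
  avoid := fun f => D.avoid f
  fin := fun e f h => D.fin e f fun h' => h (Subtype.ext h')

/-- Deleting an edge does not increase the crossing number of a graph that has a drawing. -/
theorem cr_sub_le {V ι : Type} [Fintype ι] [DecidableEq ι] {s t : ι → V}
    (h : Nonempty (Drawing s t)) (e : ι) :
    cr (fun f : {f : ι // f ≠ e} => s f) (fun f : {f : ι // f ≠ e} => t f) ≤ cr s t := by
  classical
  obtain ⟨D0⟩ := h
  obtain ⟨D, hD⟩ := Nat.sInf_mem (s := Set.range fun D : Drawing s t => crossings D)
    ⟨_, ⟨D0, rfl⟩⟩
  have h1 : crossings (restr D fun f => f ≠ e) ≤ crossings D := by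
    unfold crossings
    apply Nat.div_le_div_right
    have hsub : ∀ g : ι → ℕ, ∑ f : {f : ι // f ≠ e}, g f ≤ ∑ f, g f := by
      intro g
      rw [← Finset.sum_subtype (univ.filter fun f => f ≠ e) (fun x => by simp) g]
      exact Finset.sum_le_sum_of_subset (Finset.filter_subset _ _)
    have hcongr : ∀ a b : {f : ι // f ≠ e},
        (if a = b then 0 else cross (restr D fun f => f ≠ e) a b) =
          if (a : ι) = b then 0 else cross D a b := by
      intro a b
      by_cases hab : a = b
      · simp [hab]
      · rw [if_neg hab, if_neg fun h' => hab (Subtype.ext h')]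
        rfl
    simp only [hcongr]
    refine le_trans (Finset.sum_le_sum fun (a : {f : ι // f ≠ e}) _ =>
      hsub fun b => if (a : ι) = b then 0 else cross D a b) ?_
    exact hsub fun a => ∑ b, (if a = b then 0 else cross D a b)
  unfold cr
  rw [← hD]
  exact le_trans (Nat.sInf_le (Set.mem_range_self (restr D fun f => f ≠ e))) h1

end Pool.Agent.KUR
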