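import Pool.Agent.KUR.Sym
import Pool.Agent.KUR.Compat
import Pool.Agent.KUR.Data

set_option autoImplicit false

open Finset

namespace Pool.Agent.KUR

theorem bounds_left (m : Fin 20 → ℕ) :
    Bounds (fun i => m (lf i)) (fun i => m (rt i)) (fun g => m (cn g)) (crM m) := by
  have A := alls_of_reps reps
  refine ⟨?_, ?_, ?_, ?_, ?_⟩
  · intro p hp q hq
    have h := A.a00 p hp q hq m
    simpa [pat00] using h
  · intro c hc q hq
    obtain ⟨i, hi, q', hq', hn, hle⟩ := compat_min (fun i => m (rt i)) q hq
    have h := A.a10 c hc i q' hq' hn m
    refine h.trans ?_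
    rw [hi]
    simp only [pat10, List.map_append, List.map_map, List.sum_append, List.map_cons, List.map_nil,
      List.sum_cons, List.sum_nil, add_zero]
    refine add_le_add (le_of_eq ?_) hle
    unfold wt
    rw [← List.sum_map_mul_left]
    rfl
  · intro c hc g q hq
    have h := A.aq c hc g q hq m
    simpa [patq] using h
  · intro d hd g p hp
    have h := A.ap d hd g p hp m
    simpa [patp] using h
  · intro c hc d hd g g'
    have h := A.a11 c hc d hd g g' m
    simpa [pat11] using h

/-- The exchange of the two pieces on the edges. -/
def swEf : Fin 20 → Fin 20 :=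
  ![9, 10, 11, 12, 13, 14, 15, 16, 17, 0, 1, 2, 3, 4, 5, 6, 7, 8, 18, 19]

/-- The exchange of the two pieces on the edges. -/
def swE : Equiv.Perm (Fin 20) := ⟨swEf, swEf, by unfold Function.LeftInverse; decide,
  by unfold Function.RightInverse Function.LeftInverse; decide⟩

/-- The exchange of the two pieces on the vertices. -/
def swVf : Fin 12 → Fin 12 := ![6, 7, 8, 9, 10, 11, 0, 1, 2, 3, 4, 5]

/-- The exchange of the two pieces on the vertices. -/
def swV : Equiv.Perm (Fin 12) := ⟨swVf, swVf, by unfold Function.LeftInverse; decide,
  by unfold Function.RightInverse Function.LeftInverse; decide⟩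

theorem bounds_right (m : Fin 20 → ℕ) :
    Bounds (fun i => m (rt i)) (fun i => m (lf i)) (fun g => m (cn g)) (crM m) := by
  have hb := bounds_left (fun i => m (swE i))
  rw [crM_comp swV swE (by decide) m] at hb
  have e1 : (fun i => m (swE (lf i))) = fun i => m (rt i) := by
    funext i
    congr 1
    revert i
    decide
  have e2 : (fun i => m (swE (rt i))) = fun i => m (lf i) := by
    funext i
    congr 1
    revert i
    decide
  have e3 : (fun g => m (swE (cn g))) = fun g => m (cn g) := by
    funext g
    congr 1
    revert g
    decide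
  rw [e1, e2, e3] at hb
  exact hb

end Pool.Agent.KUR
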