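import Pool.Agent.KUR.Lower
import Pool.Agent.KUR.Comb
import Pool.Agent.KUR.Lin
import Pool.Agent.KUR.Up
import Pool.Agent.KUR.Sub
import Pool.Agent.KUR.Kura

set_option autoImplicit false

open Finset

namespace Pool.Agent.KUR

theorem exists_cost (m : Fin 20 → ℕ) (e : Σ i, Fin (m i))
    (h : cr (fun f : {f : Σ i, Fin (m i) // f ≠ e} => mul gs m f)
      (fun f : {f : Σ i, Fin (m i) // f ≠ e} => mul gt m f) < cr (mul gs m) (mul gt m)) :
    ∃ κ, Cost gs gt κ (Function.update m e.1 (m e.1 - 1)) < crM m := by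
  classical
  obtain ⟨D0⟩ := exists_drawing m
  obtain ⟨D1⟩ := drawing_sub D0 (fun f => f ≠ e)
  obtain ⟨D, hD⟩ := Nat.sInf_mem (s := Set.range fun D : Drawing
    (fun f : {f : Σ i, Fin (m i) // f ≠ e} => mul gs m f)
      (fun f : {f : Σ i, Fin (m i) // f ≠ e} => mul gt m f) => crossings D) ⟨_, ⟨D1, rfl⟩⟩
  have key : ∃ κ, Cost gs gt κ (fib fun f : {f : Σ i, Fin (m i) // f ≠ e} => f.1.1) ≤
      crossings D :=
    lower gs gt (fun f : {f : Σ i, Fin (m i) // f ≠ e} => f.1.1) D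
  obtain ⟨κ, hκ⟩ := key
  rw [fib_sub] at hκ
  exact ⟨κ, lt_of_le_of_lt hκ (lt_of_eq_of_lt hD h)⟩

/-- No multiplication of the graph is crossing-critical. -/
theorem not_critical (m : Fin 20 → ℕ) (hm : ∀ i, 1 ≤ m i) :
    ¬ CrossingCritical (mul gs m) (mul gt m) := by
  intro hc
  rcases le_total (lam fun i => m (rt i)) (lam fun i => m (lf i)) with hle | hle
  · obtain ⟨κ, hκ⟩ := exists_cost m ⟨8, ⟨0, hm 8⟩⟩ (hc ⟨8, ⟨0, hm 8⟩⟩)
    have h1 := comb (facts_of κ) (fun i => m (lf i)) (fun i => m (rt i)) (fun g => m (cn g))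
      (fun i => hm _) (fun i => hm _) (fun i => hm _) hle (crM m) (bounds_left m)
    have h2 := bcost_le_left κ m
    exact absurd (h1.trans h2) (not_le.2 hκ)
  · obtain ⟨κ, hκ⟩ := exists_cost m ⟨17, ⟨0, hm 17⟩⟩ (hc ⟨17, ⟨0, hm 17⟩⟩)
    have h1 := comb (facts_of κ).swap (fun i => m (rt i)) (fun i => m (lf i)) (fun g => m (cn g))
      (fun i => hm _) (fun i => hm _) (fun i => hm _) hle (crM m) (bounds_right m)
    have h2 := bcost_le_right κ m
    exact absurd (h1.trans h2) (not_le.2 hκ)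

/-- Every multiplication of the graph has an edge whose deletion does not change the crossing
number. -/
theorem exists_not_critical_edge (m : Fin 20 → ℕ) (hm : ∀ i, 1 ≤ m i) :
    ∃ e : Σ i, Fin (m i), cr (fun f : {f : Σ i, Fin (m i) // f ≠ e} => mul gs m f)
      (fun f : {f : Σ i, Fin (m i) // f ≠ e} => mul gt m f) = cr (mul gs m) (mul gt m) := by
  by_contra hne
  push Not at hne
  exact not_critical m hm fun e =>
    lt_of_le_of_ne (cr_sub_le (exists_drawing m) e) (hne e)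

end Pool.Agent.KUR
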