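import Pool.Agent.KUR.Comb0

set_option autoImplicit false

open Finset

namespace Pool.Agent.KUR

/-- The set of crossing pairs `P` can be realised. -/
def Real (P : List (Fin 20 × Fin 20)) : Prop :=
  ∀ w, crM w ≤ (P.map fun p => w p.1 * w p.2).sum

/-- The cuts of the piece by number. -/
def cutL (i : Fin 11) : List (Fin 9) := cuts.get ⟨i.1, by
  have : cuts.length = 11 := rfl
  omega⟩

/-- The pairs of crossing edges that are not compatible with a cut. -/
def incomp : Fin 11 → List (Fin 9 × Fin 9) :=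
  ![[], [(0, 2), (0, 3), (0, 5), (0, 7)], [(1, 2), (1, 3), (1, 4), (1, 6)],
    [(0, 2), (0, 3), (1, 2), (1, 3)], [(0, 3), (3, 4), (0, 7), (4, 7)],
    [(0, 2), (2, 6), (0, 5), (5, 6)], [(1, 3), (3, 5), (1, 6), (5, 6)],
    [(1, 2), (2, 7), (1, 4), (4, 7)], [(0, 3), (1, 3), (3, 4), (3, 5)],
    [(0, 2), (1, 2), (2, 6), (2, 7)], []]

/-- The edge `c` crosses the cut `i` of the right piece and the pair `q` of the right piece
crosses. -/
def pat10 (c : Fin 9) (i : Fin 11) (q : Fin 9 × Fin 9) : List (Fin 20 × Fin 20) :=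
  ((cutL i).map fun f => (lf c, rt f)) ++ [(rt q.1, rt q.2)]

/-- A crossing pair on each side. -/
def pat00 (p q : Fin 9 × Fin 9) : List (Fin 20 × Fin 20) :=
  [(lf p.1, lf p.2), (rt q.1, rt q.2)]

/-- The edge `c` crosses a connecting edge and the pair `q` of the right piece crosses. -/
def patq (c : Fin 9) (g : Fin 2) (q : Fin 9 × Fin 9) : List (Fin 20 × Fin 20) :=
  [(lf c, cn g), (rt q.1, rt q.2)]

/-- The same with left and right exchanged. -/
def patp (d : Fin 9) (g : Fin 2) (p : Fin 9 × Fin 9) : List (Fin 20 × Fin 20) :=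
  [(rt d, cn g), (lf p.1, lf p.2)]

/-- Two crossings with connecting edges. -/
def pat11 (c d : Fin 9) (g g' : Fin 2) : List (Fin 20 × Fin 20) :=
  [(lf c, cn g), (rt d, cn g')]

/-- Representatives of the pairs. -/
def rpair : List (Fin 9 × Fin 9) := [(0, 2), (3, 4), (1, 4), (4, 7)]

/-- Representatives of the compatible cuts and pairs. -/
def rep10 : List (Fin 11 × (Fin 9 × Fin 9)) :=
  [(0, (0, 2)), (0, (3, 4)), (0, (1, 4)), (0, (4, 7)), (1, (1, 2)), (1, (3, 4)), (1, (3, 5)),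
    (1, (1, 4)), (1, (4, 7)), (3, (3, 4)), (3, (1, 4)), (3, (4, 7)), (4, (0, 2)), (4, (1, 2)),
    (4, (1, 3)), (4, (3, 5)), (4, (2, 6)), (4, (2, 7)), (4, (1, 4)), (4, (1, 6)), (4, (0, 5)),
    (4, (5, 6)), (8, (0, 2)), (8, (2, 6)), (8, (1, 4)), (8, (1, 6)), (8, (4, 7)), (10, (0, 2)),
    (10, (3, 4)), (10, (1, 4)), (10, (4, 7))]

/-- What the explicit drawings give. The edge `4` of each piece is the edge `14`. -/
structure Reps : Prop where
  r00 : ∀ p ∈ rpair, ∀ q ∈ rpair, Real (pat00 p q)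
  r10 : ∀ x ∈ rep10, Real (pat10 4 x.1 x.2)
  rq : ∀ g, ∀ q ∈ rpair, Real (patq 4 g q)
  r11 : ∀ g g', Real (pat11 4 4 g g')

/-- The closure under the automorphisms. -/
structure Alls : Prop where
  a00 : ∀ p ∈ II, ∀ q ∈ II, Real (pat00 p q)
  a10 : ∀ c ∈ CC, ∀ i, ∀ q ∈ II, q ∉ incomp i → Real (pat10 c i q)
  aq : ∀ c ∈ CC, ∀ g, ∀ q ∈ II, Real (patq c g q)
  ap : ∀ d ∈ CC, ∀ g, ∀ p ∈ II, Real (patp d g p)
  a11 : ∀ c ∈ CC, ∀ d ∈ CC, ∀ g g', Real (pat11 c d g g')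

end Pool.Agent.KUR
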