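import Pool.Agent.KUR.Real0
import Pool.Agent.KUR.Iso

set_option autoImplicit false

open Finset

namespace Pool.Agent.KUR

namespace Sym

/-- The action of the four automorphisms of a piece on its edges. -/
def pe : Fin 4 → Fin 9 → Fin 9 :=
  ![![0, 1, 2, 3, 4, 5, 6, 7, 8], ![0, 1, 3, 2, 6, 7, 4, 5, 8], ![1, 0, 2, 3, 5, 4, 7, 6, 8],
    ![1, 0, 3, 2, 7, 6, 5, 4, 8]]

/-- The automorphisms of the left piece: action on the edges. -/
def eL : Fin 4 → Fin 20 → Fin 20 :=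
  ![![0, 1, 2, 3, 4, 5, 6, 7, 8, 9, 10, 11, 12, 13, 14, 15, 16, 17, 18, 19],
    ![0, 1, 3, 2, 6, 7, 4, 5, 8, 9, 10, 11, 12, 13, 14, 15, 16, 17, 18, 19],
    ![1, 0, 2, 3, 5, 4, 7, 6, 8, 9, 10, 11, 12, 13, 14, 15, 16, 17, 18, 19],
    ![1, 0, 3, 2, 7, 6, 5, 4, 8, 9, 10, 11, 12, 13, 14, 15, 16, 17, 18, 19]]

/-- The automorphisms of the left piece: action on the vertices. -/
def vL : Fin 4 → Fin 12 → Fin 12 :=
  ![![0, 1, 2, 3, 4, 5, 6, 7, 8, 9, 10, 11], ![0, 1, 3, 2, 4, 5, 6, 7, 8, 9, 10, 11],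
    ![0, 1, 2, 3, 5, 4, 6, 7, 8, 9, 10, 11], ![0, 1, 3, 2, 5, 4, 6, 7, 8, 9, 10, 11]]

/-- The automorphisms of the right piece: action on the edges. -/
def eR : Fin 4 → Fin 20 → Fin 20 :=
  ![![0, 1, 2, 3, 4, 5, 6, 7, 8, 9, 10, 11, 12, 13, 14, 15, 16, 17, 18, 19],
    ![0, 1, 2, 3, 4, 5, 6, 7, 8, 9, 10, 12, 11, 15, 16, 13, 14, 17, 18, 19],
    ![0, 1, 2, 3, 4, 5, 6, 7, 8, 10, 9, 11, 12, 14, 13, 16, 15, 17, 18, 19],
    ![0, 1, 2, 3, 4, 5, 6, 7, 8, 10, 9, 12, 11, 16, 15, 14, 13, 17, 18, 19]]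

/-- The automorphisms of the right piece: action on the vertices. -/
def vR : Fin 4 → Fin 12 → Fin 12 :=
  ![![0, 1, 2, 3, 4, 5, 6, 7, 8, 9, 10, 11], ![0, 1, 2, 3, 4, 5, 6, 7, 9, 8, 10, 11],
    ![0, 1, 2, 3, 4, 5, 6, 7, 8, 9, 11, 10], ![0, 1, 2, 3, 4, 5, 6, 7, 9, 8, 11, 10]]

/-- The exchange of the two pieces: action on the edges. -/
def eX : Fin 20 → Fin 20 :=
  ![9, 10, 11, 12, 13, 14, 15, 16, 17, 0, 1, 2, 3, 4, 5, 6, 7, 8, 18, 19]

/-- The exchange of the two pieces: action on the vertices. -/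
def vX : Fin 12 → Fin 12 := ![6, 7, 8, 9, 10, 11, 0, 1, 2, 3, 4, 5]

theorem real_map (f : Fin 20 → Fin 20) (v : Fin 12 → Fin 12) (hf : ∀ i, f (f i) = i)
    (hv : ∀ i, v (v i) = i)
    (h : ∀ i, (gs (f i) = v (gs i) ∧ gt (f i) = v (gt i)) ∨
      (gs (f i) = v (gt i) ∧ gt (f i) = v (gs i)))
    {P : List (Fin 20 × Fin 20)} (hP : Real P) : Real (P.map fun p => (f p.1, f p.2)) := by
  intro w
  have h1 := crM_comp (Function.Involutive.toPerm v hv) (Function.Involutive.toPerm f hf) h w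
  have h2 := hP fun i => w (f i)
  rw [List.map_map]
  exact h1.symm.le.trans h2

theorem real_L (g : Fin 4) {P : List (Fin 20 × Fin 20)} (hP : Real P) :
    Real (P.map fun p => (eL g p.1, eL g p.2)) :=
  real_map (eL g) (vL g) (by revert g; decide) (by revert g; decide) (by revert g; decide) hP

theorem real_R (g : Fin 4) {P : List (Fin 20 × Fin 20)} (hP : Real P) :
    Real (P.map fun p => (eR g p.1, eR g p.2)) :=
  real_map (eR g) (vR g) (by revert g; decide) (by revert g; decide) (by revert g; decide) hP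

theorem real_X {P : List (Fin 20 × Fin 20)} (hP : Real P) :
    Real (P.map fun p => (eX p.1, eX p.2)) :=
  real_map eX vX (by decide) (by decide) (by decide) hP

theorem real_of_sum {P Q : List (Fin 20 × Fin 20)} (hP : Real P)
    (h : ∀ w : Fin 20 → ℕ, (P.map fun p => w p.1 * w p.2).sum = (Q.map fun p => w p.1 * w p.2).sum) :
    Real Q := fun w => (h w) ▸ hP w

theorem eL_lf : ∀ g x, eL g (lf x) = lf (pe g x) := by decide
theorem eL_rt : ∀ g x, eL g (rt x) = rt x := by decide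
theorem eL_cn : ∀ g x, eL g (cn x) = cn x := by decide
theorem eR_lf : ∀ g x, eR g (lf x) = lf x := by decide
theorem eR_rt : ∀ g x, eR g (rt x) = rt (pe g x) := by decide
theorem eR_cn : ∀ g x, eR g (cn x) = cn x := by decide
theorem eX_lf : ∀ x, eX (lf x) = rt x := by decide
theorem eX_rt : ∀ x, eX (rt x) = lf x := by decide
theorem eX_cn : ∀ x, eX (cn x) = cn x := by decide

theorem pe_CC : ∀ c ∈ CC, ∃ g, pe g 4 = c := by decide

theorem pe_II : ∀ p ∈ II, ∃ r ∈ rpair, ∃ g,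
    (pe g r.1 = p.1 ∧ pe g r.2 = p.2) ∨ (pe g r.1 = p.2 ∧ pe g r.2 = p.1) := by decide

theorem pe_10 : ∀ i : Fin 11, ∀ q ∈ II, q ∉ incomp i → ∃ x ∈ rep10, ∃ g,
    ((cutL x.1).map (pe g)).Perm (cutL i) ∧
    ((pe g x.2.1 = q.1 ∧ pe g x.2.2 = q.2) ∨ (pe g x.2.1 = q.2 ∧ pe g x.2.2 = q.1)) := by
  decide +kernel

end Sym

open Pool.Agent.KUR.Sym

theorem alls_of_reps (h : Reps) : Alls := by
  refine ⟨?_, ?_, ?_, ?_, ?_⟩
  · intro p hp q hq
    obtain ⟨r, hr, g, hg⟩ := pe_II p hp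
    obtain ⟨r', hr', g', hg'⟩ := pe_II q hq
    refine real_of_sum (real_R g' (real_L g (h.r00 r hr r' hr'))) fun w => ?_
    simp only [pat00, List.map_cons, List.map_nil, List.sum_cons, List.sum_nil, eL_lf, eL_rt,
      eR_lf, eR_rt]
    rcases hg with ⟨h1, h2⟩ | ⟨h1, h2⟩ <;> rcases hg' with ⟨h3, h4⟩ | ⟨h3, h4⟩ <;>
      rw [h1, h2, h3, h4] <;> ring
  · intro c hc i q hq hn
    obtain ⟨g, hg⟩ := pe_CC c hc
    obtain ⟨x, hx, g', hP, hg'⟩ := pe_10 i q hq hn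
    refine real_of_sum (real_R g' (real_L g (h.r10 x hx))) fun w => ?_
    have h5 : (((cutL x.1).map (pe g')).map fun f => w (lf c) * w (rt f)).sum =
        ((cutL i).map fun f => w (lf c) * w (rt f)).sum := (hP.map _).sum_eq
    simp only [List.map_map] at h5
    simp only [pat10, List.map_append, List.map_cons, List.map_nil, List.sum_append, List.sum_cons,
      List.sum_nil, List.map_map, eL_lf, eL_rt, eR_lf, eR_rt]
    have h6 : ((fun p : Fin 20 × Fin 20 => w p.1 * w p.2) ∘ (fun p => (eR g' p.1, eR g' p.2)) ∘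
        (fun p => (eL g p.1, eL g p.2)) ∘ fun f : Fin 9 => (lf 4, rt f)) =
        (fun f => w (lf c) * w (rt f)) ∘ pe g' := by
      funext f
      simp only [Function.comp_apply, eL_lf, eL_rt, eR_lf, eR_rt, hg]
    rw [h6, h5]
    have h7 : ((fun p : Fin 20 × Fin 20 => w p.1 * w p.2) ∘ fun f : Fin 9 => (lf c, rt f)) =
        fun f => w (lf c) * w (rt f) := rfl
    rw [h7]
    rcases hg' with ⟨h3, h4⟩ | ⟨h3, h4⟩ <;> rw [h3, h4] <;> ring
  · intro c hc g₀ q hq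
    obtain ⟨g, hg⟩ := pe_CC c hc
    obtain ⟨r', hr', g', hg'⟩ := pe_II q hq
    refine real_of_sum (real_R g' (real_L g (h.rq g₀ r' hr'))) fun w => ?_
    simp only [patq, List.map_cons, List.map_nil, List.sum_cons, List.sum_nil, eL_lf, eL_rt,
      eR_lf, eR_rt, eL_cn, eR_cn, hg]
    rcases hg' with ⟨h3, h4⟩ | ⟨h3, h4⟩ <;> rw [h3, h4] <;> ring
  · intro c hc g₀ q hq
    obtain ⟨g, hg⟩ := pe_CC c hc
    obtain ⟨r', hr', g', hg'⟩ := pe_II q hq
    refine real_of_sum (real_X (real_R g' (real_L g (h.rq g₀ r' hr')))) fun w => ?_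
    simp only [patq, patp, List.map_cons, List.map_nil, List.sum_cons, List.sum_nil, eL_lf, eL_rt,
      eR_lf, eR_rt, eL_cn, eR_cn, eX_lf, eX_rt, eX_cn, hg]
    rcases hg' with ⟨h3, h4⟩ | ⟨h3, h4⟩ <;> rw [h3, h4] <;> ring
  · intro c hc d hd g₀ g₁
    obtain ⟨g, hg⟩ := pe_CC c hc
    obtain ⟨g', hg'⟩ := pe_CC d hd
    refine real_of_sum (real_R g' (real_L g (h.r11 g₀ g₁))) fun w => ?_
    simp only [pat11, List.map_cons, List.map_nil, List.sum_cons, List.sum_nil, eL_lf, eL_rt,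
      eR_lf, eR_rt, eL_cn, eR_cn, hg, hg']

end Pool.Agent.KUR
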