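import Pool.Agent.KUR.Defs

set_option autoImplicit false

open Finset

namespace Pool.Agent.KUR

/-- A continuous function without zeros on a simply connected space has a logarithm. -/
theorem exists_log {X : Type} [TopologicalSpace X] [LocallyPathConnectedSpace X]
    [SimplyConnectedSpace X] (g : X → ℂ) (hg : Continuous g) (h0 : ∀ x, g x ≠ 0) :
    ∃ L : X → ℂ, Continuous L ∧ ∀ x, Complex.exp (L x) = g x := by
  classical
  obtain ⟨x₀⟩ : Nonempty X := inferInstance
  obtain ⟨F, ⟨-, hF⟩, -⟩ := Complex.isCoveringMapOn_exp.existsUnique_continuousMap_lifts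
    (f := (⟨g, hg⟩ : C(X, ℂ))) (a₀ := x₀) (e₀ := Complex.log (g x₀))
    (Complex.exp_log (h0 x₀)) (fun a => h0 a)
  exact ⟨F, F.continuous, fun x => congrFun hF x⟩

/-- The change of a logarithm along the unit interval is determined. -/
theorem log_change {L L' : ℝ → ℂ} (hL : Continuous L) (hL' : Continuous L') {c : ℂ}
    (h : ∀ x, Complex.exp (L' x) = c * Complex.exp (L x)) : L' 1 - L' 0 = L 1 - L 0 := by
  have hd : ∀ x, ∃ n : ℤ, (L' x - L x) - (L' 0 - L 0) = n * (2 * Real.pi * Complex.I) := by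
    intro x
    have h1 : Complex.exp (L' x - L x) = Complex.exp (L' 0 - L 0) := by
      rw [Complex.exp_sub, Complex.exp_sub, h x, h 0, mul_div_assoc, mul_div_assoc,
        div_self (Complex.exp_ne_zero _), div_self (Complex.exp_ne_zero _)]
    obtain ⟨n, hn⟩ := Complex.exp_eq_exp_iff_exists_int.1 h1
    exact ⟨n, by rw [hn]; ring⟩
  choose n hn using hd
  have him : ∀ x, ((n x : ℤ) : ℝ) = ((L' x - L x) - (L' 0 - L 0)).im / (2 * Real.pi) := by
    intro x
    rw [hn x]
    have hpi : (2 * Real.pi : ℝ) ≠ 0 := by positivity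
    field_simp
    simp
  have hcr : Continuous fun x => ((n x : ℤ) : ℝ) := by
    simp_rw [him]
    have : Continuous fun x => ((L' x - L x) - (L' 0 - L 0)) :=
      (hL'.sub hL).sub continuous_const
    exact (Complex.continuous_im.comp this).div_const _
  have hcn : Continuous n := Int.isClosedEmbedding_coe_real.isInducing.continuous_iff.2 hcr
  have hconst : n 1 = n 0 := PreconnectedSpace.constant inferInstance hcn
  have h0 : n 0 = 0 := by
    have := him 0
    simp only [sub_self, Complex.zero_im, zero_div] at this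
    exact_mod_cast this
  have h1 := hn 1
  rw [hconst, h0] at h1
  simp only [Int.cast_zero, zero_mul] at h1
  linear_combination h1

/-- The retraction of the line to the unit interval. -/
noncomputable def clamp (x : ℝ) : ℝ := max 0 (min x 1)

theorem clamp_mem (x : ℝ) : clamp x ∈ Set.Icc (0 : ℝ) 1 := by
  unfold clamp
  exact ⟨le_max_left _ _, max_le zero_le_one (min_le_right _ _)⟩

theorem clamp_cont : Continuous clamp := by
  unfold clamp
  exact continuous_const.max (continuous_id.min continuous_const)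

theorem clamp_zero : clamp 0 = 0 := by
  simp [clamp]

theorem clamp_one : clamp 1 = 1 := by
  simp [clamp]

section

variable {V ι : Type} {s t : ι → V} (D : Drawing s t)

/-- The arcs, extended to the line. -/
noncomputable def arx (e : ι) (x : ℝ) : ℂ := D.arc e (clamp x)

theorem arx_cont (e : ι) : Continuous (arx D e) :=
  (D.arc_cont e).comp_continuous clamp_cont clamp_mem

theorem arx_zero (e : ι) : arx D e 0 = D.pt (s e) := by
  rw [arx, clamp_zero, D.arc_zero]

theorem arx_one (e : ι) : arx D e 1 = D.pt (t e) := by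
  rw [arx, clamp_one, D.arc_one]

/-- The arc of an edge misses the other vertices. -/
theorem arx_ne (e : ι) (v : V) (h1 : v ≠ s e) (h2 : v ≠ t e) (x : ℝ) :
    arx D e x ≠ D.pt v := by
  unfold arx
  obtain ⟨ha, hb⟩ := clamp_mem x
  rcases eq_or_lt_of_le ha with ha | ha
  · rw [← ha, D.arc_zero]
    exact fun h => h1 (D.pt_inj h).symm
  · rcases eq_or_lt_of_le hb with hb | hb
    · rw [hb, D.arc_one]
      exact fun h => h2 (D.pt_inj h).symm
    · exact D.avoid e v _ ⟨ha, hb⟩

/-- The arcs of two independent edges that do not cross are disjoint. -/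
theorem arx_disj (e f : ι) (h1 : s e ≠ s f) (h2 : s e ≠ t f) (h3 : t e ≠ s f) (h4 : t e ≠ t f)
    (hc : cross D e f = 0) (x y : ℝ) : arx D e x ≠ arx D f y := by
  intro h
  have hef : e ≠ f := fun h => h1 (by rw [h])
  obtain ⟨ha, hb⟩ := clamp_mem x
  obtain ⟨hc', hd⟩ := clamp_mem y
  rcases eq_or_lt_of_le ha with ha | ha
  · have : arx D e x = D.pt (s e) := by rw [arx, ← ha, D.arc_zero]
    exact arx_ne D f (s e) h1 h2 y (h.symm.trans this)
  rcases eq_or_lt_of_le hb with hb | hb
  · have : arx D e x = D.pt (t e) := by rw [arx, hb, D.arc_one]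
    exact arx_ne D f (t e) h3 h4 y (h.symm.trans this)
  rcases eq_or_lt_of_le hc' with hc' | hc'
  · have : arx D f y = D.pt (s f) := by rw [arx, ← hc', D.arc_zero]
    exact arx_ne D e (s f) h1.symm h3.symm x (h.trans this)
  rcases eq_or_lt_of_le hd with hd | hd
  · have : arx D f y = D.pt (t f) := by rw [arx, hd, D.arc_one]
    exact arx_ne D e (t f) h2.symm h4.symm x (h.trans this)
  have hfin := D.fin e f hef
  have hemp : D.arc e '' Set.Ioo 0 1 ∩ D.arc f '' Set.Ioo 0 1 = ∅ :=
    (Set.ncard_eq_zero hfin).1 hc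
  have : D.arc e (clamp x) ∈ D.arc e '' Set.Ioo 0 1 ∩ D.arc f '' Set.Ioo 0 1 :=
    ⟨⟨clamp x, ⟨ha, hb⟩, rfl⟩, ⟨clamp y, ⟨hc', hd⟩, h.symm⟩⟩
  rw [hemp] at this
  exact this

variable [LinearOrder V]

/-- Logarithms of the differences of the vertices. -/
noncomputable def Lam (a b : V) : ℂ :=
  if a < b then Complex.log (D.pt b - D.pt a)
  else Complex.log (D.pt a - D.pt b) + Real.pi * Complex.I

theorem exp_Lam {a b : V} (h : a ≠ b) : Complex.exp (Lam D a b) = D.pt b - D.pt a := by
  have hne : D.pt b - D.pt a ≠ 0 := sub_ne_zero.2 fun h' => h (D.pt_inj h').symm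
  have hne' : D.pt a - D.pt b ≠ 0 := sub_ne_zero.2 fun h' => h (D.pt_inj h')
  unfold Lam
  split_ifs with hab
  · exact Complex.exp_log hne
  · rw [Complex.exp_add, Complex.exp_log hne', Complex.exp_pi_mul_I]
    ring

theorem Lam_lt {a b : V} (h : a < b) :
    Lam D b a = Lam D a b + Real.pi * Complex.I := by
  unfold Lam
  rw [if_pos h, if_neg (not_lt.2 h.le)]

theorem exists_kap (v : V) (e : ι) (h1 : v ≠ s e) (h2 : v ≠ t e) :
    ∃ k : ℤ, ∀ L : ℝ → ℂ, Continuous L → ∀ c : ℂ,
      (∀ x, Complex.exp (L x) = c * (arx D e x - D.pt v)) →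
      L 1 - L 0 = Lam D v (t e) - Lam D v (s e) + k * (2 * Real.pi * Complex.I) := by
  obtain ⟨L0, hL0, hexp⟩ := exists_log (fun x => arx D e x - D.pt v)
    ((arx_cont D e).sub continuous_const) (fun x => sub_ne_zero.2 (arx_ne D e v h1 h2 x))
  have hq : Complex.exp (L0 1 - L0 0) = Complex.exp (Lam D v (t e) - Lam D v (s e)) := by
    rw [Complex.exp_sub, Complex.exp_sub, hexp, hexp, exp_Lam D h1, exp_Lam D h2, arx_zero,
      arx_one]
  obtain ⟨k, hk⟩ := Complex.exp_eq_exp_iff_exists_int.1 hq
  refine ⟨k, fun L hL c hc => ?_⟩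
  rw [log_change hL0 hL (c := c) (fun x => by rw [hc x, hexp x]), hk]

open Classical in
/-- The switches. -/
noncomputable def kap (v : V) (e : ι) : ℤ :=
  if h : v ≠ s e ∧ v ≠ t e then (exists_kap D v e h.1 h.2).choose else 0

theorem kap_spec (v : V) (e : ι) (h1 : v ≠ s e) (h2 : v ≠ t e) (L : ℝ → ℂ) (hL : Continuous L)
    (c : ℂ) (hc : ∀ x, Complex.exp (L x) = c * (arx D e x - D.pt v)) :
    L 1 - L 0 = Lam D v (t e) - Lam D v (s e) + kap D v e * (2 * Real.pi * Complex.I) := by
  unfold kap
  rw [dif_pos (⟨h1, h2⟩ : v ≠ s e ∧ v ≠ t e)]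
  exact (exists_kap D v e h1 h2).choose_spec L hL c hc

end

/-- The theorem of van Kampen: the crossing parities of a drawing arise from those of the convex
drawing by switches. -/
theorem vanKampen {V ι : Type} [LinearOrder V] (s t : ι → V) (D : Drawing s t) :
    ∃ κ : V → ι → ZMod 2, ∀ e f : ι, s e ≠ s f → s e ≠ t f → t e ≠ s f → t e ≠ t f →
      cross D e f = 0 → Xof s t κ e f = 0 := by
  refine ⟨fun v e => ((kap D v e : ℤ) : ZMod 2), fun e f h1 h2 h3 h4 hc => ?_⟩
  obtain ⟨L, hL, hexp⟩ := exists_log (fun p : ℝ × ℝ => arx D f p.2 - arx D e p.1)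
    (((arx_cont D f).comp continuous_snd).sub ((arx_cont D e).comp continuous_fst))
    (fun p => sub_ne_zero.2 (arx_disj D e f h1 h2 h3 h4 hc p.1 p.2).symm)
  have q1 := kap_spec D (s e) f h1 h2 (fun y => L (0, y)) (by fun_prop) 1
    (fun y => by rw [hexp]; simp [arx_zero])
  have q2 := kap_spec D (t e) f h3 h4 (fun y => L (1, y)) (by fun_prop) 1
    (fun y => by rw [hexp]; simp [arx_one])
  have q3 := kap_spec D (s f) e h1.symm h3.symm (fun x => L (x, 0)) (by fun_prop) (-1)
    (fun x => by rw [hexp]; simp [arx_zero])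
  have q4 := kap_spec D (t f) e h2.symm h4.symm (fun x => L (x, 1)) (by fun_prop) (-1)
    (fun x => by rw [hexp]; simp [arx_one])
  have hpi : (Real.pi * Complex.I : ℂ) ≠ 0 :=
    mul_ne_zero (by exact_mod_cast Real.pi_ne_zero) Complex.I_ne_zero
  -- the signs
  have key : ∀ a b : V, a ≠ b →
      Lam D a b - Lam D b a = (((if a < b then -1 else 1 : ℤ)) : ℂ) * (Real.pi * Complex.I) := by
    intro a b hab
    rcases lt_or_gt_of_ne hab with h | h
    · rw [if_pos h, Lam_lt D h]; push_cast; ring
    · rw [if_neg (not_lt.2 h.le), Lam_lt D h]; push_cast; ring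
  have k1 := key (s e) (t f) h2
  have k2 := key (s f) (s e) h1.symm
  have k3 := key (t f) (t e) h4.symm
  have k4 := key (t e) (s f) h3
  have hsum : ((((if s e < t f then -1 else 1 : ℤ)) + (if s f < s e then -1 else 1 : ℤ) +
      (if t f < t e then -1 else 1 : ℤ) + (if t e < s f then -1 else 1 : ℤ) +
      2 * (kap D (s e) f + kap D (t f) e - kap D (t e) f - kap D (s f) e) : ℤ) : ℂ) *
      (Real.pi * Complex.I) = 0 := by
    push_cast at k1 k2 k3 k4 ⊢
    linear_combination (-1 : ℂ) * k1 - k2 - k3 - k4 - q1 - q4 + q2 + q3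
  have hint : ((if s e < t f then -1 else 1 : ℤ)) + (if s f < s e then -1 else 1 : ℤ) +
      (if t f < t e then -1 else 1 : ℤ) + (if t e < s f then -1 else 1 : ℤ) +
      2 * (kap D (s e) f + kap D (t f) e - kap D (t e) f - kap D (s f) e) = 0 := by
    rcases mul_eq_zero.1 hsum with h | h
    · exact_mod_cast h
    · exact absurd h hpi
  have h2z : (2 : ZMod 2) = 0 := rfl
  unfold Xof X0
  have fin : ∀ n : ℤ, kap D (s e) f + kap D (t f) e - kap D (t e) f - kap D (s f) e = n →
      ((kap D (s e) f : ℤ) : ZMod 2) + ((kap D (t e) f : ℤ) : ZMod 2) +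
        ((kap D (s f) e : ℤ) : ZMod 2) + ((kap D (t f) e : ℤ) : ZMod 2) = (n : ZMod 2) := by
    intro n hn
    rw [← hn]
    push_cast
    linear_combination (((kap D (t e) f : ℤ) : ZMod 2) + ((kap D (s f) e : ℤ) : ZMod 2)) * h2z
  rcases lt_or_gt_of_ne h1 with a1 | a1 <;> rcases lt_or_gt_of_ne h2 with a2 | a2 <;>
    rcases lt_or_gt_of_ne h3 with a3 | a3 <;> rcases lt_or_gt_of_ne h4 with a4 | a4 <;>
    simp only [a1, a2, a3, a4, not_lt.2 a1.le, not_lt.2 a2.le, not_lt.2 a3.le, not_lt.2 a4.le,
      if_true, if_false] at hint ⊢ <;>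
    first
    | (have h' := fin (-2) (by omega)
       revert h'
       generalize ((kap D (s e) f : ℤ) : ZMod 2) = x1
       generalize ((kap D (t e) f : ℤ) : ZMod 2) = x2
       generalize ((kap D (s f) e : ℤ) : ZMod 2) = x3
       generalize ((kap D (t f) e : ℤ) : ZMod 2) = x4
       revert x1 x2 x3 x4
       decide)
    | (have h' := fin (-1) (by omega)
       revert h'
       generalize ((kap D (s e) f : ℤ) : ZMod 2) = x1
       generalize ((kap D (t e) f : ℤ) : ZMod 2) = x2
       generalize ((kap D (s f) e : ℤ) : ZMod 2) = x3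
       generalize ((kap D (t f) e : ℤ) : ZMod 2) = x4
       revert x1 x2 x3 x4
       decide)
    | (have h' := fin 0 (by omega)
       revert h'
       generalize ((kap D (s e) f : ℤ) : ZMod 2) = x1
       generalize ((kap D (t e) f : ℤ) : ZMod 2) = x2
       generalize ((kap D (s f) e : ℤ) : ZMod 2) = x3
       generalize ((kap D (t f) e : ℤ) : ZMod 2) = x4
       revert x1 x2 x3 x4
       decide)
    | (have h' := fin 1 (by omega)
       revert h'
       generalize ((kap D (s e) f : ℤ) : ZMod 2) = x1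
       generalize ((kap D (t e) f : ℤ) : ZMod 2) = x2
       generalize ((kap D (s f) e : ℤ) : ZMod 2) = x3
       generalize ((kap D (t f) e : ℤ) : ZMod 2) = x4
       revert x1 x2 x3 x4
       decide)
    | (have h' := fin 2 (by omega)
       revert h'
       generalize ((kap D (s e) f : ℤ) : ZMod 2) = x1
       generalize ((kap D (t e) f : ℤ) : ZMod 2) = x2
       generalize ((kap D (s f) e : ℤ) : ZMod 2) = x3
       generalize ((kap D (t f) e : ℤ) : ZMod 2) = x4
       revert x1 x2 x3 x4
       decide)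

end Pool.Agent.KUR
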